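import Pool.Agent.Helper165.Geom2
import Pool.Agent.Helper165.GenChart

set_option autoImplicit false

open HomogeneousLocalization AlgebraicGeometry CategoryTheory TopologicalSpace

universe u

namespace Pool.Agent.Y178.LF

open Pool.Agent.Helper165

variable {k A : Type u} [Field k] [CommRing A] [Algebra k A] (J : Ideal A) (a : A) (ha : a ∈ J)

/-- The ring of the chart of the blow-up of `J` defined by `a ∈ J`. -/
def W : Type u := Away (reesPiece J) (tElt J a ha)

noncomputable instance : CommRing (W J a ha) :=
  inferInstanceAs (CommRing (Away (reesPiece J) (tElt J a ha)))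

/-- The structure map from `A`. -/
noncomputable def W.ofA : A →+* W J a ha := chartMap J a ha

noncomputable instance W.alg : Algebra k (W J a ha) :=
  ((W.ofA J a ha).comp (algebraMap k A)).toAlgebra

lemma W.algebraMap_apply (c : k) :
    algebraMap k (W J a ha) c = W.ofA J a ha (algebraMap k A c) := rfl

/-- The fraction `b / a ^ n`. -/
noncomputable def W.frac (n : ℕ) (b : A) (hb : b ∈ J ^ n) : W J a ha :=
  Pool.Agent.Helper165.frac J a ha n b hb

lemma W.exists_frac (z : W J a ha) :
    ∃ (n : ℕ) (b : A) (hb : b ∈ J ^ n), z = W.frac J a ha n b hb :=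
  Pool.Agent.Helper165.exists_frac J a ha z

variable {K : Type*} [Field K] [Algebra k K] (φ : A →ₐ[k] K) (hφ : Function.Injective φ)
  (ha0 : φ a ≠ 0)

/-- The embedding of the chart ring in the field. -/
noncomputable def W.toK : W J a ha →ₐ[k] K :=
  { psi J (φ : A →+* K) a ha ha0 with
    commutes' := fun c => by
      have h : psi J (φ : A →+* K) a ha ha0 (chartMap J a ha (algebraMap k A c)) =
        (φ : A →+* K) (algebraMap k A c) := psi_chartMap J (φ : A →+* K) a ha ha0 _
      exact h.trans (φ.commutes c) }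

lemma W.toK_ofA (b : A) : W.toK J a ha φ ha0 (W.ofA J a ha b) = φ b :=
  psi_chartMap J (φ : A →+* K) a ha ha0 b

lemma W.toK_frac (n : ℕ) (b : A) (hb : b ∈ J ^ n) :
    W.toK J a ha φ ha0 (W.frac J a ha n b hb) = φ b / φ a ^ n :=
  psi_frac J (φ : A →+* K) a ha ha0 n b hb

include hφ in
lemma W.toK_injective : Function.Injective (W.toK J a ha φ ha0) :=
  psi_injective J (φ : A →+* K) a ha ha0 hφ

variable {J}

lemma mem_of_gen (T : Subring K) (hA : ∀ r : A, φ r ∈ T) (G : Set A) (hJ : J = Ideal.span G)
    (a : A) (hG : ∀ s ∈ G, φ s / φ a ∈ T) (n : ℕ) (b : A) (hb : b ∈ J ^ n) :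
    φ b / φ a ^ n ∈ T := by
  have h1 : ∀ b ∈ J, φ b / φ a ∈ T := by
    intro b hb
    rw [hJ] at hb
    induction hb using Submodule.span_induction with
    | mem x hx => exact hG x hx
    | zero => rw [map_zero, zero_div]; exact T.zero_mem
    | add x y _ _ hx hy => rw [map_add, add_div]; exact T.add_mem hx hy
    | smul c x _ hx =>
      rw [smul_eq_mul, map_mul, mul_div_assoc]
      exact T.mul_mem (hA c) hx
  induction n generalizing b with
  | zero => rw [pow_zero, div_one]; exact hA b
  | succ n ih =>
    rw [pow_succ] at hb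
    induction hb using Submodule.smul_induction_on' with
    | smul c hc d hd =>
      rw [smul_eq_mul, map_mul, pow_succ, mul_div_mul_comm]
      exact T.mul_mem (ih c hc) (h1 d hd)
    | add c _ d _ hc hd =>
      rw [map_add, add_div]
      exact T.add_mem hc hd

variable (J)

include hφ in
/-- A presentation of the chart ring. -/
theorem W.exists_presentation {ι : Type} (ev : MvPolynomial ι k →ₐ[k] K)
    (hA : ∀ r : A, φ r ∈ ev.range) (G : Set A) (hJ : J = Ideal.span G)
    (hG : ∀ s ∈ G, φ s / φ a ∈ ev.range)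
    (hX : ∀ j, ∃ z : W J a ha, W.toK J a ha φ ha0 z = ev (MvPolynomial.X j)) :
    ∃ v : ι → W J a ha, Function.Surjective
      (MvPolynomial.aeval v : MvPolynomial ι k →ₐ[k] W J a ha) ∧
      ∀ q, W.toK J a ha φ ha0 (MvPolynomial.aeval v q) = ev q := by
  choose v hbe using hX
  have hv : ∀ q, W.toK J a ha φ ha0 (MvPolynomial.aeval v q) = ev q := by
    intro q
    have h : (W.toK J a ha φ ha0).comp (MvPolynomial.aeval v) = ev := by
      apply MvPolynomial.algHom_ext
      intro j
      rw [AlgHom.comp_apply, MvPolynomial.aeval_X, hbe]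
    rw [← h]
    rfl
  refine ⟨v, ?_, hv⟩
  intro z
  obtain ⟨N, c, hc, rfl⟩ := W.exists_frac J a ha z
  have h1 : φ c / φ a ^ N ∈ ev.range.toSubring :=
    mem_of_gen φ ev.range.toSubring hA G hJ a hG N c hc
  obtain ⟨q, hq⟩ := h1
  refine ⟨q, W.toK_injective J a ha φ hφ ha0 ?_⟩
  rw [hv, W.toK_frac]
  exact hq

/-- The chart as an open immersion. -/
noncomputable def wChart : Spec (CommRingCat.of (W J a ha)) ⟶ blow J := blowChart J a ha

instance : IsOpenImmersion (wChart J a ha) := inferInstanceAs (IsOpenImmersion (blowChart J a ha))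

lemma wChart_blowMap :
    wChart J a ha ≫ blowMap J = Spec.map (CommRingCat.ofHom (W.ofA J a ha)) :=
  blowChart_blowMap J a ha

lemma wChart_opensRange :
    (wChart J a ha).opensRange = Proj.basicOpen (reesPiece J) (tElt J a ha) :=
  blowChart_opensRange J a ha

/-- A point of the chart of `b` not on the chart of `a` lies on the zero locus of `a / b`. -/
lemma frac_mem_of_notMem (b : A) (hb : b ∈ J) (z : Spec (CommRingCat.of (W J b hb)))
    (hz : wChart J b hb z ∉ (wChart J a ha).opensRange) :
    W.frac J b hb 1 a (by simpa using ha) ∈ z.asIdeal := by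
  by_contra h
  apply hz
  rw [wChart_opensRange]
  have h5 := Proj.awayι_preimage_basicOpen (reesPiece J) (f := tElt J b hb) (tElt_mem J b hb)
    one_pos (g := tElt J a ha) (tElt_mem J a ha) one_pos
  have h6 : z ∈ (Proj.awayι (reesPiece J) (tElt J b hb) (tElt_mem J b hb) one_pos) ⁻¹ᵁ
      Proj.basicOpen (reesPiece J) (tElt J a ha) := by
    rw [h5]
    change Away.isLocalizationElem (tElt_mem J b hb) (tElt_mem J a ha) ∉ z.asIdeal
    have e : Pool.Agent.Helper165.frac J b hb 1 a (by simpa using ha) =
        Away.isLocalizationElem (tElt_mem J b hb) (tElt_mem J a ha) := by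
      apply HomogeneousLocalization.val_injective
      rw [Pool.Agent.Helper165.frac, Away.val_mk, Away.val_mk]
      rw [pow_one (tElt J a ha)]
      rfl
    rw [← e]
    exact h
  exact h6

end Pool.Agent.Y178.LF
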