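import Pool.Agent.Y178.LF.Retract

set_option autoImplicit false

open MvPolynomial

universe u

namespace Pool.Agent.Y178.LF

variable {k : Type u} [Field k] {m : ℕ}

lemma aeval_scale {ι : Type*} [Fintype ι] {B : Type*} [CommRing B] [Algebra k B]
    {q : MvPolynomial ι k} {n : ℕ}
    (hq : q.IsHomogeneous n) (c : B) (v : ι → B) :
    aeval (fun b => c * v b) q = c ^ n * aeval v q := by
  rw [aeval_def, aeval_def, eval₂_eq', eval₂_eq', Finset.mul_sum]
  refine Finset.sum_congr rfl fun d hd => ?_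
  have h1 : d.degree = n := by
    by_contra h
    exact (mem_support_iff.1 hd) (hq.coeff_eq_zero h)
  have h2 : ∏ b, (c * v b) ^ d b = c ^ n * ∏ b, v b ^ d b := by
    rw [← h1, Finsupp.degree_eq_sum, ← Finset.prod_pow_eq_pow_sum, ← Finset.prod_mul_distrib]
    exact Finset.prod_congr rfl fun b _ => mul_pow _ _ _
  rw [h2]
  ring

/-- The coordinate functions `u_b = x_b / x_l` of the `l`-th chart, in terms of the variables. -/
noncomputable def uu (l : Fin (m + 1)) : Fin (m + 1) → Pol k m := Function.update X l 1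

lemma uu_self (l : Fin (m + 1)) : (uu l l : Pol k m) = 1 := Function.update_self _ _ _

lemma uu_ne {l b : Fin (m + 1)} (h : b ≠ l) : (uu l b : Pol k m) = X b :=
  Function.update_of_ne h _ _

/-- The dehomogenization of `f` with respect to `x_l`. -/
noncomputable def dehom (l : Fin (m + 1)) (f : Pol k m) : Pol k m := aeval (uu l) f

section

variable {p i : ℕ} {f g : Pol k m} (H : Good p i f g)

include H

lemma Good.chi_rel (l : Fin (m + 1)) : ((X l : Pol k m) ^ (m + 1) * dehom l f ^ i) ^ p =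
    aeval (fun b => (X l ^ p * dehom l f) * uu l b) f := by
  rw [aeval_scale H.hf]
  change _ = _ * dehom l f
  rw [mul_pow, mul_pow, ← pow_mul, ← pow_mul, ← pow_mul, mul_comm i p, H.pi, mul_comm (m + 1) p]
  ring

/-- The map from the coordinate ring of `X` to the ring of the chart `D_+(x_l t)`. -/
noncomputable def Good.chi (l : Fin (m + 1)) : RR p f →ₐ[k] Pol k m :=
  RR.lift p f (fun b => (X l ^ p * dehom l f) * uu l b) (X l ^ (m + 1) * dehom l f ^ i)
    (H.chi_rel l)

lemma Good.chi_x (l b : Fin (m + 1)) :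
    H.chi l (RR.x p f b) = (X l ^ p * dehom l f) * uu l b := RR.lift_x _ _ _ _ _ _

lemma Good.chi_t (l : Fin (m + 1)) : H.chi l (RR.t p f) = X l ^ (m + 1) * dehom l f ^ i :=
  RR.lift_t _ _ _ _ _

lemma Good.x_ne_zero (l : Fin (m + 1)) : RR.x p f l ≠ 0 := by
  intro h
  have h1 := H.psi_x l
  rw [h, map_zero] at h1
  exact pow_ne_zero p (X_ne_zero (R := k) l) h1.symm

lemma Good.t_ne_zero : RR.t p f ≠ 0 := by
  intro h
  have h1 := H.psi_t
  rw [h, map_zero] at h1
  exact H.g_ne_zero h1.symm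

end

section field

variable {p i : ℕ} {f g : Pol k m} (H : Good p i f g)
variable {K : Type*} [Field K] [Algebra k K] (φ : RR p f →ₐ[k] K)

/-- The coordinates of the chart `D_+(x_l t)` in a field. -/
noncomputable def sv (φ : RR p f →ₐ[k] K) (i : ℕ) (l : Fin (m + 1)) : Fin (m + 1) → K :=
  Function.update (fun b => φ (RR.x p f b) / φ (RR.x p f l)) l
    (φ (RR.x p f l) ^ i / φ (RR.t p f))

lemma sv_self (l : Fin (m + 1)) : sv φ i l l = φ (RR.x p f l) ^ i / φ (RR.t p f) :=
  Function.update_self _ _ _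

lemma sv_ne {l b : Fin (m + 1)} (h : b ≠ l) :
    sv φ i l b = φ (RR.x p f b) / φ (RR.x p f l) := Function.update_of_ne h _ _

/-- The embedding of the ring of the chart `D_+(x_l t)` in a field. -/
noncomputable def sig (φ : RR p f →ₐ[k] K) (i : ℕ) (l : Fin (m + 1)) : Pol k m →ₐ[k] K :=
  aeval (sv φ i l)

lemma sig_X (l b : Fin (m + 1)) : sig φ i l (X b) = sv φ i l b := aeval_X _ _

include H

variable (hφ : Function.Injective φ)

include hφ

lemma Good.phix_ne (l : Fin (m + 1)) : φ (RR.x p f l) ≠ 0 := fun h =>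
  H.x_ne_zero l ((map_eq_zero_iff _ hφ).1 h)

lemma Good.phit_ne : φ (RR.t p f) ≠ 0 := fun h =>
  H.t_ne_zero ((map_eq_zero_iff _ hφ).1 h)

lemma Good.sig_uu (l b : Fin (m + 1)) :
    sig φ i l (uu l b) = φ (RR.x p f b) / φ (RR.x p f l) := by
  by_cases h : b = l
  · subst h
    rw [uu_self, map_one, div_self (H.phix_ne φ hφ _)]
  · rw [uu_ne h, sig_X, sv_ne φ h]

lemma Good.phi_aeval (q : Pol k m) (n : ℕ) (hq : q.IsHomogeneous n) (l : Fin (m + 1)) :
    aeval (fun b => φ (RR.x p f b) / φ (RR.x p f l)) q =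
      φ (aeval (RR.x p f) q) / φ (RR.x p f l) ^ n := by
  have h0 := H.phix_ne φ hφ l
  have h1 : aeval (fun b => φ (RR.x p f l) * (φ (RR.x p f b) / φ (RR.x p f l))) q =
      φ (RR.x p f l) ^ n * aeval (fun b => φ (RR.x p f b) / φ (RR.x p f l)) q :=
    aeval_scale hq _ _
  have h2 : (fun b => φ (RR.x p f l) * (φ (RR.x p f b) / φ (RR.x p f l))) =
      fun b => φ (RR.x p f b) := by
    funext b
    field_simp
  rw [h2] at h1
  have h3 : aeval (fun b => φ (RR.x p f b)) q = φ (aeval (RR.x p f) q) := by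
    have : (aeval (fun b => φ (RR.x p f b)) : Pol k m →ₐ[k] K) = φ.comp (aeval (RR.x p f)) := by
      apply MvPolynomial.algHom_ext
      intro b
      simp
    rw [this]
    rfl
  rw [h3] at h1
  rw [h1]
  field_simp

lemma Good.sig_dehom' (q : Pol k m) (n : ℕ) (hq : q.IsHomogeneous n) (l : Fin (m + 1)) :
    sig φ i l (dehom l q) = φ (aeval (RR.x p f) q) / φ (RR.x p f l) ^ n := by
  rw [← H.phi_aeval φ hφ q n hq l, dehom]
  have : ((sig φ i l).comp (aeval (uu l)) : Pol k m →ₐ[k] K) =
      aeval (fun b => φ (RR.x p f b) / φ (RR.x p f l)) := by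
    apply MvPolynomial.algHom_ext
    intro b
    rw [AlgHom.comp_apply, aeval_X, aeval_X, H.sig_uu φ hφ]
  rw [← this]
  rfl

lemma Good.sig_dehom (l : Fin (m + 1)) :
    sig φ i l (dehom l f) = φ (RR.t p f) ^ p / φ (RR.x p f l) ^ (m + 1) := by
  rw [H.sig_dehom' φ hφ f (m + 1) H.hf l, ← RR.t_pow, map_pow]

lemma Good.sig_chi (l : Fin (m + 1)) (r : RR p f) : sig φ i l (H.chi l r) = φ r := by
  have h0 := H.phix_ne φ hφ l
  have h1 := H.phit_ne φ hφ
  have hpi := H.pi
  have h : ((sig φ i l).comp (H.chi l) : RR p f →ₐ[k] K).toRingHom = φ.toRingHom := by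
    apply RR.hom_ext
    · intro c
      change (sig φ i l).comp (H.chi l) (algebraMap k _ c) = φ (algebraMap k _ c)
      rw [AlgHom.commutes, AlgHom.commutes]
    · intro b
      change sig φ i l (H.chi l (RR.x p f b)) = φ (RR.x p f b)
      rw [H.chi_x, map_mul, map_mul, map_pow, H.sig_dehom φ hφ, H.sig_uu φ hφ, sig_X, sv_self,
        div_pow, ← pow_mul, mul_comm i p, hpi]
      field_simp
      ring
    · change sig φ i l (H.chi l (RR.t p f)) = φ (RR.t p f)
      rw [H.chi_t, map_mul, map_pow, map_pow, H.sig_dehom φ hφ, sig_X, sv_self, div_pow, div_pow,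
        ← pow_mul, ← pow_mul, ← pow_mul, mul_comm i (m + 1), hpi]
      rw [show m + 2 = (m + 1) + 1 by ring, pow_succ (φ (RR.t p f)) (m + 1)]
      field_simp
  exact congrArg (fun F => F r) h

lemma Good.chi_injective' (l : Fin (m + 1)) : Function.Injective (H.chi l) := by
  intro a b h
  apply hφ
  rw [← H.sig_chi φ hφ l a, ← H.sig_chi φ hφ l b, h]

end field

section

variable {p i : ℕ} {f g : Pol k m} (H : Good p i f g)

include H

lemma Good.chi_injective (l : Fin (m + 1)) : Function.Injective (H.chi l) := by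
  have hd := H.isDomain
  exact H.chi_injective' ((IsScalarTower.toAlgHom k (RR p f) (FractionRing (RR p f))))
    (IsFractionRing.injective (RR p f) _) l

lemma Good.X_mul_chi (l b : Fin (m + 1)) :
    ∃ r, (X b : Pol k m) * H.chi l (RR.x p f l * RR.t p f) = H.chi l r := by
  by_cases h : b = l
  · subst h
    refine ⟨RR.x p f b ^ (i + 1), ?_⟩
    have e : (X b ^ p : Pol k m) ^ i = X b ^ (m + 2) := by rw [← pow_mul, H.pi]
    rw [map_mul, map_pow, H.chi_x, H.chi_t, uu_self, mul_one, pow_succ (X b ^ p * dehom b f) i,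
      mul_pow, e]
    ring
  · refine ⟨RR.x p f b * RR.t p f, ?_⟩
    rw [map_mul, map_mul, H.chi_x, H.chi_x, uu_self, uu_ne h]
    ring

/-- Clearing denominators. -/
lemma Good.clear (l : Fin (m + 1)) (q : Pol k m) :
    ∃ (N : ℕ) (r : RR p f), q * H.chi l (RR.x p f l * RR.t p f) ^ N = H.chi l r := by
  set a := RR.x p f l * RR.t p f with ha
  induction q using MvPolynomial.induction_on with
  | C c => exact ⟨0, algebraMap k _ c, by rw [pow_zero, mul_one, AlgHom.commutes]; rfl⟩
  | add q q' h h' =>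
    obtain ⟨N, r, hr⟩ := h
    obtain ⟨N', r', hr'⟩ := h'
    refine ⟨N + N', r * a ^ N' + r' * a ^ N, ?_⟩
    rw [map_add, map_mul (H.chi l) r, map_mul (H.chi l) r', ← hr, ← hr', map_pow, map_pow]
    ring
  | mul_X q b h =>
    obtain ⟨N, r, hr⟩ := h
    obtain ⟨r', hr'⟩ := H.X_mul_chi l b
    refine ⟨N + 1, r * r', ?_⟩
    rw [map_mul (H.chi l) r, ← hr, ← hr', ← ha]
    ring

variable {K : Type*} [Field K] [Algebra k K] (φ : RR p f →ₐ[k] K) (hφ : Function.Injective φ)

include hφ in
lemma Good.sig_injective (l : Fin (m + 1)) : Function.Injective (sig φ i l) := by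
  rw [injective_iff_map_eq_zero]
  intro q hq
  obtain ⟨N, r, hr⟩ := H.clear l q
  have h1 : φ r = 0 := by
    rw [← H.sig_chi φ hφ l r, ← hr, map_mul, hq, zero_mul]
  have h2 : r = 0 := (map_eq_zero_iff _ hφ).1 h1
  rw [h2, map_zero] at hr
  have h3 : H.chi l (RR.x p f l * RR.t p f) ≠ 0 := by
    intro h
    have := (map_eq_zero_iff _ (H.chi_injective l)).1 h
    have hd := H.isDomain
    rcases mul_eq_zero.1 this with h4 | h4
    · exact H.x_ne_zero l h4
    · exact H.t_ne_zero h4
  rcases mul_eq_zero.1 hr with h4 | h4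
  · exact h4
  · exact absurd h4 (pow_ne_zero N h3)

end

end Pool.Agent.Y178.LF
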