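import Pool.Agent.Y178.LF.Ker
import Pool.Agent.Y178.LF.BlowGen

set_option autoImplicit false

open MvPolynomial

universe u

namespace Pool.Agent.Y178.LF

open Pool.Agent.Helper165 AlgebraicGeometry CategoryTheory TopologicalSpace

variable {k : Type u} [Field k] {m : ℕ} {p i : ℕ} {f g : Pol k m}

/-- The generators of the ideal `J = (x_0, …, x_m) · ((x_0, …, x_m) ^ i + (t))`. -/
def gensJ (p i : ℕ) (f : Pol k m) : Set (RR p f) :=
  Set.range (fun l => RR.x p f l * RR.t p f) ∪
    Set.range (fun F : Fin (i + 1) → Fin (m + 1) => ∏ j, RR.x p f (F j))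

/-- The ideal `J = (x_0, …, x_m) · ((x_0, …, x_m) ^ i + (t))`. -/
noncomputable def JJ (p i : ℕ) (f : Pol k m) : Ideal (RR p f) := Ideal.span (gensJ p i f)

lemma JJ_fg (p i : ℕ) (f : Pol k m) : (JJ p i f).FG :=
  Submodule.fg_span ((Set.finite_range _).union (Set.finite_range _))

lemma xt_mem (l : Fin (m + 1)) : RR.x p f l * RR.t p f ∈ JJ p i f :=
  Ideal.subset_span (Or.inl ⟨l, rfl⟩)

lemma prod_mem_JJ (F : Fin (i + 1) → Fin (m + 1)) : ∏ j, RR.x p f (F j) ∈ JJ p i f :=
  Ideal.subset_span (Or.inr ⟨F, rfl⟩)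

lemma xpow_mem (l : Fin (m + 1)) : RR.x p f l ^ (i + 1) ∈ JJ p i f := by
  have h := prod_mem_JJ (p := p) (f := f) (fun _ : Fin (i + 1) => l)
  simpa using h

/-- The two kinds of charts cover the blow-up. -/
lemma cover (y : blow (JJ p i f)) :
    (∃ l, y ∈ (wChart (JJ p i f) _ (xt_mem l)).opensRange) ∨
    ((∀ l, y ∉ (wChart (JJ p i f) _ (xt_mem l)).opensRange) ∧
      ∃ l, y ∈ (wChart (JJ p i f) _ (xpow_mem l)).opensRange) := by
  by_cases h : ∃ l, y ∈ (wChart (JJ p i f) _ (xt_mem l)).opensRange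
  · exact Or.inl h
  · right
    push Not at h
    refine ⟨h, ?_⟩
    by_contra hcon
    push Not at hcon
    have h1 : ∀ l, tElt (JJ p i f) _ (xt_mem l) ∈
        ProjectiveSpectrum.asHomogeneousIdeal (𝒜 := reesPiece (JJ p i f)) y := by
      intro l
      by_contra h2
      apply h l
      rw [wChart_opensRange]
      exact h2
    have h2 : ∀ l, tElt (JJ p i f) _ (xpow_mem l) ∈
        ProjectiveSpectrum.asHomogeneousIdeal (𝒜 := reesPiece (JJ p i f)) y := by
      intro l
      by_contra h2
      apply hcon l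
      rw [wChart_opensRange]
      exact h2
    refine false_of_span (JJ p i f) y _ rfl ?_
    rintro s (⟨l, rfl⟩ | ⟨F, rfl⟩) hs
    · exact h1 l
    · have e : tElt (JJ p i f) (∏ j, RR.x p f (F j)) hs ^ (i + 1) =
          ∏ j : Fin (i + 1), tElt (JJ p i f) _ (xpow_mem (F j)) := by
        apply Subtype.ext
        have e1 : ∀ a (ha : a ∈ JJ p i f), ((tElt (JJ p i f) a ha : reesAlgebra (JJ p i f)) :
            Polynomial (RR p f)) = Polynomial.C a * Polynomial.X := by
          intro a ha
          simp [tElt, reesMon, Polynomial.C_mul_X_eq_monomial]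
        have e2 : ((∏ j : Fin (i + 1), tElt (JJ p i f) _ (xpow_mem (F j)) :
            reesAlgebra (JJ p i f)) : Polynomial (RR p f)) =
            ∏ j : Fin (i + 1), ((tElt (JJ p i f) _ (xpow_mem (F j)) : reesAlgebra (JJ p i f)) :
              Polynomial (RR p f)) :=
          map_prod (reesAlgebra (JJ p i f)).val _ _
        rw [e2]
        change ((tElt (JJ p i f) _ hs : reesAlgebra (JJ p i f)) : Polynomial (RR p f)) ^ (i + 1) =
          ∏ j, ((tElt (JJ p i f) _ (xpow_mem (F j)) : reesAlgebra (JJ p i f)) :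
            Polynomial (RR p f))
        rw [e1]
        simp only [e1]
        rw [Finset.prod_mul_distrib, Finset.prod_const, Finset.card_univ, Fintype.card_fin,
          mul_pow]
        congr 1
        simp only [map_pow, map_prod]
        rw [← Finset.prod_pow]
      have h3 : tElt (JJ p i f) (∏ j, RR.x p f (F j)) hs ^ (i + 1) ∈
          (ProjectiveSpectrum.asHomogeneousIdeal (𝒜 := reesPiece (JJ p i f)) y).toIdeal := by
        rw [e, Fin.prod_univ_succ]
        exact Ideal.mul_mem_right _ _ (h2 _)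
      exact (ProjectiveSpectrum.isPrime (𝒜 := reesPiece (JJ p i f)) y).mem_of_pow_mem _ h3

section

variable (H : Good p i f g) {K : Type*} [Field K] [Algebra k K] (φ : RR p f →ₐ[k] K)
  (hφ : Function.Injective φ)

include H hφ

/-- The first kind of charts. -/
theorem Good.chartOne' (l : Fin (m + 1)) :
    ∃ v : Option (Fin (m + 1)) → W (JJ p i f) _ (xt_mem l),
      Function.Surjective (aeval v : MvPolynomial (Option (Fin (m + 1))) k →ₐ[k] _) ∧
      RingHom.ker (aeval v : MvPolynomial (Option (Fin (m + 1))) k →ₐ[k] _) =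
        Ideal.span {relOne (dehom l f)} ∧
      ∀ r, W.ofA (JJ p i f) _ (xt_mem l) r = aeval v (rename some (H.chi l r)) := by
  have hx := H.phix_ne φ hφ l
  have ht := H.phit_ne φ hφ
  have ha0 : φ (RR.x p f l * RR.t p f) ≠ 0 := by
    rw [map_mul]
    exact mul_ne_zero hx ht
  let ev : MvPolynomial (Option (Fin (m + 1))) k →ₐ[k] K :=
    (sig φ i l).comp (evalNone (dehom l f))
  have hev : ∀ q, ev q = sig φ i l (evalNone (dehom l f) q) := fun _ => rfl
  have hX' : ∀ b, ∃ z : W (JJ p i f) _ (xt_mem l),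
      W.toK (JJ p i f) _ (xt_mem l) φ ha0 z = sig φ i l (X b) := by
    intro b
    rw [sig_X]
    by_cases hb : b = l
    · subst hb
      refine ⟨W.frac _ _ _ 1 (RR.x p f b ^ (i + 1)) (by rw [pow_one]; exact xpow_mem b), ?_⟩
      rw [W.toK_frac, sv_self, map_pow, map_mul, pow_one, pow_succ]
      field_simp
    · refine ⟨W.frac _ _ _ 1 (RR.x p f b * RR.t p f) (by rw [pow_one]; exact xt_mem b), ?_⟩
      rw [W.toK_frac, sv_ne φ hb, map_mul, map_mul, pow_one]
      field_simp
  choose v' hv' using hX'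
  have c1 : ∀ r : RR p f, φ r ∈ ev.range := by
    intro r
    refine ⟨rename some (H.chi l r), ?_⟩
    change ev _ = _
    rw [hev, evalNone_rename, H.sig_chi φ hφ]
  have c2 : ∀ s ∈ gensJ p i f, φ s / φ (RR.x p f l * RR.t p f) ∈ ev.range := by
    rintro s (⟨b, rfl⟩ | ⟨F, rfl⟩)
    · refine ⟨rename some (uu l b), ?_⟩
      change ev _ = φ (RR.x p f b * RR.t p f) / φ (RR.x p f l * RR.t p f)
      rw [hev, evalNone_rename, H.sig_uu φ hφ, map_mul, map_mul]
      field_simp
    · refine ⟨rename some ((∏ j, uu l (F j)) * X l), ?_⟩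
      change ev _ = φ (∏ j, RR.x p f (F j)) / φ (RR.x p f l * RR.t p f)
      rw [hev, evalNone_rename, map_mul, map_prod, sig_X, sv_self, map_prod, map_mul]
      rw [Finset.prod_congr rfl fun j _ => H.sig_uu φ hφ l (F j), Finset.prod_div_distrib,
        Finset.prod_const, Finset.card_univ, Fintype.card_fin, pow_succ]
      field_simp
  have c3 : ∀ j, ∃ z : W (JJ p i f) _ (xt_mem l),
      W.toK (JJ p i f) _ (xt_mem l) φ ha0 z = ev (X j) := by
    rintro (_ | b)
    · refine ⟨aeval v' (dehom l f), ?_⟩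
      rw [hev, evalNone_none]
      have : (W.toK (JJ p i f) _ (xt_mem l) φ ha0).comp (aeval v') = sig φ i l := by
        apply MvPolynomial.algHom_ext
        intro b
        rw [AlgHom.comp_apply, aeval_X, hv']
      rw [← this]
      rfl
    · refine ⟨v' b, ?_⟩
      rw [hev, evalNone_some, hv']
  obtain ⟨v, hv1, hv2⟩ := W.exists_presentation (JJ p i f) _ (xt_mem l) φ hφ ha0 ev c1
    (gensJ p i f) rfl c2 c3
  refine ⟨v, hv1, ?_, ?_⟩
  · rw [← ker_evalNone]
    ext q
    rw [RingHom.mem_ker, RingHom.mem_ker]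
    constructor
    · intro h
      have h1 := hv2 q
      rw [h, map_zero, hev] at h1
      exact (map_eq_zero_iff _ (H.sig_injective φ hφ l)).1 h1.symm
    · intro h
      apply W.toK_injective (JJ p i f) _ (xt_mem l) φ hφ ha0
      rw [hv2, hev, h, map_zero, map_zero]
  · intro r
    apply W.toK_injective (JJ p i f) _ (xt_mem l) φ hφ ha0
    rw [hv2, hev, W.toK_ofA, evalNone_rename, H.sig_chi φ hφ]

/-- The second kind of charts. -/
theorem Good.chartTwo' (l : Fin (m + 1)) :
    ∃ v : Option (Fin (m + 1)) → W (JJ p i f) _ (xpow_mem l),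
      Function.Surjective (aeval v : MvPolynomial (Option (Fin (m + 1))) k →ₐ[k] _) ∧
      RingHom.ker (aeval v : MvPolynomial (Option (Fin (m + 1))) k →ₐ[k] _) =
        Ideal.span {relTwo p f l} ∧
      (∀ b, W.ofA (JJ p i f) _ (xpow_mem l) (RR.x p f b) =
        aeval v (rename some (uu l b : Pol k m)) * v (some l)) ∧
      W.ofA (JJ p i f) _ (xpow_mem l) (RR.t p f) = v none * v (some l) ^ i ∧
      W.frac (JJ p i f) _ (xpow_mem l) 1 (RR.x p f l * RR.t p f)
        (by rw [pow_one]; exact xt_mem l) = v none := by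
  have hx := H.phix_ne φ hφ l
  have ht := H.phit_ne φ hφ
  have ha0 : φ (RR.x p f l ^ (i + 1)) ≠ 0 := by
    rw [map_pow]
    exact pow_ne_zero _ hx
  have hx1 : ∀ b, φ (RR.x p f b) = tau φ i l (rename some (uu l b) * X (some l)) := by
    intro b
    rw [map_mul, H.tau_uu φ hφ, tau_X, tv_self]
    field_simp
  have ht1 : φ (RR.t p f) = tau φ i l (X none * X (some l) ^ i) := by
    rw [map_mul, map_pow, tau_X, tau_X, tv_self, tv_none]
    field_simp
  have c1 : ∀ r : RR p f, φ r ∈ (tau φ i l).range := by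
    intro r
    induction r using RR.induction with
    | hC c => exact ⟨C c, by rw [AlgHom.commutes]; exact aeval_C _ _⟩
    | hx b => exact ⟨_, (hx1 b).symm⟩
    | ht => exact ⟨_, ht1.symm⟩
    | hadd a b ha hb => rw [map_add]; exact Subalgebra.add_mem _ ha hb
    | hmul a b ha hb => rw [map_mul]; exact Subalgebra.mul_mem _ ha hb
  have c2 : ∀ s ∈ gensJ p i f, φ s / φ (RR.x p f l ^ (i + 1)) ∈ (tau φ i l).range := by
    rintro s (⟨b, rfl⟩ | ⟨F, rfl⟩)
    · refine ⟨rename some (uu l b) * X none, ?_⟩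
      change tau φ i l _ = φ (RR.x p f b * RR.t p f) / φ (RR.x p f l ^ (i + 1))
      rw [map_mul, H.tau_uu φ hφ, tau_X, tv_none, map_mul, map_pow, pow_succ]
      field_simp
    · refine ⟨rename some (∏ j, uu l (F j)), ?_⟩
      change tau φ i l _ = φ (∏ j, RR.x p f (F j)) / φ (RR.x p f l ^ (i + 1))
      rw [map_prod, map_prod, map_prod, map_pow]
      rw [Finset.prod_congr rfl fun j _ => H.tau_uu φ hφ l (F j), Finset.prod_div_distrib,
        Finset.prod_const, Finset.card_univ, Fintype.card_fin]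
  have c3 : ∀ j, ∃ z : W (JJ p i f) _ (xpow_mem l),
      W.toK (JJ p i f) _ (xpow_mem l) φ ha0 z = tau φ i l (X j) := by
    rintro (_ | b)
    · refine ⟨W.frac _ _ _ 1 (RR.x p f l * RR.t p f) (by rw [pow_one]; exact xt_mem l), ?_⟩
      rw [W.toK_frac, tau_X, tv_none, map_mul, map_pow, pow_one, pow_succ]
      field_simp
    · by_cases hb : b = l
      · subst hb
        refine ⟨W.ofA _ _ _ (RR.x p f b), ?_⟩
        rw [W.toK_ofA, tau_X, tv_self]
      · refine ⟨W.frac _ _ _ 1 (RR.x p f b * RR.x p f l ^ i) (by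
          rw [pow_one]
          have h := prod_mem_JJ (p := p) (f := f) (Fin.cons b (fun _ : Fin i => l))
          rw [Fin.prod_univ_succ] at h
          simpa using h), ?_⟩
        rw [W.toK_frac, tau_X, tv_ne φ hb, map_mul, map_pow, map_pow, pow_one, pow_succ]
        field_simp
  obtain ⟨v, hv1, hv2⟩ := W.exists_presentation (JJ p i f) _ (xpow_mem l) φ hφ ha0 (tau φ i l) c1
    (gensJ p i f) rfl c2 c3
  have hinj := W.toK_injective (JJ p i f) _ (xpow_mem l) φ hφ ha0
  refine ⟨v, hv1, ?_, ?_, ?_, ?_⟩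
  · rw [← H.ker_tau φ hφ]
    ext q
    rw [RingHom.mem_ker, RingHom.mem_ker]
    constructor
    · intro h
      rw [← hv2, h, map_zero]
    · intro h
      apply hinj
      rw [hv2, h, map_zero]
  · intro b
    apply hinj
    have h1 := hv2 (rename some (uu l b) * X (some l))
    rw [← hx1, map_mul (aeval v), aeval_X] at h1
    rw [W.toK_ofA, h1]
  · apply hinj
    have h1 := hv2 (X none * X (some l) ^ i)
    rw [← ht1, map_mul (aeval v), map_pow (aeval v), aeval_X, aeval_X] at h1
    rw [W.toK_ofA, h1]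
  · apply hinj
    have h1 := hv2 (X none)
    rw [aeval_X, tau_X, tv_none] at h1
    rw [W.toK_frac, h1, map_mul, map_pow, pow_one, pow_succ]
    field_simp

end

section

variable (H : Good p i f g)

include H

theorem Good.chartOne (l : Fin (m + 1)) :
    ∃ v : Option (Fin (m + 1)) → W (JJ p i f) _ (xt_mem l),
      Function.Surjective (aeval v : MvPolynomial (Option (Fin (m + 1))) k →ₐ[k] _) ∧
      RingHom.ker (aeval v : MvPolynomial (Option (Fin (m + 1))) k →ₐ[k] _) =
        Ideal.span {relOne (dehom l f)} ∧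
      ∀ r, W.ofA (JJ p i f) _ (xt_mem l) r = aeval v (rename some (H.chi l r)) := by
  have hd := H.isDomain
  exact H.chartOne' (IsScalarTower.toAlgHom k (RR p f) (FractionRing (RR p f)))
    (IsFractionRing.injective (RR p f) _) l

theorem Good.chartTwo (l : Fin (m + 1)) :
    ∃ v : Option (Fin (m + 1)) → W (JJ p i f) _ (xpow_mem l),
      Function.Surjective (aeval v : MvPolynomial (Option (Fin (m + 1))) k →ₐ[k] _) ∧
      RingHom.ker (aeval v : MvPolynomial (Option (Fin (m + 1))) k →ₐ[k] _) =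
        Ideal.span {relTwo p f l} ∧
      (∀ b, W.ofA (JJ p i f) _ (xpow_mem l) (RR.x p f b) =
        aeval v (rename some (uu l b : Pol k m)) * v (some l)) ∧
      W.ofA (JJ p i f) _ (xpow_mem l) (RR.t p f) = v none * v (some l) ^ i ∧
      W.frac (JJ p i f) _ (xpow_mem l) 1 (RR.x p f l * RR.t p f)
        (by rw [pow_one]; exact xt_mem l) = v none := by
  have hd := H.isDomain
  exact H.chartTwo' (IsScalarTower.toAlgHom k (RR p f) (FractionRing (RR p f)))
    (IsFractionRing.injective (RR p f) _) l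

end

end Pool.Agent.Y178.LF
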