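import Pool.Agent.Helper165.Defs

set_option autoImplicit false

open AlgebraicGeometry CategoryTheory

universe u

namespace Pool.Agent.Y178.LF

open Pool.Agent.Helper165

/-- A domain `R` of characteristic `p` is strongly `F`-regular if for every `c ≠ 0` there are
`e > 0` and an `R`-linear map `φ : F^e_* R → R` with `φ (F^e_* c) = 1`, that is, the map
`R → F^e_* R`, `1 ↦ F^e_* c`, splits. An `R`-linear map `F^e_* R → R` is an additive map
`φ : R → R` with `φ (a ^ (p ^ e) * b) = a * φ b`. -/
def IsStronglyFRegular (p : ℕ) (R : Type*) [CommRing R] : Prop :=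
  ∀ c : R, c ≠ 0 → ∃ e : ℕ, 0 < e ∧ ∃ φ : R →+ R,
    (∀ a b : R, φ (a ^ p ^ e * b) = a * φ b) ∧ φ c = 1

/-- The `n`-dimensional `k`-variety `X` (structure morphism `π`) is smooth at the point `x`. -/
def IsSmoothAt {k : Type u} [Field k] {X : Scheme.{u}} (n : ℕ) (π : X ⟶ Spec (CommRingCat.of k))
    (x : X) : Prop :=
  ∃ U : X.Opens, x ∈ U ∧ SmoothOfRelativeDimension n (U.ι ≫ π)

/-- `f : Y ⟶ X` is an isomorphism over a dense open subset of `X` with dense preimage. -/
def IsBirational {X Y : Scheme.{u}} (f : Y ⟶ X) : Prop :=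
  ∃ U : X.Opens, Dense (U : Set X) ∧ Dense ((f ⁻¹ᵁ U : Y.Opens) : Set Y) ∧ IsIso (f ∣_ U)

/-- The exceptional locus of `f : Y ⟶ X`: the points `y` such that `f` is not an isomorphism
over any neighbourhood of `f y`. -/
def exceptionalLocus {X Y : Scheme.{u}} (f : Y ⟶ X) : Set Y :=
  {y | ¬ ∃ U : X.Opens, f y ∈ U ∧ IsIso (f ∣_ U)}

/-- `E` is a simple normal crossing divisor of the smooth `n`-dimensional `k`-scheme `Y`
(structure morphism `π`): every point of `Y` has an affine open neighbourhood `Spec B` with
étale coordinates `z_1, …, z_n` (that is, `k[z_1, …, z_n] → B` is étale) such that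
`E ∩ Spec B` is the zero locus of a product of distinct coordinates. -/
def IsSNC {k : Type u} [Field k] {Y : Scheme.{u}} (n : ℕ) (π : Y ⟶ Spec (CommRingCat.of k))
    (E : Set Y) : Prop :=
  ∀ y : Y, ∃ (B : CommRingCat.{u}) (j : Spec B ⟶ Y) (z : MvPolynomial (Fin n) k →+* B)
    (I : Finset (Fin n)), IsOpenImmersion j ∧ y ∈ Set.range j ∧
      j ≫ π = Spec.map (CommRingCat.ofHom (z.comp MvPolynomial.C)) ∧ z.Etale ∧
      ∀ x : Spec B, j x ∈ E ↔ z (∏ a ∈ I, MvPolynomial.X a) ∈ x.asIdeal

/-- `f : Y ⟶ X` is a log resolution of the pair `(X, 0)`, for an `n`-dimensional `k`-variety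
`X` with structure morphism `π`: `Y` is smooth over `k` of dimension `n`, `f` is proper and
birational and the exceptional locus of `f` is a simple normal crossing divisor. -/
structure IsLogResolution {k : Type u} [Field k] {X Y : Scheme.{u}} (n : ℕ)
    (f : Y ⟶ X) (π : X ⟶ Spec (CommRingCat.of k)) : Prop where
  smooth : SmoothOfRelativeDimension n (f ≫ π)
  proper : IsProper f
  birational : IsBirational f
  snc : IsSNC n (f ≫ π) (exceptionalLocus f)

/-- For a field `K`, a map `d : K → M` (in practice the universal derivation `K → Ω_{K/k}`) and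
two families `S`, `T` of subsets of `K` (in practice local rings): every rational `q`-form which
is regular on all the members of `S` is regular on all the members of `T`. -/
def FormsExtend {K M : Type*} [Field K] [AddCommGroup M] [Module K M] (d : K → M) (q : ℕ)
    (S T : Set (Set K)) : Prop :=
  ∀ ω : ⋀[K]^q M, (∀ O ∈ S, ω ∈ regularForms d q O) → ∀ O ∈ T, ω ∈ regularForms d q O

/-- Regular `q`-forms on the `n`-dimensional variety `X` lift to `Y` along the birational
morphism `f : Y ⟶ X`: for every open subset `U` of `X`, every rational `q`-form which is regular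
at all the points of `U` at which `X` is smooth is regular at all the points of `f⁻¹(U)`.
Forms are elements of `⋀^q Ω_{K/k}`, where `K` is the function field of `Y` (and of `X`), and
such a form is regular at a point `x` if it lies in the image of `⋀^q Ω_{O_x/k}`, where
`O_x ⊆ K` is the local ring at `x`. -/
def FormsLift {k : Type u} [Field k] {X Y : Scheme.{u}} [IsIntegral Y] (n q : ℕ)
    (f : Y ⟶ X) (π : X ⟶ Spec (CommRingCat.of k)) : Prop :=
  letI : Algebra k Y.functionField := (constants (f ≫ π)).toAlgebra
  ∀ U : X.Opens, FormsExtend (differential k Y.functionField) q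
    {O | ∃ x ∈ U, IsSmoothAt n π x ∧ O = localRing f x}
    {O | ∃ y : Y, f y ∈ U ∧ O = localRing (𝟙 Y) y}

end Pool.Agent.Y178.LF
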