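import Pool.Agent.Y178.LF.Retract

set_option autoImplicit false

open MvPolynomial

universe u

namespace Pool.Agent.Y178.LF

/-- The Dwork form `∏ x_b + μ ∑ x_b ^ (m + 1)`. -/
noncomputable def dwork {R : Type*} [CommRing R] (m : ℕ) (μ : R) : MvPolynomial (Fin (m + 1)) R :=
  ∏ b, X b + C μ * ∑ b, X b ^ (m + 1)

section ring

variable {R : Type*} [CommRing R] {m : ℕ} (μ : R)

lemma dwork_homogeneous : (dwork m μ).IsHomogeneous (m + 1) := by
  unfold dwork
  refine IsHomogeneous.add ?_ ?_
  · have h := IsHomogeneous.prod (Finset.univ : Finset (Fin (m + 1)))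
      (fun b => (X b : MvPolynomial (Fin (m + 1)) R)) (fun _ => 1) (fun b _ => isHomogeneous_X R b)
    simpa using h
  · have h1 : (∑ b : Fin (m + 1), (X b : MvPolynomial (Fin (m + 1)) R) ^ (m + 1)).IsHomogeneous
        (m + 1) := by
      refine IsHomogeneous.sum _ _ _ fun b _ => ?_
      have := (isHomogeneous_X R b).pow (m + 1)
      simpa using this
    have h2 := (isHomogeneous_C (Fin (m + 1)) μ).mul h1
    simpa using h2

lemma X_mul_pderiv_prod (b : Fin (m + 1)) :
    pderiv b (∏ j, (X j : MvPolynomial (Fin (m + 1)) R)) =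
      ∏ j ∈ Finset.univ.erase b, X j := by
  rw [← Finset.mul_prod_erase Finset.univ _ (Finset.mem_univ b), Derivation.leibniz,
    pderiv_X_self]
  have h : pderiv b (∏ j ∈ Finset.univ.erase b, (X j : MvPolynomial (Fin (m + 1)) R)) = 0 := by
    refine Finset.prod_induction (fun j => (X j : MvPolynomial (Fin (m + 1)) R))
      (fun q => pderiv b q = 0) ?_ ?_ ?_
    · intro x y hx hy
      rw [Derivation.leibniz, hx, hy, smul_zero, smul_zero, add_zero]
    · exact Derivation.map_one_eq_zero _
    · intro j hj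
      rw [pderiv_X, Pi.single_eq_of_ne (Finset.ne_of_mem_erase hj)]
  rw [h, smul_zero, zero_add, smul_eq_mul, mul_one]

lemma pderiv_dwork (b : Fin (m + 1)) : pderiv b (dwork m μ) =
    ∏ j ∈ Finset.univ.erase b, X j + C μ * (C ((m + 1 : ℕ) : R) * X b ^ m) := by
  unfold dwork
  rw [map_add, X_mul_pderiv_prod, Derivation.leibniz, pderiv_C, smul_zero, add_zero, smul_eq_mul,
    map_sum]
  congr 2
  rw [Finset.sum_eq_single b]
  · rw [Derivation.leibniz_pow, pderiv_X_self, Nat.add_sub_cancel, smul_eq_mul, mul_one,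
      nsmul_eq_mul]
    simp
  · intro j _ hj
    rw [Derivation.leibniz_pow, pderiv_X, Pi.single_eq_of_ne hj, smul_zero, smul_zero]
  · intro h; exact absurd (Finset.mem_univ b) h

lemma map_dwork {S : Type*} [CommRing S] (F : R →+* S) :
    map F (dwork m μ) = dwork m (F μ) := by
  simp [dwork, map_prod, map_sum]

lemma prod_X_pow (q : ℕ) : (∏ j, (X j : MvPolynomial (Fin (m + 1)) R)) ^ q =
    monomial (cst m q) 1 := by
  rw [← Finset.prod_pow, monomial_eq, C_1, one_mul, Finsupp.prod_fintype _ _ (fun _ => pow_zero _)]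
  rfl

end ring

section field

variable {k : Type u} [Field k] {m : ℕ}

lemma dwork_expand (p : ℕ) [Fact p.Prime] [CharP k p] (μ : k) :
    expand p (dwork m (μ ^ p)) = dwork m μ ^ p := by
  unfold dwork
  rw [add_pow_char, mul_pow, ← map_pow, sum_pow_char, map_add, map_mul, expand_C, map_prod,
    map_sum, ← Finset.prod_pow]
  congr 1
  · exact Finset.prod_congr rfl fun j _ => expand_X p j
  · congr 1
    refine Finset.sum_congr rfl fun j _ => ?_
    rw [map_pow, expand_X, ← pow_mul, ← pow_mul, mul_comm]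

/-- the isolated singularity -/
lemma dwork_isol (lam : k) (h0 : lam ≠ 0) (hn : ((m + 1 : ℕ) : k) = -1)
    (h1 : lam ^ (m + 1) ≠ 1) (l : Fin (m + 1)) :
    ∃ N : ℕ, (X l : Pol k m) ^ N ∈
      Ideal.span (Set.range fun b => pderiv b (dwork m lam : Pol k m)) := by
  set I := Ideal.span (Set.range fun b => pderiv b (dwork m lam : Pol k m)) with hI
  let π := Ideal.Quotient.mk I
  let P : Pol k m ⧸ I := ∏ j, π (X j)
  have h2 : ∀ b, π (C lam) * π (X b) ^ (m + 1) = P := by
    intro b
    have h3 : π (X b * pderiv b (dwork m lam : Pol k m)) = 0 := by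
      rw [Ideal.Quotient.eq_zero_iff_mem]
      exact Ideal.mul_mem_left _ _ (Ideal.subset_span ⟨b, rfl⟩)
    rw [pderiv_dwork, hn, mul_add, Finset.mul_prod_erase Finset.univ _ (Finset.mem_univ b)] at h3
    have h4 : ∏ j, (X j : Pol k m) + X b * (C lam * (C (-1) * X b ^ m)) =
        ∏ j, X j - C lam * X b ^ (m + 1) := by
      rw [C_neg, C_1]
      ring
    rw [h4, map_sub, map_mul, map_pow, map_prod] at h3
    exact (sub_eq_zero.1 h3).symm
  have h5 : P ^ (m + 1) = 0 := by
    have h6 : ∏ b : Fin (m + 1), (π (C lam) * π (X b) ^ (m + 1)) = P ^ (m + 1) := by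
      rw [Finset.prod_congr rfl fun b _ => h2 b, Finset.prod_const, Finset.card_univ,
        Fintype.card_fin]
    rw [Finset.prod_mul_distrib, Finset.prod_const, Finset.card_univ, Fintype.card_fin,
      Finset.prod_pow, ← map_pow, ← map_pow] at h6
    have h7 : π (C (lam ^ (m + 1) - 1)) * P ^ (m + 1) = 0 := by
      rw [map_sub, map_sub, sub_mul, C_1, map_one, one_mul]
      exact sub_eq_zero.2 h6
    have h8 : π (C (lam ^ (m + 1) - 1)⁻¹) * (π (C (lam ^ (m + 1) - 1)) * P ^ (m + 1)) = 0 := by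
      rw [h7, mul_zero]
    rwa [← mul_assoc, ← map_mul, ← C_mul, inv_mul_cancel₀ (sub_ne_zero.2 h1), C_1, map_one,
      one_mul] at h8
  refine ⟨(m + 1) * (m + 1), ?_⟩
  rw [← Ideal.Quotient.eq_zero_iff_mem]
  change π (X l ^ ((m + 1) * (m + 1))) = 0
  rw [pow_mul, map_pow, map_pow]
  have h9 : π (X l) ^ (m + 1) = π (C lam⁻¹) * P := by
    rw [← h2 l, ← mul_assoc, ← map_mul, ← C_mul, inv_mul_cancel₀ h0, C_1, map_one, one_mul]
  rw [h9, mul_pow, h5, mul_zero]

lemma dwork_pd (hm : 1 ≤ m) (lam : k) (l : Fin (m + 1)) :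
    pderiv l (dwork m lam : Pol k m) ≠ 0 := by
  intro h
  have h1 := congrArg (eval (Function.update (fun _ => (1 : k)) l 0)) h
  rw [pderiv_dwork, map_zero, map_add, map_mul, map_mul, map_pow, eval_X, Function.update_self,
    zero_pow (by omega), mul_zero, mul_zero, add_zero, map_prod] at h1
  rw [Finset.prod_congr rfl (g := fun _ => (1 : k)) (fun j hj => by
    rw [eval_X, Function.update_of_ne (Finset.ne_of_mem_erase hj)])] at h1
  rw [Finset.prod_const_one] at h1
  exact one_ne_zero h1

/-- The coefficient polynomial. -/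
noncomputable def coefPoly (k : Type u) [Field k] (m p : ℕ) : Polynomial k :=
  coeff (cst m (p - 1)) (dwork m (Polynomial.X : Polynomial k) ^ (p - 1))

lemma eval_coefPoly (p : ℕ) (μ : k) :
    (coefPoly k m p).eval μ = coeff (cst m (p - 1)) ((dwork m μ : Pol k m) ^ (p - 1)) := by
  have h : (dwork m μ : Pol k m) ^ (p - 1) = map (Polynomial.evalRingHom μ)
      (dwork m (Polynomial.X : Polynomial k) ^ (p - 1)) := by
    rw [map_pow, map_dwork]
    simp
  rw [h, coeff_map]
  rfl

lemma coefPoly_ne_zero (p : ℕ) : coefPoly k m p ≠ 0 := by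
  intro h
  have h1 := eval_coefPoly (m := m) p (0 : k)
  rw [h, Polynomial.eval_zero] at h1
  have h2 : (dwork m (0 : k) : Pol k m) = ∏ j, X j := by simp [dwork]
  rw [h2, prod_X_pow, coeff_monomial, if_pos rfl] at h1
  exact zero_ne_one h1

/-- Good forms exist over every infinite field of characteristic `p`. -/
theorem exists_good [Infinite k] (p i : ℕ) [hp : Fact p.Prime] [CharP k p] (hpi : p * i = m + 2)
    (hm : 1 ≤ m) : ∃ f g : Pol k m, Good p i f g := by
  have hn : ((m + 1 : ℕ) : k) = -1 := by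
    have h1 : ((p * i : ℕ) : k) = 0 := by
      rw [Nat.cast_mul, CharP.cast_eq_zero, zero_mul]
    rw [hpi] at h1
    have h2 : ((m + 1 : ℕ) : k) + 1 = 0 := by
      rw [← h1]
      push_cast
      ring
    exact eq_neg_of_add_eq_zero_left h2
  have hne : (Polynomial.X : Polynomial k) * ((Polynomial.X ^ (p * (m + 1)) - 1) *
      coefPoly k m p) ≠ 0 := by
    refine mul_ne_zero Polynomial.X_ne_zero (mul_ne_zero ?_ (coefPoly_ne_zero p))
    have hpos : 0 < p * (m + 1) := Nat.mul_pos hp.out.pos (Nat.succ_pos m)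
    have h := Polynomial.X_pow_sub_C_ne_zero hpos (1 : k)
    rwa [Polynomial.C_1] at h
  obtain ⟨μ, hμ⟩ : ∃ μ : k, ((Polynomial.X : Polynomial k) *
      ((Polynomial.X ^ (p * (m + 1)) - 1) * coefPoly k m p)).eval μ ≠ 0 := by
    by_contra hcon
    push Not at hcon
    exact hne (Polynomial.funext (fun r => by rw [hcon r, Polynomial.eval_zero]))
  rw [Polynomial.eval_mul, Polynomial.eval_mul, Polynomial.eval_X, Polynomial.eval_sub,
    Polynomial.eval_pow, Polynomial.eval_X, Polynomial.eval_one, eval_coefPoly] at hμ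
  have hμ0 : μ ≠ 0 := left_ne_zero_of_mul hμ
  have hμ1 := left_ne_zero_of_mul (right_ne_zero_of_mul hμ)
  have hμ2 := right_ne_zero_of_mul (right_ne_zero_of_mul hμ)
  refine ⟨dwork m (μ ^ p), dwork m μ, ?_⟩
  exact
    { prime := hp.out
      pi := hpi
      hm := hm
      hf := dwork_homogeneous _
      hg := dwork_homogeneous _
      frob := dwork_expand p μ
      isol := dwork_isol (μ ^ p) (pow_ne_zero p hμ0) hn (by
        rw [← pow_mul]
        exact sub_ne_zero.1 hμ1)
      coef := hμ2
      pd := dwork_pd hm _ }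

end field

end Pool.Agent.Y178.LF
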