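import Mathlib

set_option autoImplicit false

universe u

namespace Pool.Agent.Y178.LF

set_option synthInstance.maxHeartbeats 20000 in
set_option backward.isDefEq.respectTransparency false in
/-- The variables of a submersive presentation which are not used by the relations give étale
coordinates. -/
theorem etale_of_submersive {R S : Type u} [CommRing R] [CommRing S] [Algebra R S]
    {ι σ τ : Type} [Finite ι] [Finite σ] [Finite τ] (P : Algebra.SubmersivePresentation R S ι σ)
    (e₀ : σ ⊕ τ ≃ ι) (he₀ : ∀ i, e₀ (Sum.inl i) = P.map i) :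
    ((MvPolynomial.aeval (fun j : τ => P.val (e₀ (Sum.inr j))) :
      MvPolynomial τ R →ₐ[R] S) : MvPolynomial τ R →+* S).Etale := by
  classical
  let _ := Fintype.ofFinite σ
  let e : MvPolynomial σ (MvPolynomial τ R) ≃ₐ[R] P.Ring :=
    (MvPolynomial.sumAlgEquiv R _ _).symm.trans (MvPolynomial.renameEquiv _ e₀)
  let φ := e.toAlgHom.comp (IsScalarTower.toAlgHom _ (MvPolynomial τ R) _)
  let _ : Algebra (MvPolynomial τ R) P.Ring := φ.toRingHom.toAlgebra
  let _ : Algebra (MvPolynomial τ R) S := ((algebraMap P.Ring S).comp φ.toRingHom).toAlgebra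
  have : IsScalarTower (MvPolynomial τ R) P.Ring S := IsScalarTower.of_algebraMap_eq' rfl
  have : IsScalarTower R (MvPolynomial τ R) P.Ring :=
    IsScalarTower.of_algebraMap_eq' φ.comp_algebraMap.symm
  have : IsScalarTower R (MvPolynomial τ R) S := .to₁₂₄ _ _ P.Ring _
  have H : (MvPolynomial.aeval fun x ↦ (algebraMap P.Ring S) (e (MvPolynomial.X x))).toRingHom =
      (algebraMap P.Ring S).comp e.toRingHom := by
    ext
    · simp [e, IsScalarTower.algebraMap_eq R (MvPolynomial τ R) S]
    · simp [e, @RingHom.algebraMap_toAlgebra (MvPolynomial τ R) S, φ]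
    · simp [e]
  let P' : Algebra.PreSubmersivePresentation (MvPolynomial τ R) S σ σ :=
  { toGenerators := .ofSurjective (algebraMap _ _ <| e <| .X ·) <| by
      convert! P.algebraMap_surjective.comp e.surjective
      exact congr($H)
    relation := e.symm ∘ P.relation
    span_range_relation_eq_ker := by
      rw [Set.range_comp, ← AlgEquiv.coe_ringEquiv e.symm, AlgEquiv.symm_toRingEquiv,
        ← Ideal.map_span, P.span_range_relation_eq_ker, Ideal.map_symm]
      exact congr(RingHom.ker $H).symm
    map := _
    map_inj := Function.injective_id }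
  let P' : Algebra.SubmersivePresentation (MvPolynomial τ R) S σ σ :=
  { __ := P'
    jacobian_isUnit := by
      convert! P.jacobian_isUnit using 1
      simp_rw [Algebra.PreSubmersivePresentation.jacobian_eq_jacobiMatrix_det, RingHom.map_det]
      congr 1
      ext i j
      trans algebraMap P.Ring S (e ((e.symm (P.relation j)).pderiv i))
      · simpa [Algebra.PreSubmersivePresentation.jacobiMatrix_apply, P',
          Algebra.Generators.ofSurjective] using congr($H _)
      suffices e ((e.symm (P.relation j)).pderiv i) = (P.relation j).pderiv (P.map i) by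
        simp [Algebra.PreSubmersivePresentation.jacobiMatrix_apply, this]
      simp [e, ← MvPolynomial.pderiv_rename e₀.injective, show e₀ (Sum.inl i) = P.map i from he₀ i] }
  have h1 : (algebraMap (MvPolynomial τ R) S).Etale :=
    RingHom.etale_algebraMap.mpr (Algebra.Etale.iff_isStandardSmoothOfRelativeDimension_zero.mpr
      ⟨_, _, _, inferInstance, P', by simp [Algebra.Presentation.dimension]⟩)
  have h2 : ((MvPolynomial.aeval (fun j : τ => P.val (e₀ (Sum.inr j))) :
      MvPolynomial τ R →ₐ[R] S) : MvPolynomial τ R →+* S) = algebraMap (MvPolynomial τ R) S := by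
    apply MvPolynomial.ringHom_ext
    · intro r
      rw [← MvPolynomial.algebraMap_eq]
      change MvPolynomial.aeval _ (algebraMap R (MvPolynomial τ R) r) = _
      rw [AlgHom.commutes, ← IsScalarTower.algebraMap_apply R (MvPolynomial τ R) S]
    · intro j
      change MvPolynomial.aeval _ (MvPolynomial.X j) = _
      rw [MvPolynomial.aeval_X]
      change _ = algebraMap P.Ring S (φ (MvPolynomial.X j))
      simp [φ, e]
  rw [h2]
  exact h1

end Pool.Agent.Y178.LF
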