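import Pool.Agent.Y178.LF.Etale

set_option autoImplicit false

universe u

namespace Pool.Agent.Y178.LF

open MvPolynomial

/-- The reindexing which uses all the variables but `a`. -/
def e0 {τ : Type} [DecidableEq τ] (a : Option τ) : (Unit ⊕ Unit) ⊕ τ ≃ Unit ⊕ Option τ where
  toFun := Sum.elim (Sum.elim (fun _ => Sum.inl ()) (fun _ => Sum.inr a))
    (fun b => Sum.inr (Equiv.swap none a (some b)))
  invFun := Sum.elim (fun _ => Sum.inl (Sum.inl ()))
    (fun c => match Equiv.swap none a c with
      | none => Sum.inl (Sum.inr ())
      | some b => Sum.inr b)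
  left_inv := by
    rintro ((⟨⟩ | ⟨⟩) | b)
    · rfl
    · simp
    · simp
  right_inv := by
    rintro (⟨⟩ | c)
    · rfl
    · simp only [Sum.elim_inr]
      rcases h : Equiv.swap none a c with _ | b
      · have : c = a := by
          have h1 := congrArg (Equiv.swap none a) h
          rwa [Equiv.swap_apply_self, Equiv.swap_apply_left] at h1
        simp [this]
      · have : c = Equiv.swap none a (some b) := by
          have h1 := congrArg (Equiv.swap none a) h
          rwa [Equiv.swap_apply_self] at h1
        simp [this]

variable {k C : Type u} [Field k] [CommRing C] [Algebra k C] {τ : Type}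

/-- The presentation by one relation. -/
noncomputable def hyper (v : Option τ → C)
    (hv : Function.Surjective (aeval v : MvPolynomial (Option τ) k →ₐ[k] C))
    (F : MvPolynomial (Option τ) k)
    (hF : RingHom.ker (aeval v : MvPolynomial (Option τ) k →ₐ[k] C) = Ideal.span {F})
    (a : Option τ) : Algebra.PreSubmersivePresentation k C (Option τ) Unit where
  toGenerators := .ofSurjective v hv
  relation := fun _ => F
  span_range_relation_eq_ker := by
    rw [Set.range_const, ← hF]
    rfl
  map := fun _ => a
  map_inj := Function.injective_of_subsingleton _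

/-- Étale coordinates on a localization of a hypersurface. -/
theorem etale_of_hyper [Finite τ] [DecidableEq τ] (v : Option τ → C)
    (hv : Function.Surjective (aeval v : MvPolynomial (Option τ) k →ₐ[k] C))
    (F : MvPolynomial (Option τ) k)
    (hF : RingHom.ker (aeval v : MvPolynomial (Option τ) k →ₐ[k] C) = Ideal.span {F})
    (a : Option τ) (h : C) (D : Type u) [CommRing D] [Algebra C D] [Algebra k D]
    [IsScalarTower k C D] [IsLocalization.Away h D]
    (hu : IsUnit (algebraMap C D (aeval v (pderiv a F)))) :
    ((aeval (fun b : τ => algebraMap C D (v (Equiv.swap none a (some b)))) :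
      MvPolynomial τ k →ₐ[k] D) : MvPolynomial τ k →+* D).Etale := by
  classical
  let P := hyper v hv F hF a
  let Q := Algebra.SubmersivePresentation.localizationAway D h
  have hPj : P.jacobian = aeval v (pderiv a F) := by
    rw [Algebra.PreSubmersivePresentation.jacobian_eq_jacobiMatrix_det, Matrix.det_unique,
      Algebra.PreSubmersivePresentation.jacobiMatrix_apply]
    rfl
  let T0 := Q.toPreSubmersivePresentation.comp P
  have hj : IsUnit T0.jacobian := by
    rw [Algebra.PreSubmersivePresentation.comp_jacobian_eq_jacobian_smul_jacobian, hPj,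
      Algebra.smul_def]
    exact hu.mul Q.jacobian_isUnit
  let T : Algebra.SubmersivePresentation k D (Unit ⊕ Option τ) (Unit ⊕ Unit) :=
    { __ := T0
      jacobian_isUnit := hj }
  have h1 := etale_of_submersive T (e0 a) (by
    rintro (⟨⟩ | ⟨⟩)
    · rfl
    · rfl)
  have h2 : (fun j : τ => T.val ((e0 a) (Sum.inr j))) =
      fun b : τ => algebraMap C D (v (Equiv.swap none a (some b))) := by
    funext j
    rfl
  rwa [h2] at h1

end Pool.Agent.Y178.LF
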