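import Pool.Agent.Y178.LF.Res
import Pool.Agent.Helper165.Geom3

set_option autoImplicit false

open MvPolynomial

universe u

namespace Pool.Agent.Y178.LF

open Pool.Agent.Helper165 AlgebraicGeometry CategoryTheory TopologicalSpace

/-- A scheme with étale coordinates around each point is smooth. -/
lemma smooth_of_snc {k : Type u} [Field k] {Y : Scheme.{u}} {n : ℕ}
    (π : Y ⟶ Spec (CommRingCat.of k)) (E : Set Y) (h : IsSNC n π E) :
    SmoothOfRelativeDimension n π := by
  choose B j z I hj hy hjπ hz hE using h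
  have hcov : ⨆ y, (j y).opensRange = ⊤ := by
    rw [eq_top_iff]
    intro y _
    rw [Opens.mem_iSup]
    exact ⟨y, hy y⟩
  rw [IsZariskiLocalAtSource.iff_of_iSup_eq_top (P := @SmoothOfRelativeDimension n)
    (fun y => (j y).opensRange) hcov]
  intro y
  rw [← MorphismProperty.cancel_left_of_respectsIso (P := @SmoothOfRelativeDimension n)
    (j y).isoOpensRange.hom]
  rw [← Category.assoc, Scheme.Hom.isoOpensRange_hom_ι, hjπ,
    HasRingHomProperty.Spec_iff (P := @SmoothOfRelativeDimension n)]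
  apply RingHom.locally_of RingHom.isStandardSmoothOfRelativeDimension_respectsIso
  have h1 : RingHom.IsStandardSmoothOfRelativeDimension n
      (MvPolynomial.C : k →+* MvPolynomial (Fin n) k) := by
    have h2 := isStandardSmooth_of_bijective (R := k) (S := MvPolynomial (Fin n) k)
      (ι := Fin n) X (by rw [aeval_X_left]; exact Function.bijective_id)
    rw [Nat.card_eq_fintype_card, Fintype.card_fin] at h2
    exact (RingHom.isStandardSmoothOfRelativeDimension_algebraMap n).2 h2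
  have h3 : RingHom.IsStandardSmoothOfRelativeDimension 0 (z y) := by
    have h4 := hz y
    algebraize [z y]
    have h5 : Algebra.Etale (MvPolynomial (Fin n) k) (B y) := h4
    exact Algebra.Etale.iff_isStandardSmoothOfRelativeDimension_zero.1 h5
  have h6 := h3.comp h1
  rw [zero_add] at h6
  exact h6

section

variable {k : Type u} [Field k] {m : ℕ} {p i : ℕ} {f g : Pol k m} (H : Good p i f g)

lemma isIso_of_not_overO [IsDomain (RR p f)] (hx : ∀ b, RR.x p f b ≠ 0) (y : blow (JJ p i f))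
    (hy : y ∉ overO p i f) :
    ∃ U : (Spec (CommRingCat.of (RR p f))).Opens, blowMap (JJ p i f) y ∈ U ∧
      IsIso (blowMap (JJ p i f) ∣_ U) := by
  have : ∃ b, RR.x p f b ∉ PrimeSpectrum.asIdeal (R := RR p f) (blowMap (JJ p i f) y) := by
    by_contra hcon
    push Not at hcon
    exact hy hcon
  obtain ⟨b, hb⟩ := this
  refine ⟨(PrimeSpectrum.basicOpen (RR.x p f b ^ (i + 1)) :
    (Spec (CommRingCat.of (RR p f))).Opens), ?_,
    isIso_blowMap_restrict (JJ p i f) _ (xpow_mem b) (pow_ne_zero _ (hx b))⟩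
  change RR.x p f b ^ (i + 1) ∉ PrimeSpectrum.asIdeal (R := RR p f) (blowMap (JJ p i f) y)
  intro h
  exact hb ((PrimeSpectrum.isPrime (R := RR p f) (blowMap (JJ p i f) y)).mem_of_pow_mem _ h)

include H

lemma Good.overO_iff (y : blow (JJ p i f)) : y ∈ overO p i f ↔
    PrimeSpectrum.asIdeal (R := RR p f) (blowMap (JJ p i f) y) = H.orig := by
  constructor
  · intro h
    have := PrimeSpectrum.isPrime (R := RR p f) (blowMap (JJ p i f) y)
    exact H.eq_orig _ h
  · intro h b
    rw [h]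
    exact H.x_mem_orig b

/-- The evaluation of the chart `D_+(x_0 t)` at a point. -/
lemma Good.exists_point (v : Option (Fin (m + 1)) → W (JJ p i f) _ (xt_mem (0 : Fin (m + 1))))
    (hv : Function.Surjective (aeval v : MvPolynomial (Option (Fin (m + 1))) k →ₐ[k] _))
    (hker : RingHom.ker (aeval v : MvPolynomial (Option (Fin (m + 1))) k →ₐ[k] _) =
        Ideal.span {relOne (dehom 0 f)})
    (hA : ∀ r, W.ofA (JJ p i f) _ (xt_mem 0) r = aeval v (rename some (H.chi 0 r)))
    (c : Fin (m + 1) → k) (hc : c 0 = 0) :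
    ∃ ε : W (JJ p i f) _ (xt_mem (0 : Fin (m + 1))) →+* k,
      (∀ b, ε (v (some b)) = c b) ∧
      ∀ P : Spec (CommRingCat.of (W (JJ p i f) _ (xt_mem (0 : Fin (m + 1))))),
        PrimeSpectrum.asIdeal (R := W (JJ p i f) _ (xt_mem (0 : Fin (m + 1)))) P = RingHom.ker ε →
        wChart (JJ p i f) _ (xt_mem 0) P ∈ overO p i f := by
  let e : MvPolynomial (Option (Fin (m + 1))) k →+* k :=
    (eval c : Pol k m →+* k).comp (evalNone (dehom 0 f) : _ →+* Pol k m)
  have he : RingHom.ker (aeval v : MvPolynomial (Option (Fin (m + 1))) k →ₐ[k] _).toRingHom ≤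
      RingHom.ker e := by
    have h1 : RingHom.ker (aeval v : MvPolynomial (Option (Fin (m + 1))) k →ₐ[k] _).toRingHom =
      Ideal.span {relOne (dehom 0 f)} := hker
    rw [h1, ← ker_evalNone]
    intro q hq
    rw [RingHom.mem_ker] at hq ⊢
    change eval c (evalNone (dehom 0 f) q) = 0
    rw [hq, map_zero]
  let ε := RingHom.liftOfSurjective (aeval v : MvPolynomial (Option (Fin (m + 1))) k →ₐ[k] _).toRingHom hv ⟨e, he⟩
  have hε : ∀ q, ε (aeval v q) = e q := fun q =>
    RingHom.liftOfRightInverse_comp_apply _ _ _ ⟨e, he⟩ q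
  refine ⟨ε, ?_, ?_⟩
  · intro b
    have h1 := hε (X (some b))
    rw [aeval_X] at h1
    rw [h1]
    change eval c (evalNone (dehom 0 f) (X (some b))) = _
    rw [evalNone_some, eval_X]
  · intro P hP
    rw [wChart_mem_overO, hP]
    intro b
    rw [RingHom.mem_ker, hA, hε]
    change eval c (evalNone (dehom 0 f) (rename some (H.chi 0 (RR.x p f b)))) = 0
    rw [evalNone_rename, H.chi_x, map_mul, map_mul, map_pow, eval_X, hc, zero_pow H.pos.ne',
      zero_mul, zero_mul]

/-- There are two points over the origin. -/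
lemma Good.two_points : ∃ y₁ y₂ : blow (JJ p i f), y₁ ≠ y₂ ∧ y₁ ∈ overO p i f ∧
    y₂ ∈ overO p i f := by
  obtain ⟨v, hv, hker, hA⟩ := H.chartOne 0
  have hlast : Fin.last m ≠ 0 := by
    have := H.hm
    intro h
    have h1 := congrArg Fin.val h
    simp at h1
    omega
  obtain ⟨ε₁, h1, h1'⟩ := H.exists_point v hv hker hA (fun _ => 0) rfl
  obtain ⟨ε₂, h2, h2'⟩ := H.exists_point v hv hker hA (Pi.single (Fin.last m) 1)
    (Pi.single_eq_of_ne (Ne.symm hlast) _)
  let P₁ : Spec (CommRingCat.of (W (JJ p i f) _ (xt_mem (0 : Fin (m + 1))))) :=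
    (⟨RingHom.ker ε₁, RingHom.ker_isPrime ε₁⟩ : PrimeSpectrum _)
  let P₂ : Spec (CommRingCat.of (W (JJ p i f) _ (xt_mem (0 : Fin (m + 1))))) :=
    (⟨RingHom.ker ε₂, RingHom.ker_isPrime ε₂⟩ : PrimeSpectrum _)
  refine ⟨wChart (JJ p i f) _ (xt_mem 0) P₁, wChart (JJ p i f) _ (xt_mem 0) P₂, ?_, h1' P₁ rfl,
    h2' P₂ rfl⟩
  intro h
  have h3 : P₁ = P₂ := (wChart (JJ p i f) _ (xt_mem 0)).isOpenEmbedding.injective h
  have h4 : RingHom.ker ε₁ = RingHom.ker ε₂ :=
    congrArg (PrimeSpectrum.asIdeal (R := W (JJ p i f) _ (xt_mem (0 : Fin (m + 1))))) h3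
  have h5 : v (some (Fin.last m)) ∈ RingHom.ker ε₁ := by
    rw [RingHom.mem_ker, h1]
  rw [h4, RingHom.mem_ker, h2, Pi.single_eq_same] at h5
  exact one_ne_zero h5

lemma Good.blow_injOn (U : (Spec (CommRingCat.of (RR p f))).Opens)
    [hU : IsIso (blowMap (JJ p i f) ∣_ U)] (y₁ y₂ : blow (JJ p i f))
    (h1 : blowMap (JJ p i f) y₁ ∈ U) (h : blowMap (JJ p i f) y₁ = blowMap (JJ p i f) y₂) :
    y₁ = y₂ := by
  have h2 : blowMap (JJ p i f) y₂ ∈ U := by rw [← h]; exact h1
  let z₁ : (blowMap (JJ p i f) ⁻¹ᵁ U).toScheme := ⟨y₁, h1⟩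
  let z₂ : (blowMap (JJ p i f) ⁻¹ᵁ U).toScheme := ⟨y₂, h2⟩
  have h3 : (blowMap (JJ p i f) ∣_ U) z₁ = (blowMap (JJ p i f) ∣_ U) z₂ := by
    apply Subtype.ext
    rw [morphismRestrict_base_coe, morphismRestrict_base_coe]
    exact h
  have h4 : z₁ = z₂ := (blowMap (JJ p i f) ∣_ U).isOpenEmbedding.injective h3
  exact congrArg Subtype.val h4

/-- The exceptional locus of the blow-up is the fibre over the origin. -/
theorem Good.exceptionalLocus_eq : exceptionalLocus (blowMap (JJ p i f)) = overO p i f := by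
  have hd := H.isDomain
  ext y
  constructor
  · intro h
    by_contra hy
    exact h (isIso_of_not_overO H.x_ne_zero y hy)
  · rintro hy ⟨U, hU, hiso⟩
    obtain ⟨y₁, y₂, hne, h1, h2⟩ := H.two_points
    rw [H.overO_iff] at hy h1 h2
    have e1 : blowMap (JJ p i f) y₁ = blowMap (JJ p i f) y :=
      PrimeSpectrum.ext (h1.trans hy.symm)
    have e2 : blowMap (JJ p i f) y₂ = blowMap (JJ p i f) y :=
      PrimeSpectrum.ext (h2.trans hy.symm)
    exact hne (H.blow_injOn U y₁ y₂ (by rw [e1]; exact hU) (e1.trans e2.symm))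

lemma Good.blow_isIntegral : IsIntegral (blow (JJ p i f)) := by
  have hd := H.isDomain
  exact blow_integral (JJ p i f) _ (xpow_mem 0) (pow_ne_zero _ (H.x_ne_zero 0))

lemma Good.blow_birational : IsBirational (blowMap (JJ p i f)) := by
  have hd := H.isDomain
  have h1 : IsIntegral (Spec (CommRingCat.of (RR p f))) := inferInstance
  have h2 := H.blow_isIntegral (i := i)
  have hx0 : RR.x p f 0 ^ (i + 1) ≠ 0 := pow_ne_zero _ (H.x_ne_zero 0)
  let U : (Spec (CommRingCat.of (RR p f))).Opens :=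
    (PrimeSpectrum.basicOpen (RR.x p f 0 ^ (i + 1)) : (Spec (CommRingCat.of (RR p f))).Opens)
  have hne : (U : Set (Spec (CommRingCat.of (RR p f)))).Nonempty := by
    refine ⟨(⊥ : PrimeSpectrum (RR p f)), ?_⟩
    change RR.x p f 0 ^ (i + 1) ∉ (⊥ : PrimeSpectrum (RR p f)).asIdeal
    intro h
    exact hx0 h
  have hiso : IsIso (blowMap (JJ p i f) ∣_ U) :=
    isIso_blowMap_restrict (JJ p i f) _ (xpow_mem 0) hx0
  refine ⟨U, U.isOpen.dense hne, ?_, hiso⟩
  apply (blowMap (JJ p i f) ⁻¹ᵁ U).isOpen.dense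
  obtain ⟨z, hz⟩ := hne
  obtain ⟨w, -⟩ := (blowMap (JJ p i f) ∣_ U).surjective ⟨z, hz⟩
  exact ⟨w.1, w.2⟩

/-- The blow-up of `J` is a log resolution. -/
theorem Good.isLogResolution :
    IsLogResolution (m + 1) (blowMap (JJ p i f)) (xStr p f) where
  smooth := smooth_of_snc _ _ H.snc
  proper := blowMap_isProper _ (JJ_fg p i f)
  birational := H.blow_birational
  snc := by
    rw [H.exceptionalLocus_eq]
    exact H.snc

end

end Pool.Agent.Y178.LF
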