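import Mathlib

set_option autoImplicit false

open MvPolynomial

namespace Pool.Agent.Y178.LF

variable {k : Type*} [Field k] {σ : Type*}

/-- The operator `∑ c_δ y^δ ↦ ∑_α c_{qα+β} x^α` on polynomials. -/
noncomputable def extract (q : ℕ) (hq : 0 < q) (β : σ →₀ ℕ) : MvPolynomial σ k →+ MvPolynomial σ k where
  toFun a := AddMonoidAlgebra.ofCoeff (Finsupp.comapDomain (fun α : σ →₀ ℕ => q • α + β)
    (AddMonoidAlgebra.coeff a) (fun x _ y _ h => by
      have h1 : q • x = q • y := add_right_cancel h
      ext i
      have h2 := DFunLike.congr_fun h1 i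
      simp only [Finsupp.smul_apply, smul_eq_mul] at h2
      exact Nat.eq_of_mul_eq_mul_left hq h2))
  map_zero' := by
    ext α
    rfl
  map_add' a b := by
    ext α
    rfl

lemma coeff_extract (q : ℕ) (hq : 0 < q) (β : σ →₀ ℕ) (a : MvPolynomial σ k) (α : σ →₀ ℕ) :
    coeff α (extract q hq β a) = coeff (q • α + β) a := rfl

lemma extract_C_mul (q : ℕ) (hq : 0 < q) (β : σ →₀ ℕ) (c : k) (a : MvPolynomial σ k) :
    extract q hq β (C c * a) = C c * extract q hq β a := by
  ext α
  rw [coeff_extract, coeff_C_mul, coeff_C_mul, coeff_extract]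

lemma extract_monomial_mul (q : ℕ) (hq : 0 < q) (β : σ →₀ ℕ) (hβ : ∀ i, β i < q) (γ : σ →₀ ℕ)
    (c : k) (a : MvPolynomial σ k) :
    extract q hq β (monomial (q • γ) c * a) = monomial γ c * extract q hq β a := by
  classical
  ext α
  rw [coeff_extract, coeff_monomial_mul', coeff_monomial_mul', coeff_extract]
  by_cases h : γ ≤ α
  · have h1 : q • γ ≤ q • α + β := by
      intro i
      have := h i
      simp only [Finsupp.smul_apply, Finsupp.add_apply, smul_eq_mul]
      nlinarith
    rw [if_pos h1, if_pos h]
    congr 2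
    ext i
    simp only [Finsupp.tsub_apply, Finsupp.smul_apply, Finsupp.add_apply, smul_eq_mul]
    have := h i
    have h2 : q * γ i ≤ q * α i := Nat.mul_le_mul_left q this
    rw [Nat.mul_sub]
    omega
  · have h1 : ¬ q • γ ≤ q • α + β := by
      intro h2
      apply h
      intro i
      have h3 := h2 i
      simp only [Finsupp.smul_apply, Finsupp.add_apply, smul_eq_mul] at h3
      by_contra h4
      push Not at h4
      have h5 : α i + 1 ≤ γ i := h4
      have h6 : q * (α i + 1) ≤ q * γ i := Nat.mul_le_mul_left q h5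
      have := hβ i
      rw [Nat.mul_add] at h6
      omega
    rw [if_neg h1, if_neg h]

lemma extract_expand_mul (q : ℕ) (hq : 0 < q) (β : σ →₀ ℕ) (hβ : ∀ i, β i < q)
    (f a : MvPolynomial σ k) :
    extract q hq β (expand q f * a) = f * extract q hq β a := by
  induction f using MvPolynomial.induction_on' with
  | monomial γ c =>
    have : expand q (monomial γ c) = monomial (q • γ) c := expand_monomial q γ c
    rw [this, extract_monomial_mul q hq β hβ]
  | add f g hf hg =>
    rw [map_add, add_mul, map_add, hf, hg, add_mul]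

end Pool.Agent.Y178.LF
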