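import Pool.Agent.Helper165.Forms
import Pool.Agent.Helper165.NonZero

set_option autoImplicit false

open KaehlerDifferential MvPolynomial

namespace Pool.Agent.Y178.LF

open Pool.Agent.Helper165

/-- If `K` is the rational function field `k(t_1, …, t_n)` then the `dt_i` are a basis of
`Ω[K⁄k]`. -/
lemma exists_basis {k K : Type*} [Field k] [Field K] [Algebra k K] {n : ℕ} (t : Fin n → K)
    (hind : AlgebraicIndependent k t)
    (hfrac : ∀ φ : K, ∃ a ∈ Algebra.adjoin k (Set.range t), ∃ s ∈ Algebra.adjoin k (Set.range t),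
      s ≠ 0 ∧ φ = a / s) :
    ∃ b : Module.Basis (Fin n) K (Ω[K⁄k]), ∀ i, b i = D k K (t i) := by
  classical
  let F : MvPolynomial (Fin n) k →ₐ[k] K := aeval t
  have hinj : Function.Injective F := hind
  let _ : Algebra (MvPolynomial (Fin n) k) K := F.toRingHom.toAlgebra
  have hFA : ∀ q, algebraMap (MvPolynomial (Fin n) k) K q = F q := fun q => rfl
  have : IsScalarTower k (MvPolynomial (Fin n) k) K := by
    apply IsScalarTower.of_algebraMap_eq
    intro c
    rw [hFA]
    exact (F.commutes c).symm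
  have hadj : ∀ a ∈ Algebra.adjoin k (Set.range t), ∃ q, F q = a := by
    intro a ha
    rw [Algebra.adjoin_range_eq_range_aeval] at ha
    exact ha
  have : IsFractionRing (MvPolynomial (Fin n) k) K := by
    have hinj' : Function.Injective (algebraMap (MvPolynomial (Fin n) k) K) := hinj
    refine ⟨?_, ?_, ?_⟩
    · rintro ⟨y, hy⟩
      rw [hFA]
      apply IsUnit.mk0
      intro h0
      exact nonZeroDivisors.ne_zero hy (hinj (by rw [h0, map_zero]))
    · intro φ
      obtain ⟨a, ha, s, hs, hs0, rfl⟩ := hfrac φ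
      obtain ⟨q, rfl⟩ := hadj a ha
      obtain ⟨r, rfl⟩ := hadj s hs
      refine ⟨⟨q, ⟨r, ?_⟩⟩, ?_⟩
      · rw [mem_nonZeroDivisors_iff_ne_zero]
        rintro rfl
        exact hs0 (map_zero _)
      · simp only [hFA]
        rw [div_mul_cancel₀ _ hs0]
    · intro x y hxy
      refine ⟨1, ?_⟩
      rw [hinj' hxy]
  let b : Module.Basis (Fin n) K (Ω[K⁄k]) :=
    (mvPolynomialBasis k (Fin n)).ofIsLocalizedModule K
      (nonZeroDivisors (MvPolynomial (Fin n) k)) (KaehlerDifferential.map k k
        (MvPolynomial (Fin n) k) K)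
  refine ⟨b, fun i => ?_⟩
  simp only [b, Module.Basis.ofIsLocalizedModule_apply, mvPolynomialBasis_apply,
    KaehlerDifferential.map_D, hFA]
  simp [F]

/-- A form `c dt_1 ∧ ⋯ ∧ dt_m` in `m` of the `m + 1` coordinates `t_0, …, t_m` which is regular
on a localization `O` of `k[t_0, …, t_m]` has its coefficient in `O`. -/
theorem coeff_mem_of_regular {k K : Type*} [Field k] [Field K] [Algebra k K] {m : ℕ}
    (O : Subring K) (t : Fin (m + 1) → K) (hind : AlgebraicIndependent k t)
    (hfrac : ∀ φ : K, ∃ a ∈ Algebra.adjoin k (Set.range t), ∃ s ∈ Algebra.adjoin k (Set.range t),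
      s ≠ 0 ∧ φ = a / s)
    (hk : ∀ c : k, algebraMap k K c ∈ O) (ht : ∀ i, t i ∈ O)
    (hO : ∀ φ ∈ O, ∃ a ∈ Algebra.adjoin k (Set.range t), ∃ s ∈ Algebra.adjoin k (Set.range t),
      s ≠ 0 ∧ s⁻¹ ∈ O ∧ φ = a / s) (c : K)
    (hc : c • exteriorPower.ιMulti K m (fun a : Fin m => D k K (t a.succ)) ∈
      regularForms (differential k K) m (O : Set K)) : c ∈ O := by
  classical
  obtain ⟨b, hb⟩ := exists_basis t hind hfrac
  let pr : Ω[K⁄k] →ₗ[K] (Fin m → K) :=
    LinearMap.pi (fun j : Fin m => b.coord j.succ)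
  have hpr : ∀ w j, pr w j = b.coord j.succ w := fun w j => rfl
  let L : Ω[K⁄k] [⋀^Fin m]→ₗ[K] K :=
    (Matrix.detRowAlternating (R := K) (n := Fin m)).compLinearMap pr
  let Λ : ⋀[K]^m (Ω[K⁄k]) →ₗ[K] K := exteriorPower.alternatingMapLinearEquiv L
  have hΛ : ∀ v : Fin m → Ω[K⁄k], Λ (exteriorPower.ιMulti K m v) =
      Matrix.det (Matrix.of fun a j => b.coord j.succ (v a)) := by
    intro v
    change exteriorPower.alternatingMapLinearEquiv L (exteriorPower.ιMulti K m v) = _
    rw [exteriorPower.alternatingMapLinearEquiv_apply_ιMulti]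
    rfl
  have hcoord : ∀ v ∈ O, ∀ j, b.coord j (D k K v) ∈ O := by
    intro v hv j
    obtain ⟨e, he, he'⟩ := D_mem O t hk ht hO v hv
    rw [he']
    have : ∑ j, e j • D k K (t j) = ∑ j, e j • b j := by
      refine Finset.sum_congr rfl fun j _ => ?_
      rw [hb]
    rw [this, map_sum]
    have h2 : ∑ x, (b.coord j) (e x • b x) = e j := by
      rw [Finset.sum_eq_single j]
      · rw [map_smul, Module.Basis.coord_apply, Module.Basis.repr_self, Finsupp.single_eq_same,
          smul_eq_mul, mul_one]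
      · intro x _ hx
        rw [map_smul, Module.Basis.coord_apply, Module.Basis.repr_self,
          Finsupp.single_eq_of_ne hx.symm, smul_zero]
      · intro h; exact absurd (Finset.mem_univ _) h
    rw [h2]
    exact he j
  have hmem : ∀ η ∈ regularForms (differential k K) m (O : Set K), Λ η ∈ O := by
    intro η hη
    unfold regularForms at hη
    induction hη using AddSubgroup.closure_induction with
    | mem x hx =>
      obtain ⟨e, he, v, hv, rfl⟩ := hx
      rw [map_smul, smul_eq_mul, hΛ]
      refine O.mul_mem he ?_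
      rw [Matrix.det_apply]
      refine O.sum_mem fun σ _ => ?_
      rw [Units.smul_def, zsmul_eq_mul]
      refine O.mul_mem (intCast_mem O _) (O.prod_mem fun i _ => ?_)
      exact hcoord _ (hv _) _
    | zero => rw [map_zero]; exact O.zero_mem
    | add x y _ _ hx hy => rw [map_add]; exact O.add_mem hx hy
    | neg x _ hx => rw [map_neg]; exact O.neg_mem hx
  have h1 := hmem _ hc
  rw [map_smul, smul_eq_mul, hΛ] at h1
  have h2 : (Matrix.of fun a j : Fin m => b.coord j.succ (D k K (t a.succ))) = 1 := by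
    ext a j
    rw [Matrix.of_apply, ← hb, Module.Basis.coord_apply, Module.Basis.repr_self,
      Matrix.one_apply, Finsupp.single_apply]
    by_cases h : a = j
    · subst h; simp
    · rw [if_neg h, if_neg (fun h' => h (Fin.succ_injective _ h'))]
  rw [h2, Matrix.det_one, mul_one] at h1
  exact h1

end Pool.Agent.Y178.LF
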