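import Mathlib

set_option autoImplicit false

namespace Pool.Agent.Y178.LF

variable {A K : Type*} [CommRing A] [IsDomain A] [WfDvdMonoid A] [Field K] (σ : A →+* K)

/-- The valuation ring of a prime element `q` of `A` inside a field `K` of fractions of `A`. -/
def primeVal (hσ : Function.Injective σ) (hfrac : ∀ z : K, ∃ a b : A, b ≠ 0 ∧ z = σ a / σ b)
    (q : A) (hq : Prime q) : ValuationSubring K where
  carrier := {z | ∃ a b : A, ¬ q ∣ b ∧ z = σ a / σ b}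
  mul_mem' := by
    rintro z z' ⟨a, b, hb, rfl⟩ ⟨a', b', hb', rfl⟩
    refine ⟨a * a', b * b', ?_, ?_⟩
    · intro h
      rcases hq.dvd_or_dvd h with h | h
      · exact hb h
      · exact hb' h
    · rw [map_mul, map_mul, div_mul_div_comm]
  one_mem' := ⟨1, 1, fun h => hq.not_isUnit (isUnit_of_dvd_one h), by simp⟩
  add_mem' := by
    rintro z z' ⟨a, b, hb, rfl⟩ ⟨a', b', hb', rfl⟩
    have h1 : σ b ≠ 0 := fun h => hb (by rw [(map_eq_zero_iff σ hσ).1 h]; exact dvd_zero q)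
    have h2 : σ b' ≠ 0 := fun h => hb' (by rw [(map_eq_zero_iff σ hσ).1 h]; exact dvd_zero q)
    refine ⟨a * b' + b * a', b * b', ?_, ?_⟩
    · intro h
      rcases hq.dvd_or_dvd h with h | h
      · exact hb h
      · exact hb' h
    · rw [map_add, map_mul, map_mul, map_mul, div_add_div _ _ h1 h2]
  zero_mem' := ⟨0, 1, fun h => hq.not_isUnit (isUnit_of_dvd_one h), by simp⟩
  neg_mem' := by
    rintro z ⟨a, b, hb, rfl⟩
    exact ⟨-a, b, hb, by rw [map_neg, neg_div]⟩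
  mem_or_inv_mem' := by
    intro z
    obtain ⟨a, b, hb, rfl⟩ := hfrac z
    by_cases ha : a = 0
    · left
      exact ⟨0, 1, fun h => hq.not_isUnit (isUnit_of_dvd_one h), by rw [ha]; simp⟩
    have hbσ : σ b ≠ 0 := fun h => hb ((map_eq_zero_iff σ hσ).1 h)
    have haσ : σ a ≠ 0 := fun h => ha ((map_eq_zero_iff σ hσ).1 h)
    obtain ⟨n, a', ha', h1⟩ := WfDvdMonoid.max_power_factor ha hq.irreducible
    obtain ⟨l, b', hb', h2⟩ := WfDvdMonoid.max_power_factor hb hq.irreducible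
    have hqσ : σ q ≠ 0 := fun h => hq.ne_zero ((map_eq_zero_iff σ hσ).1 h)
    have hb'σ : σ b' ≠ 0 := fun h => hb' (by rw [(map_eq_zero_iff σ hσ).1 h]; exact dvd_zero q)
    have ha'σ : σ a' ≠ 0 := fun h => ha' (by rw [(map_eq_zero_iff σ hσ).1 h]; exact dvd_zero q)
    rcases le_total l n with h | h
    · left
      refine ⟨q ^ (n - l) * a', b', hb', ?_⟩
      rw [h1, h2, map_mul, map_mul, map_mul, map_pow, map_pow, map_pow]
      obtain ⟨d, rfl⟩ := Nat.exists_eq_add_of_le h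
      rw [Nat.add_sub_cancel_left, pow_add]
      field_simp
    · right
      refine ⟨q ^ (l - n) * b', a', ha', ?_⟩
      rw [h1, h2, map_mul, map_mul, map_mul, map_pow, map_pow, map_pow]
      obtain ⟨d, rfl⟩ := Nat.exists_eq_add_of_le h
      rw [Nat.add_sub_cancel_left, pow_add]
      field_simp

lemma mem_primeVal (hσ : Function.Injective σ)
    (hfrac : ∀ z : K, ∃ a b : A, b ≠ 0 ∧ z = σ a / σ b)
    (q : A) (hq : Prime q) (z : K) :
    z ∈ primeVal σ hσ hfrac q hq ↔ ∃ a b : A, ¬ q ∣ b ∧ z = σ a / σ b := Iff.rfl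

lemma map_mem_primeVal (hσ : Function.Injective σ)
    (hfrac : ∀ z : K, ∃ a b : A, b ≠ 0 ∧ z = σ a / σ b)
    (q : A) (hq : Prime q) (a : A) : σ a ∈ primeVal σ hσ hfrac q hq :=
  ⟨a, 1, fun h => hq.not_isUnit (isUnit_of_dvd_one h), by simp⟩

lemma inv_mem_primeVal (hσ : Function.Injective σ)
    (hfrac : ∀ z : K, ∃ a b : A, b ≠ 0 ∧ z = σ a / σ b)
    (q : A) (hq : Prime q) (a : A) (ha : ¬ q ∣ a) : (σ a)⁻¹ ∈ primeVal σ hσ hfrac q hq :=
  ⟨1, a, ha, by simp⟩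

lemma inv_notMem_primeVal (hσ : Function.Injective σ)
    (hfrac : ∀ z : K, ∃ a b : A, b ≠ 0 ∧ z = σ a / σ b)
    (q : A) (hq : Prime q) (a : A) (ha : q ∣ a) (ha0 : a ≠ 0) :
    (σ a)⁻¹ ∉ primeVal σ hσ hfrac q hq := by
  rintro ⟨c, b, hb, h⟩
  have haσ : σ a ≠ 0 := fun h => ha0 ((map_eq_zero_iff σ hσ).1 h)
  have hbσ : σ b ≠ 0 := fun h => hb (by rw [(map_eq_zero_iff σ hσ).1 h]; exact dvd_zero q)
  rw [eq_div_iff hbσ, inv_mul_eq_div, div_eq_iff haσ, ← map_mul] at h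
  have h2 := hσ h
  apply hb
  rw [h2]
  exact ha.mul_left c

end Pool.Agent.Y178.LF
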