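import Pool.Agent.Y178.LF.RegForms
import Pool.Agent.Y178.LF.NonReg
import Pool.Agent.Y178.LF.PrimeVal

set_option autoImplicit false

open KaehlerDifferential MvPolynomial

universe u

namespace Pool.Agent.Y178.LF

open Pool.Agent.Helper165

variable {k : Type u} [Field k] {m : ℕ}

lemma pderiv_dehom {l b : Fin (m + 1)} (h : b ≠ l) (q : Pol k m) :
    pderiv b (dehom l q) = dehom l (pderiv b q) := by
  unfold dehom
  induction q using MvPolynomial.induction_on with
  | C c => simp
  | add q q' h1 h2 => rw [map_add, map_add, h1, h2, map_add, map_add]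
  | mul_X q j h1 =>
    rw [map_mul, aeval_X, Derivation.leibniz, h1, Derivation.leibniz, map_add, smul_eq_mul,
      smul_eq_mul, smul_eq_mul, smul_eq_mul, map_mul, map_mul, aeval_X]
    congr 2
    by_cases hj : j = l
    · subst hj
      rw [uu_self, pderiv_X, Pi.single_eq_of_ne (Ne.symm h)]
      simp
    · rw [uu_ne hj, pderiv_X]
      by_cases hb : j = b
      · subst hb
        rw [Pi.single_eq_same, map_one]
      · rw [Pi.single_eq_of_ne hb, map_zero]

section

variable {p i : ℕ} {f g : Pol k m} (H : Good p i f g)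

include H

lemma Good.dehom_pderiv_ne_zero (l b : Fin (m + 1)) : dehom l (pderiv b f) ≠ 0 := by
  intro h
  have hd := H.isDomain
  let φ : RR p f →ₐ[k] FractionRing (RR p f) :=
    IsScalarTower.toAlgHom k (RR p f) (FractionRing (RR p f))
  have hφ : Function.Injective φ := IsFractionRing.injective (RR p f) _
  have h1 := H.sig_dehom' (i := i) φ hφ (pderiv b f) (m + 1 - 1) H.hf.pderiv l
  rw [h, map_zero] at h1
  have h2 : φ (eta p f b) = 0 := by
    rcases div_eq_zero_iff.1 h1.symm with h3 | h3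
    · exact h3
    · exact absurd h3 (pow_ne_zero _ (H.phix_ne φ hφ l))
  exact H.eta_ne_zero b ((map_eq_zero_iff _ hφ).1 h2)

lemma Good.dehom_not_isUnit (l : Fin (m + 1)) : ¬ IsUnit (dehom l f) := by
  intro h
  obtain ⟨b, hb⟩ : ∃ b : Fin (m + 1), b ≠ l := by
    have := H.hm
    have : Nontrivial (Fin (m + 1)) := Fin.nontrivial_iff_two_le.2 (by omega)
    exact exists_ne l
  obtain ⟨c, -, hc⟩ := MvPolynomial.isUnit_iff_eq_C_of_isReduced.1 h
  apply H.dehom_pderiv_ne_zero l b
  rw [← pderiv_dehom hb, hc, pderiv_C]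

lemma Good.dehom_ne_zero (l : Fin (m + 1)) : dehom l f ≠ 0 := by
  intro h
  obtain ⟨b, hb⟩ : ∃ b : Fin (m + 1), b ≠ l := by
    have := H.hm
    have : Nontrivial (Fin (m + 1)) := Fin.nontrivial_iff_two_le.2 (by omega)
    exact exists_ne l
  apply H.dehom_pderiv_ne_zero l b
  rw [← pderiv_dehom hb, h, map_zero]

variable {K : Type*} [Field K] [Algebra k K] (φ : RR p f →ₐ[k] K) (hφ : Function.Injective φ)
  (hfrac : ∀ z : K, ∃ a b : RR p f, b ≠ 0 ∧ z = φ a / φ b)

include hφ hfrac

/-- There is a valuation ring of `K` containing the coordinate ring such that `ρ` is not regular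
on any subring of it. -/
theorem Good.exists_val : ∃ V : ValuationSubring K, (∀ r, φ r ∈ V) ∧
    ∀ O : Set K, O ⊆ (V : Set K) → rho φ ∉ regularForms (differential k K) m O := by
  have hσ := H.sig_injective φ hφ 0
  have hfrac' : ∀ z : K, ∃ a b : Pol k m, b ≠ 0 ∧ z = sig φ i 0 a / sig φ i 0 b := by
    intro z
    obtain ⟨a, b, hb, rfl⟩ := hfrac z
    refine ⟨H.chi 0 a, H.chi 0 b, fun h => hb ((map_eq_zero_iff _ (H.chi_injective 0)).1 h), ?_⟩
    rw [H.sig_chi φ hφ, H.sig_chi φ hφ]
  obtain ⟨q, hq, hqG⟩ := WfDvdMonoid.exists_irreducible_factor (H.dehom_not_isUnit 0)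
    (H.dehom_ne_zero 0)
  have hqp : Prime q := hq.prime
  let σ : Pol k m →+* K := (sig φ i 0 : Pol k m →ₐ[k] K)
  let V := primeVal σ hσ hfrac' q hqp
  refine ⟨V, ?_, ?_⟩
  · intro r
    rw [← H.sig_chi φ hφ 0 r]
    exact map_mem_primeVal σ hσ hfrac' q hqp _
  · intro O hO hmem
    have hmem' : rho φ ∈ regularForms (differential k K) m (V : Set K) := by
      refine AddSubgroup.closure_mono ?_ hmem
      rintro ω ⟨c, hc, v, hv, rfl⟩
      exact ⟨c, hO hc, v, fun j => hO (hv j), rfl⟩
    have hadj : ∀ r : Pol k m, σ r ∈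
        Algebra.adjoin k (Set.range fun b : Fin (m + 1) => σ (X b)) := by
      intro r
      rw [Algebra.adjoin_range_eq_range_aeval]
      refine ⟨r, ?_⟩
      have h : (aeval (fun b : Fin (m + 1) => σ (X b)) : Pol k m →ₐ[k] K) = sig φ i 0 := by
        apply MvPolynomial.algHom_ext
        intro b
        rw [aeval_X]
        rfl
      rw [h]
      rfl
    have hind : AlgebraicIndependent k (fun b : Fin (m + 1) => σ (X b)) := by
      have h : (aeval (fun b : Fin (m + 1) => σ (X b)) : Pol k m →ₐ[k] K) = sig φ i 0 := by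
        apply MvPolynomial.algHom_ext
        intro b
        rw [aeval_X]
        rfl
      change Function.Injective (aeval (fun b : Fin (m + 1) => σ (X b)) : Pol k m →ₐ[k] K)
      rw [h]
      exact hσ
    have h1 : rho φ = (σ (dehom 0 f))⁻¹ • exteriorPower.ιMulti K m
        (fun a : Fin m => D k K (σ (X a.succ))) := by
      unfold rho
      have h2 : σ (dehom 0 f) = φ (RR.t p f) ^ p / φ (RR.x p f 0) ^ (m + 1) :=
        H.sig_dehom φ hφ 0
      rw [h2, inv_div]
      congr 2
      funext a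
      congr 1
      have h3 : σ (X a.succ) = sv φ i 0 a.succ := sig_X φ 0 a.succ
      rw [h3, sv_ne φ (Fin.succ_ne_zero a)]
    rw [h1] at hmem'
    refine inv_notMem_primeVal σ hσ hfrac' q hqp (dehom 0 f) hqG (H.dehom_ne_zero 0) ?_
    refine coeff_mem_of_regular V.toSubring (fun b : Fin (m + 1) => σ (X b)) hind ?_ ?_ ?_ ?_ _
      hmem'
    · intro z
      obtain ⟨a, b, hb, rfl⟩ := hfrac' z
      exact ⟨σ a, hadj a, σ b, hadj b, fun h => hb ((map_eq_zero_iff σ hσ).1 h), rfl⟩
    · intro c
      have : algebraMap k K c = σ (C c) := by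
        change _ = sig φ i 0 (C c)
        rw [sig, aeval_C]
      rw [this]
      exact map_mem_primeVal σ hσ hfrac' q hqp _
    · intro b
      exact map_mem_primeVal σ hσ hfrac' q hqp _
    · rintro z ⟨a, b, hb, rfl⟩
      have hb0 : b ≠ 0 := fun h => hb (by rw [h]; exact dvd_zero q)
      exact ⟨σ a, hadj a, σ b, hadj b, fun h => hb0 ((map_eq_zero_iff σ hσ).1 h),
        inv_mem_primeVal σ hσ hfrac' q hqp b hb, rfl⟩

end

end Pool.Agent.Y178.LF
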