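import Pool.Agent.Y178.LF.Chart1
import Pool.Agent.Y178.LF.Val

set_option autoImplicit false

open MvPolynomial

universe u

namespace Pool.Agent.Y178.LF

/-- Replacing a coordinate by its inverse preserves algebraic independence. -/
lemma algInd_update_inv {k K : Type*} [Field k] [Field K] [Algebra k K] {n : ℕ}
    (v : Fin n → K) (l : Fin n) (hv : AlgebraicIndependent k v) :
    AlgebraicIndependent k (Function.update v l (v l)⁻¹) := by
  classical
  let e : Option {b // b ≠ l} ≃ Fin n := Equiv.optionSubtypeNe l
  let w : {b // b ≠ l} → K := fun b => v b.1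
  have e1 : ∀ c : K, Function.update v l c ∘ e = fun o : Option {b // b ≠ l} => o.elim c w := by
    intro c
    funext o
    rcases o with _ | ⟨b, hb⟩
    · simp [e]
    · simp [e, w, Function.update_of_ne hb]
  have h1 : AlgebraicIndependent k (fun o : Option {b // b ≠ l} => o.elim (v l) w) := by
    rw [← e1, algebraicIndependent_equiv, Function.update_eq_self]
    exact hv
  rw [← algebraicIndependent_equiv e, e1]
  rw [AlgebraicIndependent.option_iff] at h1 ⊢
  refine ⟨h1.1, ?_⟩
  intro h2
  exact h1.2 (IsAlgebraic.inv_iff.1 h2)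

/-- The evaluation `X_none ↦ G`, `X_(some b) ↦ X_b`. -/
noncomputable def evalNone {k : Type u} [Field k] {m : ℕ} (G : Pol k m) :
    MvPolynomial (Option (Fin (m + 1))) k →ₐ[k] Pol k m :=
  aeval (fun c : Option (Fin (m + 1)) => c.elim G X)

section evalNone

variable {k : Type u} [Field k] {m : ℕ} (G : Pol k m)

lemma evalNone_none : evalNone G (X none) = G := aeval_X _ _

lemma evalNone_some (b : Fin (m + 1)) : evalNone G (X (some b)) = X b := aeval_X _ _

lemma evalNone_rename (q : Pol k m) : evalNone G (rename some q) = q := by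
  have : (evalNone G).comp (rename some) = AlgHom.id k (Pol k m) := by
    apply MvPolynomial.algHom_ext
    intro b
    rw [AlgHom.comp_apply, rename_X, evalNone_some]
    rfl
  exact congrArg (fun F => F q) this

/-- The first relation. -/
noncomputable def relOne (G : Pol k m) : MvPolynomial (Option (Fin (m + 1))) k :=
  X none - rename some G

lemma ker_evalNone : RingHom.ker (evalNone G) = Ideal.span {relOne G} := by
  apply le_antisymm
  · have key : ∀ q, q - rename some (evalNone G q) ∈ Ideal.span {relOne G} := by
      intro q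
      induction q using MvPolynomial.induction_on with
      | C c =>
        rw [evalNone, aeval_C, MvPolynomial.algebraMap_eq, rename_C, sub_self]
        exact Ideal.zero_mem _
      | add q q' h h' =>
        rw [map_add, map_add, add_sub_add_comm]
        exact Ideal.add_mem _ h h'
      | mul_X q c h =>
        rw [map_mul, map_mul]
        rcases c with _ | b
        · rw [evalNone_none]
          have : q * X none - rename some (evalNone G q) * rename some G =
              (q - rename some (evalNone G q)) * X none +
              rename some (evalNone G q) * relOne G := by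
            unfold relOne; ring
          rw [this]
          exact Ideal.add_mem _ (Ideal.mul_mem_right _ _ h)
            (Ideal.mul_mem_left _ _ (Ideal.mem_span_singleton_self _))
        · rw [evalNone_some, rename_X, ← sub_mul]
          exact Ideal.mul_mem_right _ _ h
    intro q hq
    have h := key q
    rw [RingHom.mem_ker] at hq
    rwa [hq, map_zero, sub_zero] at h
  · rw [Ideal.span_le]
    rintro _ rfl
    change evalNone G (relOne G) = 0
    rw [relOne, map_sub, evalNone_none, evalNone_rename, sub_self]

end evalNone

section two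

variable {k : Type u} [Field k] {m : ℕ} {p i : ℕ} {f g : Pol k m} (H : Good p i f g)
variable {K : Type*} [Field K] [Algebra k K] (φ : RR p f →ₐ[k] K)

/-- The second relation `x_l r ^ p - G_l`. -/
noncomputable def relTwo (p : ℕ) (f : Pol k m) (l : Fin (m + 1)) :
    MvPolynomial (Option (Fin (m + 1))) k :=
  X (some l) * X none ^ p - rename some (dehom l f)

/-- The coordinates of the second kind of charts. -/
noncomputable def tv (φ : RR p f →ₐ[k] K) (i : ℕ) (l : Fin (m + 1)) : Option (Fin (m + 1)) → K :=
  fun c => c.elim (φ (RR.t p f) / φ (RR.x p f l) ^ i)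
    (Function.update (fun b => φ (RR.x p f b) / φ (RR.x p f l)) l (φ (RR.x p f l)))

lemma tv_none (l : Fin (m + 1)) : tv φ i l none = φ (RR.t p f) / φ (RR.x p f l) ^ i := rfl

lemma tv_self (l : Fin (m + 1)) : tv φ i l (some l) = φ (RR.x p f l) := by
  unfold tv
  rw [Option.elim_some, Function.update_self]

lemma tv_ne {l b : Fin (m + 1)} (h : b ≠ l) :
    tv φ i l (some b) = φ (RR.x p f b) / φ (RR.x p f l) := by
  unfold tv
  rw [Option.elim_some, Function.update_of_ne h]

/-- The embedding of the second kind of chart rings. -/
noncomputable def tau (φ : RR p f →ₐ[k] K) (i : ℕ) (l : Fin (m + 1)) :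
    MvPolynomial (Option (Fin (m + 1))) k →ₐ[k] K := aeval (tv φ i l)

lemma tau_X (l : Fin (m + 1)) (c : Option (Fin (m + 1))) : tau φ i l (X c) = tv φ i l c :=
  aeval_X _ _

/-- The embedding of polynomial rings `X_b ↦ X_(some b)` for `b ≠ l`, `X_l ↦ X_none`. -/
noncomputable def inn (k : Type u) [Field k] (l : Fin (m + 1)) :
    Pol k m →ₐ[k] MvPolynomial (Option (Fin (m + 1))) k :=
  aeval (Function.update (fun b => X (some b)) l (X none))

lemma inn_self (l : Fin (m + 1)) : inn k l (X l) = X none := by
  rw [inn, aeval_X, Function.update_self]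

lemma inn_ne {l b : Fin (m + 1)} (h : b ≠ l) : inn k l (X b) = X (some b) := by
  rw [inn, aeval_X, Function.update_of_ne h]

lemma inn_dehom (l : Fin (m + 1)) (q : Pol k m) :
    inn k l (dehom l q) = rename some (dehom l q) := by
  have : (inn k l).comp (aeval (uu l)) = (rename some).comp (aeval (uu l) : Pol k m →ₐ[k] _) := by
    apply MvPolynomial.algHom_ext
    intro b
    rw [AlgHom.comp_apply, AlgHom.comp_apply, aeval_X]
    by_cases h : b = l
    · subst h
      rw [uu_self, map_one, map_one]
    · rw [uu_ne h, inn_ne h, rename_X]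
  exact congrArg (fun F => F q) this

/-- Elimination of `x_l`. -/
lemma elim_x (p : ℕ) (f : Pol k m) (l : Fin (m + 1))
    (q : MvPolynomial (Option (Fin (m + 1))) k) :
    ∃ (N : ℕ) (q' : Pol k m), relTwo p f l ∣ X none ^ N * q - inn k l q' := by
  induction q using MvPolynomial.induction_on with
  | C c =>
    refine ⟨0, C c, ?_⟩
    rw [pow_zero, one_mul, inn, aeval_C, MvPolynomial.algebraMap_eq, sub_self]
    exact dvd_zero _
  | add q q' h h' =>
    obtain ⟨N, r, hr⟩ := h
    obtain ⟨N', r', hr'⟩ := h'
    refine ⟨N + N', X l ^ N' * r + X l ^ N * r', ?_⟩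
    have : X none ^ (N + N') * (q + q') - inn k l (X l ^ N' * r + X l ^ N * r') =
        X none ^ N' * (X none ^ N * q - inn k l r) +
        X none ^ N * (X none ^ N' * q' - inn k l r') := by
      rw [map_add, map_mul, map_mul, map_pow, map_pow, inn_self]
      ring
    rw [this]
    exact dvd_add (hr.mul_left _) (hr'.mul_left _)
  | mul_X q c h =>
    obtain ⟨N, r, hr⟩ := h
    rcases c with _ | b
    · refine ⟨N, r * X l, ?_⟩
      have : X none ^ N * (q * X none) - inn k l (r * X l) =
          (X none ^ N * q - inn k l r) * X none := by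
        rw [map_mul, inn_self]
        ring
      rw [this]
      exact hr.mul_right _
    · by_cases hb : b = l
      · subst hb
        refine ⟨N + p, r * dehom b f, ?_⟩
        have : X none ^ (N + p) * (q * X (some b)) - inn k b (r * dehom b f) =
            (X none ^ N * q - inn k b r) * (X (some b) * X none ^ p) +
            inn k b r * relTwo p f b := by
          rw [map_mul, inn_dehom, relTwo]
          ring
        rw [this]
        exact dvd_add (hr.mul_right _) (dvd_mul_left _ _)
      · refine ⟨N, r * X b, ?_⟩
        have : X none ^ N * (q * X (some b)) - inn k l (r * X b) =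
            (X none ^ N * q - inn k l r) * X (some b) := by
          rw [map_mul, inn_ne hb]
          ring
        rw [this]
        exact hr.mul_right _

include H

lemma Good.relTwo_cancel (l : Fin (m + 1)) (N : ℕ) (q : MvPolynomial (Option (Fin (m + 1))) k)
    (h : relTwo p f l ∣ X none ^ N * q) : relTwo p f l ∣ q := by
  have hX : Prime (X none : MvPolynomial (Option (Fin (m + 1))) k) := X_prime
  have hnd : ¬ X none ∣ relTwo p f l := by
    rintro ⟨c, hc⟩
    have h1 := congrArg (evalNone (0 : Pol k m)) hc
    rw [map_mul, evalNone_none, zero_mul, relTwo, map_sub, map_mul, map_pow, evalNone_none,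
      zero_pow H.pos.ne', mul_zero, evalNone_rename, zero_sub, neg_eq_zero] at h1
    exact H.dehom_ne_zero l h1
  induction N with
  | zero => rwa [pow_zero, one_mul] at h
  | succ N ih =>
    apply ih
    obtain ⟨c, hc⟩ := h
    have h1 : X none ∣ relTwo p f l * c := by
      rw [← hc, pow_succ']
      rw [mul_assoc]
      exact dvd_mul_right _ _
    rcases hX.dvd_or_dvd h1 with h2 | ⟨d, hd⟩
    · exact absurd h2 hnd
    · refine ⟨d, ?_⟩
      rw [hd, pow_succ', mul_assoc, mul_left_comm (relTwo p f l)] at hc
      exact mul_left_cancel₀ hX.ne_zero hc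

variable (hφ : Function.Injective φ)

include hφ

lemma Good.tau_uu (l b : Fin (m + 1)) :
    tau φ i l (rename some (uu l b)) = φ (RR.x p f b) / φ (RR.x p f l) := by
  by_cases h : b = l
  · subst h
    rw [uu_self, map_one, map_one, div_self (H.phix_ne φ hφ _)]
  · rw [uu_ne h, rename_X, tau_X, tv_ne φ h]

lemma Good.tau_dehom (l : Fin (m + 1)) :
    tau φ i l (rename some (dehom l f)) = φ (RR.t p f) ^ p / φ (RR.x p f l) ^ (m + 1) := by
  rw [← map_pow, RR.t_pow, ← H.phi_aeval φ hφ f (m + 1) H.hf l, dehom]
  have : (((tau φ i l).comp (rename some)).comp (aeval (uu l)) : Pol k m →ₐ[k] K) =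
      aeval (fun b => φ (RR.x p f b) / φ (RR.x p f l)) := by
    apply MvPolynomial.algHom_ext
    intro b
    rw [AlgHom.comp_apply, aeval_X, aeval_X, AlgHom.comp_apply, H.tau_uu φ hφ]
  rw [← this]
  rfl

lemma Good.tau_relTwo (l : Fin (m + 1)) : tau φ i l (relTwo p f l) = 0 := by
  have hx := H.phix_ne φ hφ l
  rw [relTwo, map_sub, H.tau_dehom φ hφ, map_mul, map_pow, tau_X, tau_X, tv_self, tv_none,
    div_pow, ← pow_mul, mul_comm i p, H.pi, sub_eq_zero, pow_succ (φ (RR.x p f l)) (m + 1)]
  field_simp

lemma Good.inn_injective (l : Fin (m + 1)) :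
    Function.Injective ((tau φ i l).comp (inn k l)) := by
  have h1 : AlgebraicIndependent k (sv φ i l) := H.sig_injective φ hφ l
  have h2 := algInd_update_inv (sv φ i l) l h1
  have h3 : (tau φ i l).comp (inn k l) = aeval (Function.update (sv φ i l) l (sv φ i l l)⁻¹) := by
    apply MvPolynomial.algHom_ext
    intro b
    rw [AlgHom.comp_apply, aeval_X]
    by_cases hb : b = l
    · subst hb
      rw [inn_self, tau_X, tv_none, Function.update_self, sv_self, inv_div]
    · rw [inn_ne hb, tau_X, tv_ne φ hb, Function.update_of_ne hb, sv_ne φ hb]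
  rw [h3]
  exact h2

/-- The kernel of the embedding of the second kind of charts. -/
theorem Good.ker_tau (l : Fin (m + 1)) :
    RingHom.ker (tau φ i l) = Ideal.span {relTwo p f l} := by
  apply le_antisymm
  · intro q hq
    rw [RingHom.mem_ker] at hq
    rw [Ideal.mem_span_singleton]
    obtain ⟨N, q', hq'⟩ := elim_x p f l q
    have h1 : tau φ i l (X none ^ N * q - inn k l q') = 0 := by
      obtain ⟨c, hc⟩ := hq'
      rw [hc, map_mul, H.tau_relTwo φ hφ, zero_mul]
    rw [map_sub, map_mul, hq, mul_zero, zero_sub, neg_eq_zero] at h1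
    have h2 : q' = 0 := H.inn_injective φ hφ l (by
      rw [AlgHom.comp_apply, h1, map_zero])
    rw [h2, map_zero, sub_zero] at hq'
    exact H.relTwo_cancel l N q hq'
  · rw [Ideal.span_le]
    rintro _ rfl
    exact H.tau_relTwo φ hφ l

end two

end Pool.Agent.Y178.LF
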