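import Pool.Agent.Y178.LF.Retract
import Pool.Agent.Y178.LF.Defs

set_option autoImplicit false

open MvPolynomial

universe u

namespace Pool.Agent.Y178.LF

variable {k : Type u} [Field k]

lemma pow_eq_expand {σ : Type*} (p : ℕ) [ExpChar k p] (e : ℕ)
    (a : MvPolynomial σ k) : a ^ p ^ e = expand (p ^ e) (map (iterateFrobenius k p e) a) := by
  have : ExpChar (MvPolynomial σ k) p := inferInstance
  induction a using MvPolynomial.induction_on' with
  | monomial γ c =>
    rw [map_monomial, expand_monomial, monomial_pow, iterateFrobenius_def]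
  | add f g hf hg =>
    rw [add_pow_expChar_pow, hf, hg, map_add, map_add]

lemma isStronglyFRegular_mvPolynomial {σ : Type*} (p : ℕ) (hp : 1 < p) [ExpChar k p]
    [PerfectRing k p] : IsStronglyFRegular p (MvPolynomial σ k) := by
  classical
  intro c hc
  obtain ⟨β, hβ⟩ : ∃ β, coeff β c ≠ 0 := by
    by_contra h
    push Not at h
    exact hc (MvPolynomial.ext _ _ (fun α => by rw [h, coeff_zero]))
  let e := c.totalDegree + 1
  have hq : c.totalDegree < p ^ e := lt_of_lt_of_le (Nat.lt_succ_self _) (Nat.lt_pow_self hp).le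
  have hq0 : 0 < p ^ e := lt_of_le_of_lt (Nat.zero_le _) hq
  have hdeg : ∀ δ, coeff δ c ≠ 0 → ∀ i, δ i < p ^ e := by
    intro δ hδ i
    refine lt_of_le_of_lt ?_ hq
    have h1 : δ.degree ≤ c.totalDegree := by
      have := le_totalDegree (mem_support_iff.2 hδ)
      rw [Finsupp.degree_apply]
      exact this
    exact (Finsupp.le_degree i δ).trans h1
  let ι : k →+* k := ((iterateFrobeniusEquiv k p e).symm : k →+* k)
  have hι : ∀ b, ι (iterateFrobenius k p e b) = b := by
    intro b
    exact (iterateFrobeniusEquiv k p e).symm_apply_apply b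
  refine ⟨e, Nat.succ_pos _, (map ι : MvPolynomial σ k →+* MvPolynomial σ k).toAddMonoidHom.comp
    ((AddMonoidHom.mulLeft (C (coeff β c)⁻¹)).comp (extract (p ^ e) hq0 β)), ?_, ?_⟩
  · intro a b
    change map ι (C (coeff β c)⁻¹ * extract (p ^ e) hq0 β (a ^ p ^ e * b)) =
      a * map ι (C (coeff β c)⁻¹ * extract (p ^ e) hq0 β b)
    rw [pow_eq_expand, extract_expand_mul (p ^ e) hq0 β (hdeg β hβ), mul_left_comm, map_mul,
      map_map]
    congr 1
    have : ι.comp (iterateFrobenius k p e) = RingHom.id k := by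
      ext b; exact hι b
    rw [this, map_id]
  · change map ι (C (coeff β c)⁻¹ * extract (p ^ e) hq0 β c) = 1
    have h1 : extract (p ^ e) hq0 β c = C (coeff β c) := by
      ext α
      rw [coeff_extract, coeff_C]
      by_cases h0 : 0 = α
      · rw [if_pos h0, ← h0, smul_zero, zero_add]
      · rw [if_neg h0]
        by_contra h
        obtain ⟨i, hi⟩ : ∃ i, α i ≠ 0 := by
          by_contra h2
          push Not at h2
          exact h0 (Finsupp.ext (fun i => (h2 i).symm))
        have h3 := hdeg _ h i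
        simp only [Finsupp.add_apply, Finsupp.smul_apply, smul_eq_mul] at h3
        have h4 : p ^ e * 1 ≤ p ^ e * α i := Nat.mul_le_mul_left _ (Nat.one_le_iff_ne_zero.2 hi)
        omega
    rw [h1, ← C_mul, inv_mul_cancel₀ hβ, C_1, map_one]

variable {m : ℕ} {p i : ℕ} {f g : Pol k m} (H : Good p i f g)

include H in
/-- `RR p f` is strongly `F`-regular. -/
theorem Good.isStronglyFRegular [ExpChar k p] [PerfectRing k p] :
    IsStronglyFRegular p (RR p f) := by
  intro c hc
  have hc' : H.psi c ≠ 0 := fun h => hc ((map_eq_zero_iff _ H.psi_injective).1 h)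
  obtain ⟨e, he, φ, hφ, hφc⟩ :=
    isStronglyFRegular_mvPolynomial (k := k) (σ := Fin (m + 1)) p H.prime.one_lt _ hc'
  refine ⟨e, he, H.theta.comp (φ.comp (H.psi : RR p f →+* Pol k m).toAddMonoidHom), ?_, ?_⟩
  · intro a b
    change H.theta (φ (H.psi (a ^ p ^ e * b))) = a * H.theta (φ (H.psi b))
    rw [map_mul, map_pow, hφ, H.theta_psi]
  · change H.theta (φ (H.psi c)) = 1
    rw [hφc, H.theta_one]

end Pool.Agent.Y178.LF
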