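import Pool.Agent.Y178.LF.NonLift
import Pool.Agent.Y178.LF.SFR
import Pool.Agent.Y178.LF.Dwork

set_option autoImplicit false

universe u

namespace Pool.Agent.Y178.LF

open MvPolynomial AlgebraicGeometry CategoryTheory TopologicalSpace Pool.Agent.Helper165

/-- An integral extension has the same Krull dimension. -/
theorem ringKrullDim_eq_of_isIntegral (A B : Type*) [CommRing A] [CommRing B] [Algebra A B]
    [Algebra.IsIntegral A B] (hinj : Function.Injective (algebraMap A B)) :
    ringKrullDim B = ringKrullDim A := by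
  apply le_antisymm
  · refine Order.krullDim_le_of_strictMono (PrimeSpectrum.comap (algebraMap A B)) ?_
    intro P Q hPQ
    exact Ideal.IsIntegral.comap_lt_comap (I := P.asIdeal) (J := Q.asIdeal) hPQ
  · refine iSup_le fun l => ?_
    have : FaithfulSMul A B := (faithfulSMul_iff_algebraMap_injective A B).2 hinj
    obtain ⟨P, hP⟩ := Algebra.IsIntegral.comap_surjective A B l.head
    have : P.asIdeal.LiesOver l.head.asIdeal := ⟨by rw [← hP]; rfl⟩
    obtain ⟨L, hL, -, -⟩ := Ideal.exists_ltSeries_of_hasGoingUp l P.asIdeal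
    rw [← hL]
    exact Order.LTSeries.length_le_krullDim L

section

variable {k : Type u} [Field k] {m : ℕ} {p i : ℕ} {f g : Pol k m} (H : Good p i f g)

include H

lemma Good.ringKrullDim : ringKrullDim (RR p f) = ((m + 1 : ℕ) : WithBot ℕ∞) := by
  have hmon : (relPoly p f).Monic := Polynomial.monic_X_pow_sub_C f H.pos.ne'
  have : Module.Finite (Pol k m) (AdjoinRoot (relPoly p f)) := hmon.finite_adjoinRoot
  have hinj : Function.Injective (algebraMap (Pol k m) (AdjoinRoot (relPoly p f))) := by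
    apply AdjoinRoot.of.injective_of_degree_ne_zero
    unfold relPoly
    rw [Polynomial.degree_X_pow_sub_C H.pos]
    exact_mod_cast H.pos.ne'
  change _root_.ringKrullDim (AdjoinRoot (relPoly p f)) = _
  rw [ringKrullDim_eq_of_isIntegral (Pol k m) (AdjoinRoot (relPoly p f)) hinj,
    MvPolynomial.ringKrullDim_of_isNoetherianRing, ringKrullDim_eq_zero_of_field]
  simp

lemma Good.smooth_of_ne (x : Spec (CommRingCat.of (RR p f)))
    (hx : PrimeSpectrum.asIdeal (R := RR p f) x ≠ H.orig) :
    IsSmoothAt (m + 1) (xStr p f) x := by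
  have hd := H.isDomain
  have : ∃ b, RR.x p f b ∉ PrimeSpectrum.asIdeal (R := RR p f) x := by
    by_contra hcon
    push Not at hcon
    have := PrimeSpectrum.isPrime (R := RR p f) x
    exact hx (H.eq_orig _ hcon)
  obtain ⟨b, hb⟩ := this
  have hxb : RR.x p f b ^ (i + 1) ≠ 0 := pow_ne_zero _ (H.x_ne_zero b)
  let U : (Spec (CommRingCat.of (RR p f))).Opens :=
    (PrimeSpectrum.basicOpen (RR.x p f b ^ (i + 1)) : (Spec (CommRingCat.of (RR p f))).Opens)
  have hiso : IsIso (blowMap (JJ p i f) ∣_ U) :=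
    isIso_blowMap_restrict (JJ p i f) _ (xpow_mem b) hxb
  refine ⟨U, ?_, ?_⟩
  · change RR.x p f b ^ (i + 1) ∉ PrimeSpectrum.asIdeal (R := RR p f) x
    intro h
    exact hb ((PrimeSpectrum.isPrime (R := RR p f) x).mem_of_pow_mem _ h)
  · have h1 : SmoothOfRelativeDimension (m + 1) (blowMap (JJ p i f) ≫ xStr p f) :=
      H.isLogResolution.smooth
    have h2 := IsZariskiLocalAtSource.comp (P := @SmoothOfRelativeDimension (m + 1)) h1
      (blowMap (JJ p i f) ⁻¹ᵁ U).ι
    rw [← Category.assoc, ← morphismRestrict_ι, Category.assoc,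
      MorphismProperty.cancel_left_of_respectsIso (P := @SmoothOfRelativeDimension (m + 1))] at h2
    exact h2

end

/-- **Main theorem.** -/
theorem main (p n : ℕ) (hp : p.Prime) (hn : 2 ≤ n) (hpn : p ∣ n + 1) (k : Type u) [Field k]
    [IsAlgClosed k] [CharP k p] :
    ∃ (R : Type u) (_ : CommRing R) (_ : IsDomain R) (_ : Algebra k R),
      Algebra.FiniteType k R ∧ IsIntegrallyClosed R ∧ _root_.ringKrullDim R = n ∧
      IsStronglyFRegular p R ∧
      (∃ o : Spec (CommRingCat.of R), IsClosed {o} ∧ ∀ x : Spec (CommRingCat.of R),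
        IsSmoothAt n (Spec.map (CommRingCat.ofHom (algebraMap k R))) x ↔ x ≠ o) ∧
      (∃ (Y : Scheme.{u}) (_ : IsIntegral Y) (f : Y ⟶ Spec (CommRingCat.of R)),
        IsLogResolution n f (Spec.map (CommRingCat.ofHom (algebraMap k R)))) ∧
      ∀ (Y : Scheme.{u}) (_ : IsIntegral Y) (f : Y ⟶ Spec (CommRingCat.of R)),
        IsProper f → IsBirational f →
        ¬ FormsLift n (n - 1) f (Spec.map (CommRingCat.ofHom (algebraMap k R))) := by
  have hpf : Fact p.Prime := ⟨hp⟩
  obtain ⟨m, rfl⟩ : ∃ m, n = m + 1 := ⟨n - 1, by omega⟩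
  obtain ⟨i, hi⟩ := hpn
  have hm : 1 ≤ m := by omega
  have hinf : Infinite k := IsAlgClosed.instInfinite
  obtain ⟨f, g, H⟩ := exists_good (k := k) p i (m := m) hi.symm hm
  have hd := H.isDomain
  have hexp : ExpChar k p := ExpChar.prime hp
  refine ⟨RR p f, inferInstance, hd, inferInstance, inferInstance, H.isIntegrallyClosed,
    H.ringKrullDim, H.isStronglyFRegular, ?_, ?_, ?_⟩
  · let o : Spec (CommRingCat.of (RR p f)) :=
      (⟨H.orig, H.orig_isMaximal.isPrime⟩ : PrimeSpectrum (RR p f))
    refine ⟨o, ?_, ?_⟩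
    · exact (PrimeSpectrum.isClosed_singleton_iff_isMaximal (o : PrimeSpectrum (RR p f))).2
        H.orig_isMaximal
    · intro x
      constructor
      · rintro hx rfl
        exact H.not_smooth _ rfl hx
      · intro hx
        exact H.smooth_of_ne x (fun h => hx (PrimeSpectrum.ext h))
  · exact ⟨blow (JJ p i f), H.blow_isIntegral, blowMap (JJ p i f), H.isLogResolution⟩
  · intro Y hY F hF1 hF2
    exact H.not_formsLift F hF2

end Pool.Agent.Y178.LF
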