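import Pool.Agent.Helper165.GenChart
import Pool.Agent.Helper165.Const
import Pool.Agent.Y178.LF.Defs

set_option autoImplicit false

open AlgebraicGeometry CategoryTheory TopologicalSpace

universe u

namespace Pool.Agent.Y178.LF

open Pool.Agent.Helper165

variable {Y : Scheme.{u}} [IsIntegral Y] {A : Type u} [CommRing A]
  (F : Y ⟶ Spec (CommRingCat.of A))

lemma fromSpecStalk_comp : Y.fromSpecStalk (genericPoint Y) ≫ F =
    Spec.map (CommRingCat.ofHom (gMap F)) := by
  have h : gMap F = ((Scheme.ΓSpecIso (CommRingCat.of A)).inv ≫ F.appTop ≫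
      Y.presheaf.germ ⊤ (genericPoint Y) trivial).hom := rfl
  rw [h]
  change _ = Spec.map ((Scheme.ΓSpecIso (CommRingCat.of A)).inv ≫ F.appTop ≫
      Y.presheaf.germ ⊤ (genericPoint Y) trivial)
  rw [Spec.map_comp, Spec.map_comp, ← Scheme.fromSpecStalk_toSpecΓ,
    Category.assoc, Category.assoc]
  congr 1
  rw [← Category.assoc, ← Scheme.toSpecΓ_naturality, Category.assoc, ← SpecMap_ΓSpecIso_hom,
    ← Spec.map_comp, Iso.inv_hom_id, Spec.map_id, Category.comp_id]

/-- A proper morphism to `Spec A` has a point whose local ring is contained in a given valuation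
ring of the function field containing `A`. -/
theorem exists_center [IsProper F] (V : ValuationSubring Y.functionField)
    (hV : ∀ a, gMap F a ∈ V) : ∃ y : Y, localRing (𝟙 Y) y ⊆ (V : Set Y.functionField) := by
  have hprop : IsProper F := inferInstance
  rw [IsProper.eq_valuativeCriterion] at hprop
  have hval : ValuativeCriterion F := hprop.1.1.1
  let ι : V →+* Y.functionField := algebraMap V Y.functionField
  let γ : A →+* V :=
    { toFun := fun a => ⟨gMap F a, hV a⟩
      map_one' := Subtype.ext (map_one _)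
      map_mul' := fun a b => Subtype.ext (map_mul _ a b)
      map_zero' := Subtype.ext (map_zero _)
      map_add' := fun a b => Subtype.ext (map_add _ a b) }
  have hγ : ι.comp γ = gMap F := by
    ext a
    rfl
  let S : ValuativeCommSq F :=
    { R := V
      K := Y.functionField
      i₁ := Y.fromSpecStalk (genericPoint Y)
      i₂ := Spec.map (CommRingCat.ofHom γ)
      commSq := ⟨by
        rw [fromSpecStalk_comp, ← Spec.map_comp, ← CommRingCat.ofHom_comp]
        rfl⟩ }
  obtain ⟨⟨⟨L, hL1, hL2⟩⟩⟩ := hval.existence S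
  have hL1' : Spec.map (CommRingCat.ofHom ι) ≫ L = Y.fromSpecStalk (genericPoint Y) := hL1
  let y : Y := L (IsLocalRing.closedPoint V)
  refine ⟨y, ?_⟩
  rintro φ ⟨h, w, rfl⟩
  have h' : genericPoint Y ⤳ y := h
  have e1 : Spec.map (Y.presheaf.stalkSpecializes h') ≫ Y.fromSpecStalk y =
      Spec.map (Scheme.stalkClosedPointTo L ≫ CommRingCat.ofHom ι) ≫ Y.fromSpecStalk y := by
    rw [Scheme.SpecMap_stalkSpecializes_fromSpecStalk, Spec.map_comp, Category.assoc,
      Scheme.Spec_stalkClosedPointTo_fromSpecStalk]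
    exact hL1'.symm
  have e2 : Y.presheaf.stalkSpecializes h' = Scheme.stalkClosedPointTo L ≫ CommRingCat.ofHom ι :=
    Spec.map_injective ((cancel_mono (Y.fromSpecStalk y)).1 e1)
  have e3 : (Y.presheaf.stalkSpecializes h ≫ (𝟙 Y : Y ⟶ Y).stalkMap (genericPoint Y)).hom w =
      ι ((Scheme.stalkClosedPointTo L).hom w) := by
    rw [Scheme.Hom.stalkMap_id]
    have e4 := congrArg (fun G => G.hom w) e2
    exact e4
  rw [e3]
  exact ((Scheme.stalkClosedPointTo L).hom w : V).2

lemma gMap_ne_zero (s : A)
    (hs : F (genericPoint Y) ∈ (PrimeSpectrum.basicOpen s : (Spec (CommRingCat.of A)).Opens)) :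
    gMap F s ≠ 0 := by
  set x := F (genericPoint Y) with hx
  have h : F (genericPoint Y) ⤳ x := specializes_rfl
  set s' : Γ(Spec (CommRingCat.of A), ⊤) := (Scheme.ΓSpecIso (CommRingCat.of A)).inv s with hs'
  have h1 : (Spec (CommRingCat.of A)).basicOpen s' =
      (PrimeSpectrum.basicOpen s : (Spec (CommRingCat.of A)).Opens) := by
    rw [basicOpen_eq_of_affine']
    congr 1
    have := congrArg (fun g => g.hom s) (Scheme.ΓSpecIso (CommRingCat.of A)).inv_hom_id
    exact this
  have h2 : x ∈ (Spec (CommRingCat.of A)).basicOpen s' := by rw [h1]; exact hs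
  rw [Scheme.mem_basicOpen _ _ _ (show x ∈ (⊤ : (Spec (CommRingCat.of A)).Opens) from trivial)] at h2
  obtain ⟨t, ht⟩ := h2.exists_right_inv
  have h3 := congrArg (locMap F x h).hom ht
  rw [map_mul, map_one] at h3
  have h4 := locMap_germ F x h ⊤ trivial trivial s'
  have h5 : gMap F s * (locMap F x h).hom t = 1 := by
    rw [← h3]
    congr 1
    exact h4.symm
  intro h0
  rw [h0, zero_mul] at h5
  exact zero_ne_one h5

variable [IsDomain A]

/-- A birational morphism maps the generic point to the generic point. -/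
lemma generic_eq (hF : IsBirational F) :
    PrimeSpectrum.asIdeal (R := A) (F (genericPoint Y)) = ⊥ := by
  obtain ⟨U, hU1, hU2, hU3⟩ := hF
  have hint : IsIntegral (Spec (CommRingCat.of A)) := inferInstance
  let η : Spec (CommRingCat.of A) := (⊥ : PrimeSpectrum A)
  have hηU : η ∈ U := by
    obtain ⟨x, hx⟩ : (U : Set (Spec (CommRingCat.of A))).Nonempty := by
      rcases (U : Set (Spec (CommRingCat.of A))).eq_empty_or_nonempty with h | h
      · exfalso
        have h1 := hU1.closure_eq
        rw [h, closure_empty] at h1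
        exact (Set.mem_univ η |> (h1 ▸ ·) : η ∈ (∅ : Set (Spec (CommRingCat.of A))))
      · exact h
    have hspec : η ⤳ x := by
      have := (PrimeSpectrum.le_iff_specializes (⊥ : PrimeSpectrum A) (x : PrimeSpectrum A)).1
        bot_le
      exact this
    exact hspec.mem_open U.isOpen hx
  obtain ⟨w, hw⟩ := (F ∣_ U).surjective ⟨η, hηU⟩
  have hw2 : F w.1 = η := by
    have := morphismRestrict_base_coe F U w
    rw [hw] at this
    exact this.symm
  have h1 : F (genericPoint Y) ⤳ η := by
    rw [← hw2]
    exact (generic_specializes (Y := Y) w.1).map F.continuous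
  have h2 : PrimeSpectrum.asIdeal (R := A) (F (genericPoint Y)) ≤
      PrimeSpectrum.asIdeal (R := A) η :=
    (PrimeSpectrum.le_iff_specializes (F (genericPoint Y) : PrimeSpectrum A)
      (η : PrimeSpectrum A)).2 h1
  exact le_bot_iff.1 h2

lemma gMap_injective (hF : IsBirational F) : Function.Injective (gMap F) := by
  rw [injective_iff_map_eq_zero]
  intro s hs
  by_contra h0
  refine gMap_ne_zero F s ?_ hs
  change s ∉ PrimeSpectrum.asIdeal (R := A) (F (genericPoint Y))
  rw [generic_eq F hF]
  exact h0

omit [IsDomain A] in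
lemma gMap_frac (hF : IsBirational F) (z : Y.functionField) :
    ∃ a b : A, b ≠ 0 ∧ z = gMap F a / gMap F b := by
  obtain ⟨U, hU1, hU2, hU3⟩ := hF
  have hηU : genericPoint Y ∈ F ⁻¹ᵁ U := by
    apply generic_mem
    rcases ((F ⁻¹ᵁ U : Y.Opens) : Set Y).eq_empty_or_nonempty with h | h
    · exfalso
      have h1 := hU2.closure_eq
      rw [h, closure_empty] at h1
      exact (Set.mem_univ (genericPoint Y) |> (h1 ▸ ·) : genericPoint Y ∈ (∅ : Set Y))
    · exact h
  have hiso : IsIso (F.stalkMap (genericPoint Y)) := by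
    have h1 : IsIso ((F ∣_ U).stalkMap ⟨genericPoint Y, hηU⟩) := inferInstance
    have e := morphismRestrictStalkMap F U ⟨genericPoint Y, hηU⟩
    have h2 := (MorphismProperty.isomorphisms CommRingCat.{u}).arrow_mk_iso_iff e
    rw [MorphismProperty.isomorphisms.iff, MorphismProperty.isomorphisms.iff] at h2
    exact h2.1 h1
  have hsurj : Function.Surjective (F.stalkMap (genericPoint Y)).hom :=
    (ConcreteCategory.bijective_of_isIso (F.stalkMap (genericPoint Y))).2
  have hspec : F (genericPoint Y) ⤳ F (genericPoint Y) := specializes_rfl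
  have hz : z ∈ localSubring F (F (genericPoint Y)) hspec := by
    obtain ⟨w, hw⟩ := hsurj z
    refine ⟨w, ?_⟩
    unfold locMap
    rw [TopCat.Presheaf.stalkSpecializes_refl, Category.id_comp]
    exact hw
  obtain ⟨a, s, h1, -, h3⟩ := exists_frac_target F _ hspec z hz
  refine ⟨a, s, ?_, h3⟩
  intro h
  rw [h, map_zero] at h1
  exact h1 rfl

end Pool.Agent.Y178.LF
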