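import Pool.Agent.Y178.LF.NonSmooth
import Pool.Agent.Y178.LF.ValLift
import Pool.Agent.Y178.LF.Val

set_option autoImplicit false

universe u

namespace Pool.Agent.Y178.LF

open MvPolynomial AlgebraicGeometry CategoryTheory TopologicalSpace Pool.Agent.Helper165

variable {k : Type u} [Field k] {m : ℕ} {p i : ℕ} {f g : Pol k m} (H : Good p i f g)

include H

/-- Regular `m`-forms do not lift to any proper birational model. -/
theorem Good.not_formsLift [CharP k p] {Y : Scheme.{u}} [IsIntegral Y]
    (F : Y ⟶ Spec (CommRingCat.of (RR p f))) [IsProper F] (hF : IsBirational F) :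
    ¬ FormsLift (m + 1) m F (xStr p f) := by
  have hd := H.isDomain
  intro hlift
  unfold FormsLift at hlift
  let algK : Algebra k Y.functionField := (constants (F ≫ xStr p f)).toAlgebra
  have halg : ∀ c, (algebraMap k Y.functionField : k →+* Y.functionField) c =
      gMap F (algebraMap k (RR p f) c) := constants_gMap F
  let φ : RR p f →ₐ[k] Y.functionField :=
    { gMap F with
      commutes' := fun c => (halg c).symm }
  have hφ : Function.Injective φ := gMap_injective F hF
  have hfrac : ∀ z : Y.functionField, ∃ a b : RR p f, b ≠ 0 ∧ z = φ a / φ b := gMap_frac F hF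
  have hch : CharP Y.functionField p :=
    charP_of_injective_algebraMap (algebraMap k Y.functionField).injective p
  obtain ⟨V, hV1, hV2⟩ := H.exists_val φ hφ hfrac
  obtain ⟨y, hy⟩ := exists_center F V hV1
  refine hV2 _ hy (hlift ⊤ (rho φ) ?_ _ ⟨y, trivial, rfl⟩)
  rintro _ ⟨x, -, hx, rfl⟩
  have hxo : PrimeSpectrum.asIdeal (R := RR p f) x ≠ H.orig := fun h => H.not_smooth x h hx
  have hxp := PrimeSpectrum.isPrime (R := RR p f) x
  obtain ⟨l, hl⟩ := H.exists_eta (PrimeSpectrum.asIdeal (R := RR p f) x) hxo
  have hspec : F (genericPoint Y) ⤳ x := by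
    have h1 := (PrimeSpectrum.le_iff_specializes (F (genericPoint Y) : PrimeSpectrum (RR p f))
      (x : PrimeSpectrum (RR p f))).1 (by
        change PrimeSpectrum.asIdeal (R := RR p f) (F (genericPoint Y)) ≤ _
        rw [generic_eq F hF]
        exact bot_le)
    exact h1
  rw [← localSubring_coe F x hspec]
  exact H.rho_mem φ hφ (localSubring F x hspec) (fun r => gMap_mem F x hspec r) l
    (inv_gMap_mem F x hspec (eta p f l) hl)

end Pool.Agent.Y178.LF
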