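import Pool.Agent.Y178.LF.Orig
import Pool.Agent.Y178.LF.Exc

set_option autoImplicit false

universe u

namespace Pool.Agent.Y178.LF

open KaehlerDifferential

lemma finrank_le_of_smooth {k T M : Type u} [Field k] [CommRing T] [Algebra k T] [AddCommGroup M]
    [Module k M] [Module kᵐᵒᵖ M] [IsCentralScalar k M] (n : ℕ)
    [Algebra.IsStandardSmoothOfRelativeDimension n k T]
    (ε : T →ₐ[k] k) (Θ : T →ₐ[k] TrivSqZeroExt k M)
    (hΘ : ∀ t, (Θ t).fst = ε t)
    (hspan : Submodule.span k (Set.range fun t => (Θ t).snd) = ⊤) :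
    Module.finrank k M ≤ n := by
  have hnt : Nontrivial T := ε.toRingHom.domain_nontrivial
  let _ : Module T M := Module.compHom M ε.toRingHom
  have hsmul : ∀ (t : T) (x : M), t • x = ε t • x := fun _ _ => rfl
  have : IsScalarTower k T M := ⟨fun c t x => by
    rw [hsmul, hsmul, map_smul, smul_eq_mul, mul_smul]⟩
  let D0 : Derivation k T M := Derivation.mk'
    { toFun := fun t => (Θ t).snd
      map_add' := fun a b => by rw [map_add, TrivSqZeroExt.snd_add]
      map_smul' := fun c a => by rw [map_smul, TrivSqZeroExt.snd_smul]; rfl } (fun a b => by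
      change (Θ (a * b)).snd = a • (Θ b).snd + b • (Θ a).snd
      rw [map_mul, TrivSqZeroExt.snd_mul, hΘ, hΘ, op_smul_eq_smul, hsmul, hsmul])
  let L : Ω[T⁄k] →ₗ[T] M := D0.liftKaehlerDifferential
  have hL : ∀ t, L (D k T t) = (Θ t).snd := fun t => D0.liftKaehlerDifferential_comp_D t
  have hfree : Module.Free T (Ω[T⁄k]) := by
    have := Algebra.IsStandardSmoothOfRelativeDimension.isStandardSmooth (R := k) (S := T) n
    infer_instance
  have hrank := Algebra.IsStandardSmoothOfRelativeDimension.rank_kaehlerDifferential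
    (R := k) (S := T) n
  have hfin : Module.Finite T (Ω[T⁄k]) := by
    have := Algebra.IsStandardSmoothOfRelativeDimension.isStandardSmooth (R := k) (S := T) n
    infer_instance
  have hfr : Module.finrank T (Ω[T⁄k]) = n := Module.finrank_eq_of_rank_eq hrank
  let b : Module.Basis (Fin n) T (Ω[T⁄k]) :=
    (Module.finBasisOfFinrankEq T (Ω[T⁄k]) hfr)
  have hspan2 : Submodule.span k (Set.range fun j => L (b j)) = ⊤ := by
    rw [eq_top_iff, ← hspan, Submodule.span_le]
    rintro _ ⟨t, rfl⟩
    have h1 : (Θ t).snd = ∑ j, (b.repr (D k T t) j) • L (b j) := by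
      rw [← hL]
      conv_lhs => rw [← b.sum_repr (D k T t)]
      rw [map_sum]
      simp only [map_smul]
    change (Θ t).snd ∈ Submodule.span k (Set.range fun j => L (b j))
    rw [h1]
    refine Submodule.sum_mem _ fun j _ => ?_
    rw [hsmul]
    exact Submodule.smul_mem _ _ (Submodule.subset_span ⟨j, rfl⟩)
  have h2 := finrank_range_le_card (R := k) (fun j => L (b j))
  rw [Set.finrank, hspan2, finrank_top, Fintype.card_fin] at h2
  exact h2

/-- A surjective family of tangent vectors at a `k`-point. -/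
structure TanData (k T M : Type u) [Field k] [CommRing T] [Algebra k T] [AddCommGroup M]
    [Module k M] [Module kᵐᵒᵖ M] [IsCentralScalar k M] where
  ε : T →ₐ[k] k
  Θ : T →ₐ[k] TrivSqZeroExt k M
  hΘ : ∀ t, (Θ t).fst = ε t
  hspan : Submodule.span k (Set.range fun t => (Θ t).snd) = ⊤

section

variable {k T M : Type u} [Field k] [CommRing T] [Algebra k T] [AddCommGroup M]
    [Module k M] [Module kᵐᵒᵖ M] [IsCentralScalar k M] (d : TanData k T M)

lemma TanData.unit_Θ (t : T) (ht : d.ε t ≠ 0) (y : Submonoid.powers t) : IsUnit (d.Θ y) := by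
  obtain ⟨_, n, rfl⟩ := y
  change IsUnit (d.Θ (t ^ n))
  rw [map_pow]
  refine IsUnit.pow n ?_
  rw [TrivSqZeroExt.isUnit_iff_isUnit_fst, d.hΘ]
  exact ht.isUnit

lemma TanData.unit_ε (t : T) (ht : d.ε t ≠ 0) (y : Submonoid.powers t) : IsUnit (d.ε y) := by
  obtain ⟨_, n, rfl⟩ := y
  change IsUnit (d.ε (t ^ n))
  rw [map_pow]
  exact (ht.isUnit).pow n

/-- Localization of the data. -/
noncomputable def TanData.away (t : T) (ht : d.ε t ≠ 0) :
    TanData k (Localization.Away t) M where
  ε := IsLocalization.liftAlgHom (M := Submonoid.powers t) (S := Localization.Away t)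
    (f := d.ε) (d.unit_ε t ht)
  Θ := IsLocalization.liftAlgHom (M := Submonoid.powers t) (S := Localization.Away t)
    (f := d.Θ) (d.unit_Θ t ht)
  hΘ := by
    have h : ((TrivSqZeroExt.fstHom k k M : TrivSqZeroExt k M →ₐ[k] k).toRingHom.comp
        (IsLocalization.liftAlgHom (M := Submonoid.powers t) (S := Localization.Away t)
          (f := d.Θ) (d.unit_Θ t ht)).toRingHom) =
        (IsLocalization.liftAlgHom (M := Submonoid.powers t) (S := Localization.Away t)
          (f := d.ε) (d.unit_ε t ht)).toRingHom := by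
      apply IsLocalization.ringHom_ext (Submonoid.powers t)
      ext a
      change (IsLocalization.lift (d.unit_Θ t ht) (algebraMap T (Localization.Away t) a)).fst =
        IsLocalization.lift (d.unit_ε t ht) (algebraMap T (Localization.Away t) a)
      rw [IsLocalization.lift_eq, IsLocalization.lift_eq]
      exact d.hΘ a
    intro a
    exact congrArg (fun g => g a) h
  hspan := by
    rw [eq_top_iff, ← d.hspan]
    apply Submodule.span_mono
    rintro _ ⟨a, rfl⟩
    refine ⟨algebraMap T (Localization.Away t) a, ?_⟩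
    change (IsLocalization.lift (d.unit_Θ t ht) (algebraMap T (Localization.Away t) a)).snd = _
    rw [IsLocalization.lift_eq]
    rfl

lemma TanData.away_ε (t : T) (ht : d.ε t ≠ 0) (a : T) :
    (d.away t ht).ε (algebraMap T (Localization.Away t) a) = d.ε a := by
  change IsLocalization.lift (d.unit_ε t ht) (algebraMap T (Localization.Away t) a) = _
  rw [IsLocalization.lift_eq]
  rfl

end

section

open MvPolynomial AlgebraicGeometry CategoryTheory TopologicalSpace

variable {k : Type u} [Field k] {m : ℕ} {p i : ℕ} {f g : Pol k m} (H : Good p i f g)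

include H

/-- `m + 1` is invertible in `k`. -/
lemma Good.natCast_ne_zero [CharP k p] : ((m + 1 : ℕ) : k) ≠ 0 := by
  intro h
  have h1 : ((p * i : ℕ) : k) = 0 := by
    rw [Nat.cast_mul, CharP.cast_eq_zero, zero_mul]
  rw [H.pi, show m + 2 = (m + 1) + 1 from rfl, Nat.cast_add, h, zero_add, Nat.cast_one] at h1
  exact one_ne_zero h1

lemma Good.aeval_inr [CharP k p] {M : Type u} [AddCommGroup M]
    [Module k M] [Module kᵐᵒᵖ M] [IsCentralScalar k M] (w : Fin (m + 1) → M) :
    aeval (fun b => (TrivSqZeroExt.inr (w b) : TrivSqZeroExt k M)) f = 0 := by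
  have h1 := congrArg (aeval (fun b => (TrivSqZeroExt.inr (w b) : TrivSqZeroExt k M)))
    H.hf.sum_X_mul_pderiv
  rw [map_sum, map_nsmul] at h1
  have h2 : ∀ b, aeval (fun b => (TrivSqZeroExt.inr (w b) : TrivSqZeroExt k M))
      (X b * pderiv b f) = 0 := by
    intro b
    rw [map_mul, aeval_X]
    have h3 : (aeval (fun b => (TrivSqZeroExt.inr (w b) : TrivSqZeroExt k M))
        (pderiv b f)).fst = 0 := by
      have h4 : (TrivSqZeroExt.fstHom k k M).comp
          (aeval (fun b => (TrivSqZeroExt.inr (w b) : TrivSqZeroExt k M)) : Pol k m →ₐ[k] _) =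
          aeval (fun _ : Fin (m + 1) => (0 : k)) := by
        apply MvPolynomial.algHom_ext
        intro b
        rw [AlgHom.comp_apply, aeval_X, aeval_X]
        rfl
      have h5 : (TrivSqZeroExt.fstHom k k M)
          (aeval (fun b => (TrivSqZeroExt.inr (w b) : TrivSqZeroExt k M)) (pderiv b f)) =
          aeval (fun _ : Fin (m + 1) => (0 : k)) (pderiv b f) := by
        rw [← h4]; rfl
      refine h5.trans ?_
      exact aeval_zero_of_homogeneous (H.hf.pderiv (i := b)) (by have := H.hm; omega)
    ext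
    · simp [h3]
    · simp [h3]
  rw [Finset.sum_eq_zero fun b _ => h2 b] at h1
  have h6 : ((m + 1 : ℕ) : k) • aeval (fun b => (TrivSqZeroExt.inr (w b) : TrivSqZeroExt k M)) f =
      0 := by
    rw [Nat.cast_smul_eq_nsmul]
    exact h1.symm
  exact (smul_eq_zero.1 h6).resolve_left H.natCast_ne_zero

/-- The tangent space at the origin has dimension `m + 2`. -/
noncomputable def Good.tan [CharP k p] :
    TanData k (RR p f) (ULift.{u} (Option (Fin (m + 1))) → k) where
  ε := H.aug
  Θ := RR.lift p f (fun b => TrivSqZeroExt.inr (Pi.single ⟨some b⟩ 1))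
    (TrivSqZeroExt.inr (Pi.single ⟨none⟩ 1)) (by
      rw [H.aeval_inr]
      obtain ⟨q, hq⟩ : ∃ q, p = q + 2 := ⟨p - 2, by have := H.prime.two_le; omega⟩
      rw [hq, pow_add, pow_two, TrivSqZeroExt.inr_mul_inr, mul_zero])
  hΘ := by
    intro r
    induction r using RR.induction with
    | hC c =>
      rw [AlgHom.commutes, AlgHom.commutes]
      rfl
    | hx l => rw [RR.lift_x, H.aug_x, TrivSqZeroExt.fst_inr]
    | ht => rw [RR.lift_t, H.aug_t, TrivSqZeroExt.fst_inr]
    | hadd a b ha hb => rw [map_add, TrivSqZeroExt.fst_add, ha, hb, map_add]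
    | hmul a b ha hb => rw [map_mul, TrivSqZeroExt.fst_mul, ha, hb, map_mul]
  hspan := by
    classical
    rw [eq_top_iff]
    intro w _
    have hw : w = ∑ c, w c • (Pi.single c (1 : k) : ULift.{u} (Option (Fin (m + 1))) → k) := by
      funext c
      simp [Finset.sum_apply, Pi.single_apply]
    rw [hw]
    refine Submodule.sum_mem _ fun c _ => Submodule.smul_mem _ _ (Submodule.subset_span ?_)
    rcases c with ⟨_ | b⟩
    · exact ⟨RR.t p f, by beta_reduce; rw [RR.lift_t, TrivSqZeroExt.snd_inr]⟩
    · exact ⟨RR.x p f b, by beta_reduce; rw [RR.lift_x, TrivSqZeroExt.snd_inr]⟩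

/-- The origin is not a smooth point. -/
theorem Good.not_smooth [CharP k p] (o : Spec (CommRingCat.of (RR p f)))
    (ho : PrimeSpectrum.asIdeal (R := RR p f) o = H.orig) :
    ¬ IsSmoothAt (m + 1) (xStr p f) o := by
  rintro ⟨U, hoU, hU⟩
  obtain ⟨_, ⟨_, ⟨h, rfl⟩, rfl⟩, hoh, hhU⟩ :=
    (PrimeSpectrum.isBasis_basic_opens (R := RR p f)).exists_subset_of_mem_open hoU U.isOpen
  have hh : h ∉ H.orig := by rw [← ho]; exact hoh
  let Rh := Localization.Away h
  let r : Spec (CommRingCat.of Rh) ⟶ Spec (CommRingCat.of (RR p f)) :=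
    Spec.map (CommRingCat.ofHom (algebraMap (RR p f) Rh))
  have hr : IsOpenImmersion r := inferInstance
  have hrange : Set.range r ⊆ Set.range U.ι := by
    have h1 : Set.range r = (PrimeSpectrum.basicOpen h : Set (PrimeSpectrum (RR p f))) :=
      PrimeSpectrum.localization_away_comap_range Rh h
    rw [h1, Scheme.Opens.range_ι]
    exact hhU
  let s : Spec (CommRingCat.of Rh) ⟶ U := IsOpenImmersion.lift U.ι r hrange
  have hs : s ≫ U.ι = r := IsOpenImmersion.lift_fac _ _ _
  have hso : IsOpenImmersion s := by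
    have : IsOpenImmersion (s ≫ U.ι) := by rw [hs]; exact hr
    exact IsOpenImmersion.of_comp s U.ι
  have h2 : SmoothOfRelativeDimension (m + 1) (s ≫ U.ι ≫ xStr p f) :=
    IsZariskiLocalAtSource.comp (P := @SmoothOfRelativeDimension (m + 1)) hU s
  rw [← Category.assoc, hs] at h2
  have h3 : r ≫ xStr p f = Spec.map (CommRingCat.ofHom (algebraMap k Rh)) := by
    unfold xStr
    rw [← Spec.map_comp, ← CommRingCat.ofHom_comp, ← IsScalarTower.algebraMap_eq]
  rw [h3, HasRingHomProperty.Spec_iff (P := @SmoothOfRelativeDimension (m + 1))] at h2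
  obtain ⟨S, hS, hS2⟩ := h2
  have hε : H.tan.ε h ≠ 0 := fun h0 => hh ((H.mem_orig h).2 h0)
  let d1 := H.tan.away h hε
  obtain ⟨t, htS, ht⟩ : ∃ t ∈ S, d1.ε t ≠ 0 := by
    by_contra hcon
    push Not at hcon
    have h4 : Ideal.span S ≤ RingHom.ker d1.ε := by
      rw [Ideal.span_le]
      intro t ht
      exact hcon t ht
    rw [hS] at h4
    have h5 : (1 : Rh) ∈ RingHom.ker d1.ε := h4 trivial
    rw [RingHom.mem_ker, map_one] at h5
    exact one_ne_zero h5
  let d2 := d1.away t ht
  have h6 := hS2 t htS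
  have h7 : Algebra.IsStandardSmoothOfRelativeDimension (m + 1) k (Localization.Away t) := by
    rw [← RingHom.isStandardSmoothOfRelativeDimension_algebraMap]
    rw [IsScalarTower.algebraMap_eq k Rh (Localization.Away t)]
    exact h6
  have h8 := finrank_le_of_smooth (m + 1) d2.ε d2.Θ d2.hΘ d2.hspan
  rw [Module.finrank_pi, Fintype.card_ulift, Fintype.card_option, Fintype.card_fin] at h8
  omega

end

end Pool.Agent.Y178.LF
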