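import Pool.Agent.Y178.LF.Val

set_option autoImplicit false

open MvPolynomial

universe u

namespace Pool.Agent.Y178.LF

variable {k : Type u} [Field k] {m : ℕ} {p i : ℕ} {f g : Pol k m}

lemma aeval_zero_of_homogeneous {B : Type*} [CommRing B] [Algebra k B] {q : Pol k m} {n : ℕ}
    (hq : q.IsHomogeneous n) (hn : 0 < n) : aeval (fun _ : Fin (m + 1) => (0 : B)) q = 0 := by
  have h := aeval_scale hq (0 : B) (fun _ => (0 : B))
  simp only [mul_zero, zero_pow hn.ne', zero_mul] at h
  exact h

section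

variable (H : Good p i f g)

include H

lemma Good.f_zero {B : Type*} [CommRing B] [Algebra k B] :
    aeval (fun _ : Fin (m + 1) => (0 : B)) f = 0 :=
  aeval_zero_of_homogeneous H.hf (Nat.succ_pos m)

/-- The evaluation at the origin. -/
noncomputable def Good.aug : RR p f →ₐ[k] k :=
  RR.lift p f (fun _ => 0) 0 (by rw [zero_pow H.pos.ne', H.f_zero])

lemma Good.aug_x (l : Fin (m + 1)) : H.aug (RR.x p f l) = 0 := RR.lift_x _ _ _ _ _ _

lemma Good.aug_t : H.aug (RR.t p f) = 0 := RR.lift_t _ _ _ _ _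

/-- The ideal of the origin. -/
noncomputable def Good.orig : Ideal (RR p f) := RingHom.ker H.aug

lemma Good.mem_orig (r : RR p f) : r ∈ H.orig ↔ H.aug r = 0 := RingHom.mem_ker

lemma Good.aug_surjective : Function.Surjective H.aug := fun c =>
  ⟨algebraMap k _ c, by rw [AlgHom.commutes]; rfl⟩

lemma Good.orig_isMaximal : H.orig.IsMaximal :=
  RingHom.ker_isMaximal_of_surjective _ H.aug_surjective

lemma Good.t_mem (P : Ideal (RR p f)) [hP : P.IsPrime] (hx : ∀ l, RR.x p f l ∈ P) :
    RR.t p f ∈ P := by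
  apply hP.mem_of_pow_mem p
  rw [RR.t_pow, ← Ideal.Quotient.eq_zero_iff_mem]
  have h : (Ideal.Quotient.mkₐ k P).comp (aeval (RR.x p f)) =
      (aeval (fun _ : Fin (m + 1) => (0 : RR p f ⧸ P)) : Pol k m →ₐ[k] _) := by
    apply MvPolynomial.algHom_ext
    intro b
    rw [AlgHom.comp_apply, aeval_X, aeval_X]
    exact Ideal.Quotient.eq_zero_iff_mem.2 (hx b)
  have h2 : Ideal.Quotient.mk P (aeval (RR.x p f) f) =
      (Ideal.Quotient.mkₐ k P).comp (aeval (RR.x p f)) f := rfl
  rw [h2, h, H.f_zero]

lemma Good.eq_orig (P : Ideal (RR p f)) [hP : P.IsPrime] (hx : ∀ l, RR.x p f l ∈ P) :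
    P = H.orig := by
  have ht := H.t_mem P hx
  have key : ∀ r : RR p f, r - algebraMap k _ (H.aug r) ∈ P := by
    intro r
    induction r using RR.induction with
    | hC c =>
      rw [AlgHom.commutes]
      change algebraMap k (RR p f) c - algebraMap k (RR p f) c ∈ P
      rw [sub_self]
      exact P.zero_mem
    | hx l => rw [H.aug_x, map_zero, sub_zero]; exact hx l
    | ht => rw [H.aug_t, map_zero, sub_zero]; exact ht
    | hadd a b ha hb =>
      rw [map_add, map_add, add_sub_add_comm]
      exact P.add_mem ha hb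
    | hmul a b ha hb =>
      rw [map_mul, map_mul]
      have : a * b - algebraMap k (RR p f) (H.aug a) * algebraMap k (RR p f) (H.aug b) =
          (a - algebraMap k (RR p f) (H.aug a)) * b +
          algebraMap k (RR p f) (H.aug a) * (b - algebraMap k (RR p f) (H.aug b)) := by ring
      rw [this]
      exact P.add_mem (P.mul_mem_right _ ha) (P.mul_mem_left _ hb)
  have hle : H.orig ≤ P := by
    intro r hr
    rw [H.mem_orig] at hr
    have := key r
    rwa [hr, map_zero, sub_zero] at this
  exact (H.orig_isMaximal.eq_of_le hP.ne_top hle).symm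

lemma Good.x_mem_orig (l : Fin (m + 1)) : RR.x p f l ∈ H.orig := (H.mem_orig _).2 (H.aug_x l)

/-- Away from the origin some partial derivative is invertible. -/
lemma Good.exists_eta (P : Ideal (RR p f)) [hP : P.IsPrime] (h : P ≠ H.orig) :
    ∃ l, eta p f l ∉ P := by
  by_contra hcon
  push Not at hcon
  apply h
  apply H.eq_orig P
  intro l
  obtain ⟨N, hN⟩ := H.isol l
  apply hP.mem_of_pow_mem N
  have h1 : Ideal.span (Set.range fun b => pderiv b f) ≤ P.comap (aeval (RR.x p f)) := by
    rw [Ideal.span_le]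
    rintro _ ⟨b, rfl⟩
    exact hcon b
  have h2 := h1 hN
  rw [Ideal.mem_comap, map_pow, aeval_X] at h2
  exact h2

/-- On the locus `G_l = 0` some partial derivative of `G_l` is invertible. -/
lemma Good.exists_pderiv (l : Fin (m + 1)) (Q : Ideal (Pol k m)) [hQ : Q.IsPrime]
    (hG : dehom l f ∈ Q) : ∃ a, a ≠ l ∧ pderiv a (dehom l f) ∉ Q := by
  by_contra hcon
  push Not at hcon
  have h1 : ∀ b, b ≠ l → dehom l (pderiv b f) ∈ Q := by
    intro b hb
    rw [← pderiv_dehom hb]
    exact hcon b hb
  have hE := congrArg (dehom l) H.hf.sum_X_mul_pderiv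
  have h2 : ∀ q q' : Pol k m, dehom l (q * q') = dehom l q * dehom l q' := fun q q' =>
    map_mul (aeval (uu l)) q q'
  have h3 : dehom l (∑ b, X b * pderiv b f) = ∑ b, uu l b * dehom l (pderiv b f) := by
    unfold dehom
    rw [map_sum]
    refine Finset.sum_congr rfl fun b _ => ?_
    rw [map_mul, aeval_X]
  have h4 : dehom l ((m + 1) • f) = (m + 1) • dehom l f := by
    unfold dehom
    rw [map_nsmul]
  rw [h3, h4, ← Finset.add_sum_erase Finset.univ _ (Finset.mem_univ l), uu_self, one_mul] at hE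
  have h5 : dehom l (pderiv l f) ∈ Q := by
    have : dehom l (pderiv l f) = (m + 1) • dehom l f -
        ∑ b ∈ Finset.univ.erase l, uu l b * dehom l (pderiv b f) := by
      rw [← hE]; ring
    rw [this]
    refine Q.sub_mem (Submodule.smul_of_tower_mem _ _ hG) (Ideal.sum_mem _ fun b hb => ?_)
    exact Ideal.mul_mem_left _ _ (h1 b (Finset.ne_of_mem_erase hb))
  obtain ⟨N, hN⟩ := H.isol l
  have h6 : Ideal.span (Set.range fun b => pderiv b f) ≤ Q.comap (aeval (uu l)) := by
    rw [Ideal.span_le]
    rintro _ ⟨b, rfl⟩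
    by_cases hb : b = l
    · subst hb; exact h5
    · exact h1 b hb
  have h7 := h6 hN
  rw [Ideal.mem_comap, map_pow, aeval_X, uu_self, one_pow] at h7
  exact hQ.ne_top ((Ideal.eq_top_iff_one _).2 h7)

end

end Pool.Agent.Y178.LF
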