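import Pool.Agent.Y178.LF.Chart1
import Pool.Agent.Helper165.Forms

set_option autoImplicit false

open KaehlerDifferential MvPolynomial

universe u

namespace Pool.Agent.Y178.LF

open Pool.Agent.Helper165

lemma D_aeval {k K : Type*} [Field k] [Field K] [Algebra k K] {ι : Type*} [Fintype ι]
    (ξ : ι → K) (q : MvPolynomial ι k) :
    D k K (aeval ξ q) = ∑ b, aeval ξ (pderiv b q) • D k K (ξ b) := by
  classical
  induction q using MvPolynomial.induction_on with
  | C c => simp
  | add q q' h h' =>
    rw [map_add, map_add, h, h', ← Finset.sum_add_distrib]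
    refine Finset.sum_congr rfl fun b _ => ?_
    rw [map_add, map_add, add_smul]
  | mul_X q b h =>
    rw [map_mul, aeval_X, Derivation.leibniz, h, Finset.smul_sum]
    have h1 : ∀ x, aeval ξ (pderiv x (q * X b)) • D k K (ξ x) =
        (if x = b then aeval ξ q • D k K (ξ b) else 0) + ξ b • aeval ξ (pderiv x q) • D k K (ξ x) := by
      intro x
      rw [Derivation.leibniz, map_add, add_smul, smul_eq_mul, smul_eq_mul, map_mul, map_mul,
        aeval_X, pderiv_X, mul_smul, mul_smul]
      congr 1
      by_cases hx : x = b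
      · subst hx
        rw [if_pos rfl, Pi.single_eq_same, map_one, one_smul]
      · rw [if_neg hx, Pi.single_eq_of_ne (Ne.symm hx), map_zero, zero_smul, smul_zero]
    simp only [h1]
    rw [Finset.sum_add_distrib, Finset.sum_ite_eq' Finset.univ b, if_pos (Finset.mem_univ _)]

lemma alt_replace {K M N : Type*} [Field K] [AddCommGroup M] [Module K M] [AddCommGroup N]
    [Module K N] {m : ℕ} (F : M [⋀^Fin m]→ₗ[K] N) (w : Fin m → M) (w0 : M) (c0 : K)
    (c : Fin m → K) (h : c0 • w0 + ∑ j, c j • w j = 0) (a : Fin m) :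
    c a • F w = -(c0 • F (Function.update w a w0)) := by
  classical
  have h1 : F (Function.update w a (c0 • w0 + ∑ j, c j • w j)) = 0 := by
    rw [h]
    exact F.map_update_zero w a
  rw [F.map_update_add, F.map_update_smul, F.map_update_sum] at h1
  have h2 : ∑ j, F (Function.update w a (c j • w j)) = c a • F w := by
    rw [Finset.sum_eq_single a]
    · rw [F.map_update_smul, Function.update_eq_self]
    · intro j _ hj
      rw [F.map_update_smul]
      have : F (Function.update w a (w j)) = 0 := by
        apply F.map_eq_zero_of_eq _ (i := a) (j := j) _ (Ne.symm hj)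
        rw [Function.update_self, Function.update_of_ne hj]
      rw [this, smul_zero]
    · intro h; exact absurd (Finset.mem_univ _) h
  rw [h2] at h1
  rw [eq_neg_iff_add_eq_zero, add_comm]
  exact h1

variable {k : Type u} [Field k] {m : ℕ}
variable {p i : ℕ} {f g : Pol k m} (H : Good p i f g)
variable {K : Type*} [Field K] [Algebra k K] (φ : RR p f →ₐ[k] K)

/-- The rational form `(x_0^(m+1) / t^p) d(x_1/x_0) ∧ ⋯ ∧ d(x_m/x_0)`. -/
noncomputable def rho (φ : RR p f →ₐ[k] K) : ⋀[K]^m (Ω[K⁄k]) :=
  (φ (RR.x p f 0) ^ (m + 1) / φ (RR.t p f) ^ p) •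
    exteriorPower.ιMulti K m (fun a : Fin m => D k K (φ (RR.x p f a.succ) / φ (RR.x p f 0)))

/-- The partial derivative `∂f/∂x_b` in the coordinate ring. -/
noncomputable def eta (p : ℕ) (f : Pol k m) (b : Fin (m + 1)) : RR p f :=
  aeval (RR.x p f) (pderiv b f)

lemma phi_eta (b : Fin (m + 1)) :
    φ (eta p f b) = aeval (fun b => φ (RR.x p f b)) (pderiv b f) := by
  have : (aeval (fun b => φ (RR.x p f b)) : Pol k m →ₐ[k] K) = φ.comp (aeval (RR.x p f)) := by
    apply MvPolynomial.algHom_ext
    intro b
    simp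
  rw [this]
  rfl

lemma d_rel [CharP K p] :
    ∑ b, φ (eta p f b) • D k K (φ (RR.x p f b)) = 0 := by
  have h1 : aeval (fun b => φ (RR.x p f b)) f = φ (RR.t p f) ^ p := by
    have : (aeval (fun b => φ (RR.x p f b)) : Pol k m →ₐ[k] K) = φ.comp (aeval (RR.x p f)) := by
      apply MvPolynomial.algHom_ext
      intro b
      simp
    rw [this, ← map_pow, RR.t_pow]
    rfl
  have h2 := D_aeval (k := k) (fun b => φ (RR.x p f b)) f
  rw [h1, Derivation.leibniz_pow] at h2
  simp only [← phi_eta] at h2
  rw [← h2, ← Nat.cast_smul_eq_nsmul K, CharP.cast_eq_zero, zero_smul]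

include H

lemma Good.euler :
    ∑ b, φ (RR.x p f b) * φ (eta p f b) = ((m + 1 : ℕ) : K) * φ (RR.t p f) ^ p := by
  have h1 := H.hf.sum_X_mul_pderiv
  have h2 := congrArg (fun q => φ (aeval (RR.x p f) q)) h1
  simp only [map_sum, map_mul, aeval_X, nsmul_eq_mul, map_natCast, ← RR.t_pow, map_pow] at h2
  exact h2

lemma Good.eta_ne_zero (b : Fin (m + 1)) : eta p f b ≠ 0 := by
  intro h
  have h1 := congrArg H.psi h
  rw [map_zero, eta] at h1
  have h2 : H.psi (aeval (RR.x p f) (pderiv b f)) = expand p (pderiv b f) := by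
    have : (H.psi.comp (aeval (RR.x p f)) : Pol k m →ₐ[k] Pol k m) = expand p := by
      apply MvPolynomial.algHom_ext
      intro b
      rw [AlgHom.comp_apply, aeval_X, H.psi_x, expand_X]
    rw [← this]
    rfl
  rw [h2] at h1
  exact H.pd b (expand_injective H.pos (by rw [h1, map_zero]))

variable (hφ : Function.Injective φ)

include hφ

/-- The fundamental formula: `ρ = ((m + 1) / (∂f/∂x_0)) dx_1 ∧ ⋯ ∧ dx_m`. -/
lemma Good.rho_eq [CharP K p] :
    rho φ = (((m + 1 : ℕ) : K) / φ (eta p f 0)) •
      exteriorPower.ιMulti K m (fun a : Fin m => D k K (φ (RR.x p f a.succ))) := by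
  classical
  have hx0 := H.phix_ne φ hφ 0
  have ht := H.phit_ne φ hφ
  have he0 : φ (eta p f 0) ≠ 0 := fun h =>
    H.eta_ne_zero 0 ((map_eq_zero_iff _ hφ).1 h)
  have hd := d_rel φ
  rw [Fin.sum_univ_succ] at hd
  have hE := H.euler φ
  rw [Fin.sum_univ_succ] at hE
  set x0 : K := φ (RR.x p f 0) with hx0'
  set e0 : K := φ (eta p f 0) with he0'
  let v : Fin m → K := fun a => φ (RR.x p f a.succ) / x0
  let w : Fin m → K := fun j => φ (eta p f j.succ) / e0
  -- the differential of `x_0`
  have hD0 : D k K x0 = - ∑ j : Fin m, w j • D k K (φ (RR.x p f j.succ)) := by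
    have h1 := congrArg (fun z => e0⁻¹ • z) hd
    simp only [smul_add, smul_smul, inv_mul_cancel₀ he0, one_smul, smul_zero,
      Finset.smul_sum] at h1
    rw [add_eq_zero_iff_eq_neg] at h1
    rw [h1]
    congr 1
    refine Finset.sum_congr rfl fun j _ => ?_
    rw [← div_eq_inv_mul]
  let M : Matrix (Fin m) (Fin m) K :=
    x0⁻¹ • ((1 : Matrix (Fin m) (Fin m) K) +
      Matrix.replicateCol Unit v * Matrix.replicateRow Unit w)
  have hMe : ∀ a j, M a j = x0⁻¹ * ((1 : Matrix (Fin m) (Fin m) K) a j + v a * w j) := by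
    intro a j
    simp only [M, Matrix.smul_apply, Matrix.add_apply, smul_eq_mul]
    congr 2
    simp [Matrix.mul_apply]
  have hM : (fun a : Fin m => D k K (φ (RR.x p f a.succ) / x0)) =
      fun a => ∑ j, M a j • D k K (φ (RR.x p f j.succ)) := by
    funext a
    have h1 : D k K (φ (RR.x p f a.succ) / x0) =
        x0⁻¹ • D k K (φ (RR.x p f a.succ)) - (x0⁻¹ * v a) • D k K x0 := by
      have h2 : x0⁻¹ • D k K (x0 * (φ (RR.x p f a.succ) / x0)) =
          x0⁻¹ • D k K (φ (RR.x p f a.succ)) := by
        congr 2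
        field_simp
      rw [Derivation.leibniz, smul_add, smul_smul, inv_mul_cancel₀ hx0, one_smul] at h2
      rw [← h2, smul_smul]
      abel
    rw [h1, hD0, smul_neg, sub_neg_eq_add, Finset.smul_sum]
    have h3 : ∀ j, M a j • D k K (φ (RR.x p f j.succ)) =
        (if a = j then x0⁻¹ • D k K (φ (RR.x p f j.succ)) else 0) +
        (x0⁻¹ * v a) • w j • D k K (φ (RR.x p f j.succ)) := by
      intro j
      rw [hMe, mul_add, add_smul, Matrix.one_apply, smul_smul, mul_assoc]
      by_cases h : a = j
      · rw [if_pos h, if_pos h, mul_one]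
      · rw [if_neg h, if_neg h, mul_zero, zero_smul]
    simp only [h3]
    rw [Finset.sum_add_distrib, Finset.sum_ite_eq Finset.univ a, if_pos (Finset.mem_univ _)]
  have hdet : M.det = (x0 ^ (m + 1))⁻¹ * (((m + 1 : ℕ) : K) * φ (RR.t p f) ^ p / e0) := by
    simp only [M]
    rw [Matrix.det_smul, Matrix.det_one_add_replicateCol_mul_replicateRow, Fintype.card_fin,
      ← hE]
    have h1 : w ⬝ᵥ v = (∑ j : Fin m, φ (RR.x p f j.succ) * φ (eta p f j.succ)) / (e0 * x0) := by
      rw [dotProduct, Finset.sum_div]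
      refine Finset.sum_congr rfl fun j _ => ?_
      simp only [v, w]
      field_simp
    rw [h1, inv_pow, pow_succ x0 m]
    field_simp
  unfold rho
  rw [← hx0', hM, alternating_det, hdet, smul_smul]
  congr 1
  field_simp

/-- The form `ρ` is regular wherever the coordinate functions are regular and some partial
derivative of `f` is invertible. -/
theorem Good.rho_mem [CharP K p] (O : Subring K) (hO : ∀ r, φ r ∈ O)
    (l : Fin (m + 1)) (hl : (φ (eta p f l))⁻¹ ∈ O) :
    rho φ ∈ regularForms (differential k K) m (O : Set K) := by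
  classical
  have he0 : φ (eta p f 0) ≠ 0 := fun h =>
    H.eta_ne_zero 0 ((map_eq_zero_iff _ hφ).1 h)
  have hel : φ (eta p f l) ≠ 0 := fun h =>
    H.eta_ne_zero l ((map_eq_zero_iff _ hφ).1 h)
  rw [H.rho_eq φ hφ]
  induction l using Fin.cases with
  | zero =>
    refine AddSubgroup.subset_closure ⟨_, ?_, fun a => φ (RR.x p f a.succ), fun a => hO _, rfl⟩
    rw [div_eq_mul_inv]
    exact O.mul_mem (natCast_mem O _) hl
  | succ a =>
    have hd := d_rel φ
    rw [Fin.sum_univ_succ] at hd
    have h1 := alt_replace (exteriorPower.ιMulti K m) (fun j : Fin m => D k K (φ (RR.x p f j.succ)))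
      (D k K (φ (RR.x p f 0))) (φ (eta p f 0)) (fun j => φ (eta p f j.succ)) hd a
    have h2 : exteriorPower.ιMulti K m (fun a : Fin m => D k K (φ (RR.x p f a.succ))) =
        (-(φ (eta p f 0) / φ (eta p f a.succ))) • exteriorPower.ιMulti K m
          (Function.update (fun j : Fin m => D k K (φ (RR.x p f j.succ))) a
            (D k K (φ (RR.x p f 0)))) := by
      have h3 := congrArg (fun z => (φ (eta p f a.succ))⁻¹ • z) h1
      simp only [smul_smul, inv_mul_cancel₀ hel, one_smul] at h3
      rw [h3, smul_neg, smul_smul, div_eq_inv_mul]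
      exact (neg_smul _ _).symm
    rw [h2, smul_smul]
    refine AddSubgroup.subset_closure
      ⟨((m + 1 : ℕ) : K) / φ (eta p f 0) * -(φ (eta p f 0) / φ (eta p f a.succ)), ?_,
      Function.update (fun j : Fin m => φ (RR.x p f j.succ)) a (φ (RR.x p f 0)), ?_, ?_⟩
    · have : ((m + 1 : ℕ) : K) / φ (eta p f 0) * -(φ (eta p f 0) / φ (eta p f a.succ)) =
          -(((m + 1 : ℕ) : K) * (φ (eta p f a.succ))⁻¹) := by
        field_simp
      rw [this]
      exact O.neg_mem (O.mul_mem (natCast_mem O _) hl)
    · intro j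
      by_cases h : j = a
      · subst h
        rw [Function.update_self]
        exact hO _
      · rw [Function.update_of_ne h]
        exact hO _
    · congr 2
      funext j
      by_cases h : j = a
      · subst h
        rw [Function.update_self, Function.update_self]
        rfl
      · rw [Function.update_of_ne h, Function.update_of_ne h]
        rfl

end Pool.Agent.Y178.LF
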