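import Pool.Agent.Y178.LF.ChartsJ
import Pool.Agent.Y178.LF.Orig
import Pool.Agent.Y178.LF.Etale2
import Pool.Agent.Y178.LF.Defs

set_option autoImplicit false

open MvPolynomial

universe u

namespace Pool.Agent.Y178.LF

open Pool.Agent.Helper165 AlgebraicGeometry CategoryTheory TopologicalSpace

/-- The data of the definition of a simple normal crossing divisor at a point. -/
def SNCAt {k : Type u} [Field k] {Y : Scheme.{u}} (n : ℕ) (π : Y ⟶ Spec (CommRingCat.of k))
    (E : Set Y) (y : Y) : Prop :=
  ∃ (B : CommRingCat.{u}) (j : Spec B ⟶ Y) (z : MvPolynomial (Fin n) k →+* B)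
    (I : Finset (Fin n)), IsOpenImmersion j ∧ y ∈ Set.range j ∧
      j ≫ π = Spec.map (CommRingCat.ofHom (z.comp MvPolynomial.C)) ∧ z.Etale ∧
      ∀ x : Spec B, j x ∈ E ↔ z (∏ a ∈ I, MvPolynomial.X a) ∈ x.asIdeal

lemma sncAt_of_chart {k C : Type u} [Field k] [CommRing C] [Algebra k C] {Y : Scheme.{u}} {n : ℕ}
    (π : Y ⟶ Spec (CommRingCat.of k)) (E : Set Y) (jC : Spec (CommRingCat.of C) ⟶ Y)
    [hj : IsOpenImmersion jC] (hjπ : jC ≫ π = Spec.map (CommRingCat.ofHom (algebraMap k C)))
    (h : C) (z0 : Fin n → C) (I : Finset (Fin n))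
    (het : ((aeval (fun b => algebraMap C (Localization.Away h) (z0 b)) :
      MvPolynomial (Fin n) k →ₐ[k] Localization.Away h) :
        MvPolynomial (Fin n) k →+* Localization.Away h).Etale)
    (hE : ∀ P : Spec (CommRingCat.of C), h ∉ P.asIdeal → (jC P ∈ E ↔ ∏ a ∈ I, z0 a ∈ P.asIdeal))
    (z : Spec (CommRingCat.of C)) (hz : h ∉ z.asIdeal) : SNCAt n π E (jC z) := by
  let D := Localization.Away h
  let r : Spec (CommRingCat.of D) ⟶ Spec (CommRingCat.of C) :=
    Spec.map (CommRingCat.ofHom (algebraMap C D))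
  have hr : IsOpenImmersion r := inferInstance
  have hrange : Set.range r = {P | h ∉ PrimeSpectrum.asIdeal (R := C) P} :=
    PrimeSpectrum.localization_away_comap_range D h
  refine ⟨CommRingCat.of D, r ≫ jC, ((aeval (fun b => algebraMap C (Localization.Away h) (z0 b)) :
      MvPolynomial (Fin n) k →ₐ[k] Localization.Away h) :
        MvPolynomial (Fin n) k →+* Localization.Away h), I, inferInstance, ?_, ?_, het, ?_⟩
  · have : z ∈ Set.range r := by rw [hrange]; exact hz
    obtain ⟨w, hw⟩ := this
    exact ⟨w, by rw [Scheme.Hom.comp_apply, hw]⟩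
  · rw [Category.assoc, hjπ, ← Spec.map_comp, ← CommRingCat.ofHom_comp]
    congr 2
    ext c
    change algebraMap C D (algebraMap k C c) = aeval _ (MvPolynomial.C c)
    rw [aeval_C, ← IsScalarTower.algebraMap_apply]
  · intro x
    have h1 : h ∉ PrimeSpectrum.asIdeal (R := C) (r x) := by
      have : r x ∈ Set.range r := ⟨x, rfl⟩
      rw [hrange] at this
      exact this
    rw [Scheme.Hom.comp_apply, hE (r x) h1]
    change algebraMap C D (∏ a ∈ I, z0 a) ∈ PrimeSpectrum.asIdeal (R := D) x ↔
      aeval _ (∏ a ∈ I, (X a : MvPolynomial (Fin n) k)) ∈ PrimeSpectrum.asIdeal (R := D) x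
    rw [map_prod, map_prod]
    simp only [aeval_X]
    rfl

section

variable {k : Type u} [Field k] {m : ℕ} {p i : ℕ} {f g : Pol k m}

/-- The structure morphism of `X`. -/
noncomputable def xStr (p : ℕ) (f : Pol k m) :
    Spec (CommRingCat.of (RR p f)) ⟶ Spec (CommRingCat.of k) :=
  Spec.map (CommRingCat.ofHom (algebraMap k (RR p f)))

/-- The locus lying over the origin. -/
def overO (p i : ℕ) (f : Pol k m) : Set (blow (JJ p i f)) :=
  {y | ∀ b, RR.x p f b ∈ PrimeSpectrum.asIdeal (R := RR p f) (blowMap (JJ p i f) y)}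

lemma wChart_str (a : RR p f) (ha : a ∈ JJ p i f) :
    wChart (JJ p i f) a ha ≫ (blowMap (JJ p i f) ≫ xStr p f) =
      Spec.map (CommRingCat.ofHom (algebraMap k (W (JJ p i f) a ha))) := by
  rw [← Category.assoc, wChart_blowMap]
  unfold xStr
  exact (Spec.map_comp _ _).symm

lemma wChart_mem_overO (a : RR p f) (ha : a ∈ JJ p i f)
    (P : Spec (CommRingCat.of (W (JJ p i f) a ha))) :
    wChart (JJ p i f) a ha P ∈ overO p i f ↔
      ∀ b, W.ofA (JJ p i f) a ha (RR.x p f b) ∈
        PrimeSpectrum.asIdeal (R := W (JJ p i f) a ha) P := by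
  have h : blowMap (JJ p i f) (wChart (JJ p i f) a ha P) =
      Spec.map (CommRingCat.ofHom (W.ofA (JJ p i f) a ha)) P := by
    rw [← wChart_blowMap, Scheme.Hom.comp_apply]
  change (∀ b, RR.x p f b ∈ PrimeSpectrum.asIdeal (R := RR p f)
    (blowMap (JJ p i f) (wChart (JJ p i f) a ha P))) ↔ _
  rw [h]
  rfl

variable (H : Good p i f g)

include H

/-- The first kind of charts. -/
lemma Good.snc_one (l : Fin (m + 1)) (z : Spec (CommRingCat.of (W (JJ p i f) _ (xt_mem l)))) :
    SNCAt (m + 1) (blowMap (JJ p i f) ≫ xStr p f) (overO p i f)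
      (wChart (JJ p i f) _ (xt_mem l) z) := by
  classical
  obtain ⟨v, hv, hker, hA⟩ := H.chartOne l
  have hrel : v none = aeval v (rename some (dehom l f)) := by
    have h1 : relOne (dehom l f) ∈ RingHom.ker (aeval v : MvPolynomial (Option (Fin (m + 1))) k →ₐ[k] _) := by
      rw [hker]; exact Ideal.mem_span_singleton_self _
    rw [RingHom.mem_ker, relOne, map_sub, aeval_X, sub_eq_zero] at h1
    exact h1
  have hmem : ∀ P : Spec (CommRingCat.of (W (JJ p i f) _ (xt_mem l))),
      wChart (JJ p i f) _ (xt_mem l) P ∈ overO p i f ↔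
        v (some l) * v none ∈ PrimeSpectrum.asIdeal (R := W (JJ p i f) _ (xt_mem l)) P := by
    intro P
    have hPp : (PrimeSpectrum.asIdeal (R := W (JJ p i f) _ (xt_mem l)) P).IsPrime :=
      PrimeSpectrum.isPrime (R := W (JJ p i f) _ (xt_mem l)) P
    rw [wChart_mem_overO]
    have h2 : ∀ b, W.ofA (JJ p i f) _ (xt_mem l) (RR.x p f b) =
        (v (some l) ^ p * v none) * aeval v (rename some (uu l b : Pol k m)) := by
      intro b
      rw [hA, H.chi_x, hrel]
      simp only [map_mul, map_pow, rename_X, aeval_X]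
    constructor
    · intro h
      have h3 := h l
      rw [h2, uu_self, map_one, map_one, mul_one] at h3
      rcases hPp.mem_or_mem h3 with h4 | h4
      · exact Ideal.mul_mem_right _ _ (hPp.mem_of_pow_mem p h4)
      · exact Ideal.mul_mem_left _ _ h4
    · intro h b
      rw [h2]
      refine Ideal.mul_mem_right _ _ ?_
      rcases hPp.mem_or_mem h with h4 | h4
      · exact Ideal.mul_mem_right _ _ (Ideal.pow_mem_of_mem _ h4 p H.pos)
      · exact Ideal.mul_mem_left _ _ h4
  set PI : Ideal (W (JJ p i f) _ (xt_mem l)) :=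
    PrimeSpectrum.asIdeal (R := W (JJ p i f) _ (xt_mem l)) z with hPI
  have hPIp : PI.IsPrime := PrimeSpectrum.isPrime (R := W (JJ p i f) _ (xt_mem l)) z
  by_cases hG : v none ∈ PI
  · -- the point lies on `G_l = 0`
    let Q : Ideal (Pol k m) := PI.comap ((aeval v).comp (rename some) : Pol k m →ₐ[k] _)
    have hQ : Q.IsPrime := hPIp.comap _
    have hGQ : dehom l f ∈ Q := by
      change aeval v (rename some (dehom l f)) ∈ PI
      rw [← hrel]
      exact hG
    obtain ⟨a, hal, ha⟩ := H.exists_pderiv l Q hGQ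
    have ha' : aeval v (rename some (pderiv a (dehom l f))) ∉ PI := ha
    refine sncAt_of_chart (C := W (JJ p i f) _ (xt_mem l)) _ _ (wChart (JJ p i f) _ (xt_mem l))
      (wChart_str _ _)
      (aeval v (rename some (pderiv a (dehom l f))))
      (fun b => v (Equiv.swap none (some a) (some b))) {l, a} ?_ ?_ z ha'
    · refine etale_of_hyper v hv (relOne (dehom l f)) hker (some a)
        (aeval v (rename some (pderiv a (dehom l f)))) _ ?_
      have h5 : pderiv (some a) (relOne (dehom l f)) = -rename some (pderiv a (dehom l f)) := by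
        rw [relOne, map_sub, pderiv_X, Pi.single_eq_of_ne (by simp), zero_sub,
          ← pderiv_rename (Option.some_injective _)]
      rw [h5, map_neg, map_neg]
      exact (IsLocalization.Away.algebraMap_isUnit
        (aeval v (rename some (pderiv a (dehom l f))))).neg
    · intro P _
      rw [hmem P, Finset.prod_pair (Ne.symm hal), Equiv.swap_apply_right,
        Equiv.swap_apply_of_ne_of_ne (by simp) (by simpa using (Ne.symm hal))]
  · refine sncAt_of_chart (C := W (JJ p i f) _ (xt_mem l)) _ _ (wChart (JJ p i f) _ (xt_mem l))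
      (wChart_str _ _) (v none)
      (fun b => v (Equiv.swap none none (some b))) {l} ?_ ?_ z hG
    · refine etale_of_hyper v hv (relOne (dehom l f)) hker none (v none) _ ?_
      have h5 : pderiv none (relOne (dehom l f)) = 1 := by
        rw [relOne, map_sub, pderiv_X_self]
        have : pderiv none (rename some (dehom l f)) = 0 := by
          apply pderiv_eq_zero_of_notMem_vars
          intro h
          have h6 := vars_rename some (dehom l f) h
          simp at h6
        rw [this, sub_zero]
      rw [h5, map_one, map_one]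
      exact isUnit_one
    · intro P hP
      have hPp : (PrimeSpectrum.asIdeal (R := W (JJ p i f) _ (xt_mem l)) P).IsPrime :=
        PrimeSpectrum.isPrime (R := W (JJ p i f) _ (xt_mem l)) P
      rw [hmem P, Finset.prod_singleton, Equiv.swap_self, Equiv.refl_apply]
      constructor
      · intro h
        exact (hPp.mem_or_mem h).resolve_right hP
      · intro h
        exact Ideal.mul_mem_right _ _ h

/-- The second kind of charts. -/
lemma Good.snc_two (l : Fin (m + 1)) (z : Spec (CommRingCat.of (W (JJ p i f) _ (xpow_mem l))))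
    (hz : wChart (JJ p i f) _ (xpow_mem l) z ∉ (wChart (JJ p i f) _ (xt_mem l)).opensRange) :
    SNCAt (m + 1) (blowMap (JJ p i f) ≫ xStr p f) (overO p i f)
      (wChart (JJ p i f) _ (xpow_mem l) z) := by
  classical
  obtain ⟨v, hv, hker, hAx, hAt, hfr⟩ := H.chartTwo l
  have hrel : v (some l) * v none ^ p = aeval v (rename some (dehom l f)) := by
    have h1 : relTwo p f l ∈ RingHom.ker (aeval v : MvPolynomial (Option (Fin (m + 1))) k →ₐ[k] _) := by
      rw [hker]; exact Ideal.mem_span_singleton_self _
    rw [RingHom.mem_ker, relTwo, map_sub, map_mul, map_pow, aeval_X, aeval_X, sub_eq_zero] at h1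
    exact h1
  have hmem : ∀ P : Spec (CommRingCat.of (W (JJ p i f) _ (xpow_mem l))),
      wChart (JJ p i f) _ (xpow_mem l) P ∈ overO p i f ↔
        v (some l) ∈ PrimeSpectrum.asIdeal (R := W (JJ p i f) _ (xpow_mem l)) P := by
    intro P
    rw [wChart_mem_overO]
    constructor
    · intro h
      have h3 := h l
      rwa [hAx, uu_self, map_one, map_one, one_mul] at h3
    · intro h b
      rw [hAx]
      exact Ideal.mul_mem_left _ _ h
  set PI : Ideal (W (JJ p i f) _ (xpow_mem l)) :=
    PrimeSpectrum.asIdeal (R := W (JJ p i f) _ (xpow_mem l)) z with hPI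
  have hPIp : PI.IsPrime := PrimeSpectrum.isPrime (R := W (JJ p i f) _ (xpow_mem l)) z
  have hr : v none ∈ PI := by
    rw [← hfr]
    exact frac_mem_of_notMem (JJ p i f) _ (xt_mem l) _ (xpow_mem l) z hz
  let Q : Ideal (Pol k m) := PI.comap ((aeval v).comp (rename some) : Pol k m →ₐ[k] _)
  have hQ : Q.IsPrime := hPIp.comap _
  have hGQ : dehom l f ∈ Q := by
    change aeval v (rename some (dehom l f)) ∈ PI
    rw [← hrel]
    exact Ideal.mul_mem_left _ _ (Ideal.pow_mem_of_mem _ hr p H.pos)
  obtain ⟨a, hal, ha⟩ := H.exists_pderiv l Q hGQ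
  have ha' : aeval v (rename some (pderiv a (dehom l f))) ∉ PI := ha
  refine sncAt_of_chart (C := W (JJ p i f) _ (xpow_mem l)) _ _ (wChart (JJ p i f) _ (xpow_mem l))
    (wChart_str _ _)
    (aeval v (rename some (pderiv a (dehom l f))))
    (fun b => v (Equiv.swap none (some a) (some b))) {l} ?_ ?_ z ha'
  · refine etale_of_hyper v hv (relTwo p f l) hker (some a)
      (aeval v (rename some (pderiv a (dehom l f)))) _ ?_
    have h5 : pderiv (some a) (relTwo p f l) = -rename some (pderiv a (dehom l f)) := by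
      rw [relTwo, map_sub, Derivation.leibniz, Derivation.leibniz_pow, pderiv_X, pderiv_X,
        Pi.single_eq_of_ne (by simp), Pi.single_eq_of_ne (by simpa using (Ne.symm hal)),
        ← pderiv_rename (Option.some_injective _)]
      simp
    rw [h5, map_neg, map_neg]
    exact (IsLocalization.Away.algebraMap_isUnit
      (aeval v (rename some (pderiv a (dehom l f))))).neg
  · intro P _
    rw [hmem P, Finset.prod_singleton,
      Equiv.swap_apply_of_ne_of_ne (by simp) (by simpa using (Ne.symm hal))]

/-- The preimage of the origin is a simple normal crossing divisor. -/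
theorem Good.snc : IsSNC (m + 1) (blowMap (JJ p i f) ≫ xStr p f) (overO p i f) := by
  intro y
  change SNCAt _ _ _ y
  rcases cover y with ⟨l, z, rfl⟩ | ⟨hn, l, z, rfl⟩
  · exact H.snc_one l z
  · exact H.snc_two l z (hn l)

end

end Pool.Agent.Y178.LF
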