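import Pool.Agent.Y178.LF.Ring

set_option autoImplicit false

open MvPolynomial

universe u

namespace Pool.Agent.Y178.LF

lemma sum_shift {B : Type*} [CommRing B] (c : ℕ → B) (T : B) (p : ℕ) (hp : 0 < p)
    (h : c p = c 0 * T ^ p) : ∑ j ∈ Finset.range p, c (j + 1) * T ^ (p - 1 - j) =
      T * ∑ j ∈ Finset.range p, c j * T ^ (p - 1 - j) := by
  obtain ⟨q, rfl⟩ : ∃ q, p = q + 1 := ⟨p - 1, by omega⟩
  rw [Finset.sum_range_succ, Finset.sum_range_succ', mul_add, Finset.mul_sum]
  simp only [Nat.add_sub_cancel, Nat.sub_self, pow_zero, mul_one, Nat.sub_zero]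
  rw [h]
  congr 1
  · refine Finset.sum_congr rfl fun j hj => ?_
    have := Finset.mem_range.1 hj
    rw [mul_left_comm, ← pow_succ', show q - (j + 1) + 1 = q - j by omega]
  · ring

variable {k : Type u} [Field k] {m : ℕ}

/-- The exponent vector `(q, …, q)`. -/
noncomputable def cst (m q : ℕ) : Fin (m + 1) →₀ ℕ := Finsupp.equivFunOnFinite.symm (fun _ => q)

lemma cst_apply (q : ℕ) (i : Fin (m + 1)) : cst m q i = q := rfl

lemma degree_cst (q : ℕ) : (cst m q).degree = (m + 1) * q := by
  rw [Finsupp.degree_eq_sum]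
  simp [cst_apply]

/-- The hypotheses on the polynomials `f`, `g` of degree `m + 1` in `m + 1` variables. -/
structure Good (p i : ℕ) (f g : Pol k m) : Prop where
  prime : p.Prime
  pi : p * i = m + 2
  hm : 1 ≤ m
  hf : f.IsHomogeneous (m + 1)
  hg : g.IsHomogeneous (m + 1)
  frob : expand p f = g ^ p
  isol : ∀ l, ∃ N : ℕ, (X l : Pol k m) ^ N ∈ Ideal.span (Set.range fun b => pderiv b f)
  coef : coeff (cst m (p - 1)) (g ^ (p - 1)) ≠ 0
  pd : ∀ l, pderiv l f ≠ 0

section

variable {p i : ℕ} {f g : Pol k m} (H : Good p i f g)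

include H

lemma Good.aeval_pow : g ^ p = aeval (fun l => (X l : Pol k m) ^ p) f := by
  rw [← H.frob]
  rfl

/-- The embedding of `RR p f` in the polynomial ring. -/
noncomputable def Good.psi : RR p f →ₐ[k] Pol k m :=
  RR.lift p f (fun l => (X l : Pol k m) ^ p) g H.aeval_pow

lemma Good.psi_x (l : Fin (m + 1)) : H.psi (RR.x p f l) = X l ^ p := RR.lift_x _ _ _ _ _ _

lemma Good.psi_t : H.psi (RR.t p f) = g := RR.lift_t _ _ _ _ _

lemma Good.pos : 0 < p := H.prime.pos

/-- The operator `Φ'`. -/
noncomputable def Good.phi : Pol k m →+ Pol k m := extract p H.pos (cst m (p - 1))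

lemma Good.phi_expand (c a : Pol k m) : H.phi (expand p c * a) = c * H.phi a := by
  refine extract_expand_mul p H.pos _ ?_ c a
  intro i
  rw [cst_apply]
  have := H.pos
  omega

/-- The leading coefficient. -/
noncomputable def Good.u (_ : Good p i f g) : k := coeff (cst m (p - 1)) (g ^ (p - 1))

lemma Good.phi_pow (j : ℕ) (hj : j < p - 1) : H.phi (g ^ j) = 0 := by
  ext α
  rw [Good.phi, coeff_extract, coeff_zero]
  apply (H.hg.pow j).coeff_eq_zero
  intro h1
  rw [map_add, degree_cst] at h1
  have h3 : (m + 1) * (j + 1) ≤ (m + 1) * (p - 1) := Nat.mul_le_mul_left _ hj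
  rw [Nat.mul_add] at h3
  omega

lemma Good.phi_top : H.phi (g ^ (p - 1)) = C H.u := by
  ext α
  rw [Good.phi, coeff_extract, coeff_C]
  by_cases h0 : 0 = α
  · rw [if_pos h0, ← h0, smul_zero, zero_add]
    rfl
  · rw [if_neg h0]
    apply (H.hg.pow (p - 1)).coeff_eq_zero
    intro h1
    rw [map_add, degree_cst, map_nsmul, smul_eq_mul] at h1
    have h3 : p * α.degree = 0 := by omega
    rcases Nat.mul_eq_zero.1 h3 with h4 | h4
    · exact absurd h4 H.pos.ne'
    · exact h0 ((Finsupp.degree_eq_zero_iff α).1 h4).symm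

/-- The retraction. -/
noncomputable def Good.theta : Pol k m →+ RR p f where
  toFun a := algebraMap k _ H.u⁻¹ *
    ∑ j ∈ Finset.range p, RR.of p f (H.phi (g ^ j * a)) * RR.t p f ^ (p - 1 - j)
  map_zero' := by simp
  map_add' a b := by
    rw [← mul_add, ← Finset.sum_add_distrib]
    congr 1
    refine Finset.sum_congr rfl fun j _ => ?_
    rw [mul_add, map_add, map_add, add_mul]

lemma Good.theta_apply (a : Pol k m) : H.theta a = algebraMap k _ H.u⁻¹ *
    ∑ j ∈ Finset.range p, RR.of p f (H.phi (g ^ j * a)) * RR.t p f ^ (p - 1 - j) := rfl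

lemma Good.theta_expand (c a : Pol k m) :
    H.theta (expand p c * a) = RR.of p f c * H.theta a := by
  rw [H.theta_apply, H.theta_apply, mul_left_comm, Finset.mul_sum]
  have h : ∀ j, RR.of p f (H.phi (g ^ j * (expand p c * a))) * RR.t p f ^ (p - 1 - j) =
      RR.of p f c * (RR.of p f (H.phi (g ^ j * a)) * RR.t p f ^ (p - 1 - j)) := by
    intro j
    rw [mul_left_comm (g ^ j), H.phi_expand, map_mul, mul_assoc]
  simp only [h, Finset.mul_sum]

lemma Good.theta_g (a : Pol k m) : H.theta (g * a) = RR.t p f * H.theta a := by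
  rw [H.theta_apply, H.theta_apply, mul_left_comm]
  have h := sum_shift (fun j => RR.of p f (H.phi (g ^ j * a))) (RR.t p f) p H.pos (by
    change RR.of p f (H.phi (g ^ p * a)) = RR.of p f (H.phi (g ^ 0 * a)) * RR.t p f ^ p
    rw [← H.frob, H.phi_expand, map_mul, RR.t_pow, RR.of_eq_aeval p f f, pow_zero, one_mul,
      mul_comm])
  rw [← h]
  have h2 : ∀ j, g ^ j * (g * a) = g ^ (j + 1) * a := fun j => by rw [pow_succ, mul_assoc]
  simp only [h2]

lemma Good.theta_psi (r : RR p f) (a : Pol k m) : H.theta (H.psi r * a) = r * H.theta a := by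
  induction r using RR.induction generalizing a with
  | hC c =>
    have h1 : H.psi (algebraMap k _ c) = expand p (C c) := by
      rw [AlgHom.commutes, expand_C]
      rfl
    rw [h1, H.theta_expand]
    rfl
  | hx l =>
    rw [H.psi_x, ← expand_X, H.theta_expand]
    rfl
  | ht => rw [H.psi_t, H.theta_g]
  | hadd r s hr hs => rw [map_add, add_mul, map_add, hr, hs, add_mul]
  | hmul r s hr hs => rw [map_mul H.psi, mul_assoc, hr, hs, mul_assoc]

lemma Good.theta_one : H.theta 1 = 1 := by
  rw [H.theta_apply]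
  obtain ⟨q, hq⟩ : ∃ q, p = q + 1 := ⟨p - 1, by have := H.pos; omega⟩
  have hq1 : p - 1 = q := by omega
  have : Finset.range p = Finset.range (q + 1) := by rw [hq]
  rw [this, Finset.sum_range_succ, Finset.sum_eq_zero]
  · rw [mul_one, zero_add, hq1, Nat.sub_self, pow_zero, mul_one]
    have h1 : H.phi (g ^ q) = C H.u := by rw [← hq1]; exact H.phi_top
    have h2 : RR.of p f (C H.u) = algebraMap k _ H.u := rfl
    rw [h1, h2, ← map_mul, inv_mul_cancel₀, map_one]
    exact H.coef
  · intro j hj
    rw [mul_one, H.phi_pow j (by have := Finset.mem_range.1 hj; omega), map_zero, zero_mul]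

lemma Good.theta_psi' (r : RR p f) : H.theta (H.psi r) = r := by
  have := H.theta_psi r 1
  rwa [mul_one, H.theta_one, mul_one] at this

lemma Good.psi_injective : Function.Injective H.psi := by
  intro a b h
  rw [← H.theta_psi' a, ← H.theta_psi' b, h]

lemma Good.isDomain : IsDomain (RR p f) := H.psi_injective.isDomain H.psi.toRingHom

lemma Good.g_ne_zero : g ≠ 0 := by
  intro h
  have h1 := H.coef
  rw [h] at h1
  by_cases hp : p - 1 = 0
  · have := H.prime.one_lt
    omega
  · rw [zero_pow hp, coeff_zero] at h1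
    exact h1 rfl

/-- `RR p f` is integrally closed. -/
lemma Good.isIntegrallyClosed : IsIntegrallyClosed (RR p f) := by
  have hd := H.isDomain
  rw [isIntegrallyClosed_iff (FractionRing (RR p f))]
  intro z hz
  obtain ⟨a, b, hb, rfl⟩ := IsFractionRing.div_surjective (A := RR p f) z
  have hb0 : b ≠ 0 := nonZeroDivisors.ne_zero hb
  let P := Pol k m
  let F := FractionRing P
  have hinj : Function.Injective ((algebraMap P F).comp (H.psi : RR p f →+* P)) :=
    (IsFractionRing.injective P F).comp H.psi_injective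
  let Θ : FractionRing (RR p f) →+* F := IsFractionRing.lift hinj
  have hΘ : ∀ r, Θ (algebraMap (RR p f) _ r) = algebraMap P F (H.psi r) := fun r =>
    IsFractionRing.lift_algebraMap hinj r
  have h1 : IsIntegral P (Θ (algebraMap (RR p f) _ a / algebraMap (RR p f) _ b)) := by
    obtain ⟨q, hq, hq2⟩ := hz
    refine ⟨q.map (H.psi : RR p f →+* P), hq.map _, ?_⟩
    rw [Polynomial.eval₂_map]
    have h3 : (algebraMap P F).comp (H.psi : RR p f →+* P) =
        Θ.comp (algebraMap (RR p f) (FractionRing (RR p f))) := by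
      ext r
      exact (hΘ r).symm
    rw [h3, ← Polynomial.hom_eval₂, hq2, map_zero]
  obtain ⟨c, hc⟩ := IsIntegrallyClosed.isIntegral_iff.1 h1
  have hpb : H.psi b ≠ 0 := fun h => hb0 ((map_eq_zero_iff _ H.psi_injective).1 h)
  have hpb' : algebraMap P F (H.psi b) ≠ 0 := fun h =>
    hpb ((map_eq_zero_iff _ (IsFractionRing.injective P F)).1 h)
  rw [map_div₀, hΘ, hΘ, eq_div_iff hpb', ← map_mul] at hc
  have h4 : c * H.psi b = H.psi a := IsFractionRing.injective P F hc
  refine ⟨H.theta c, ?_⟩
  have h5 : b * H.theta c = a := by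
    rw [← H.theta_psi, mul_comm, h4, H.theta_psi']
  have hb0' : algebraMap (RR p f) (FractionRing (RR p f)) b ≠ 0 := fun h =>
    hb0 ((map_eq_zero_iff _ (IsFractionRing.injective (RR p f) _)).1 h)
  rw [eq_div_iff hb0', ← map_mul, mul_comm, h5]

end

end Pool.Agent.Y178.LF
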