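import Pool.Agent.Y178.LF.Extract

set_option autoImplicit false

open MvPolynomial

universe u

namespace Pool.Agent.Y178.LF

/-- The polynomial ring in the variables `x_0, …, x_m`. -/
abbrev Pol (k : Type u) [Field k] (m : ℕ) : Type u := MvPolynomial (Fin (m + 1)) k

variable {k : Type u} [Field k] {m : ℕ}

/-- The polynomial `T ^ p - f` -/
noncomputable def relPoly (p : ℕ) (f : Pol k m) : Polynomial (Pol k m) :=
  Polynomial.X ^ p - Polynomial.C f

/-- The coordinate ring `k[x_0, …, x_m, t] / (t ^ p - f)`. -/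
def RR (p : ℕ) (f : Pol k m) : Type u := AdjoinRoot (relPoly p f)

variable (p : ℕ) (f : Pol k m)

noncomputable instance : CommRing (RR p f) := inferInstanceAs (CommRing (AdjoinRoot (relPoly p f)))

noncomputable instance : Algebra k (RR p f) :=
  inferInstanceAs (Algebra k (AdjoinRoot (relPoly p f)))

/-- The map from the polynomial ring. -/
noncomputable def RR.of : Pol k m →ₐ[k] RR p f :=
  { (AdjoinRoot.of (relPoly p f)) with
    commutes' := fun _ => rfl }

/-- The element `t`. -/
noncomputable def RR.t : RR p f := AdjoinRoot.root (relPoly p f)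

/-- The element `x_l`. -/
noncomputable def RR.x (l : Fin (m + 1)) : RR p f := RR.of p f (X l)

lemma RR.of_eq_aeval (q : Pol k m) : RR.of p f q = aeval (RR.x p f) q := by
  have h : RR.of p f = aeval (RR.x p f) := by
    apply MvPolynomial.algHom_ext
    intro i
    rw [aeval_X]
    rfl
  rw [h]

lemma RR.t_pow : RR.t p f ^ p = aeval (RR.x p f) f := by
  rw [← RR.of_eq_aeval]
  have h : AdjoinRoot.mk (relPoly p f) (Polynomial.X ^ p - Polynomial.C f) = 0 :=
    AdjoinRoot.mk_self
  rw [map_sub, map_pow] at h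
  exact sub_eq_zero.1 h

lemma RR.eval_rel {B : Type*} [CommRing B] [Algebra k B] (x : Fin (m + 1) → B) (t : B)
    (h : t ^ p = aeval x f) :
    (relPoly p f).eval₂ (aeval x : Pol k m →ₐ[k] B).toRingHom t = 0 := by
  unfold relPoly
  rw [Polynomial.eval₂_sub, Polynomial.eval₂_pow, Polynomial.eval₂_X, Polynomial.eval₂_C,
    sub_eq_zero]
  exact h

/-- The universal property. -/
noncomputable def RR.lift {B : Type*} [CommRing B] [Algebra k B] (x : Fin (m + 1) → B) (t : B)
    (h : t ^ p = aeval x f) : RR p f →ₐ[k] B :=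
  { AdjoinRoot.lift (aeval x : Pol k m →ₐ[k] B).toRingHom t (RR.eval_rel p f x t h) with
    commutes' := fun c => by
      have h1 : (algebraMap k (RR p f) : k →+* RR p f) c =
        AdjoinRoot.of (relPoly p f) (C c) := rfl
      have h2 : (AdjoinRoot.lift (aeval x : Pol k m →ₐ[k] B).toRingHom t
        (RR.eval_rel p f x t h)) (AdjoinRoot.of (relPoly p f) (C c)) = aeval x (C c) :=
        AdjoinRoot.lift_of _
      exact h2.trans (aeval_C _ _) }

lemma RR.lift_x {B : Type*} [CommRing B] [Algebra k B] (x : Fin (m + 1) → B) (t : B)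
    (h : t ^ p = aeval x f) (l : Fin (m + 1)) : RR.lift p f x t h (RR.x p f l) = x l := by
  have : RR.lift p f x t h (RR.x p f l) = (aeval x : Pol k m →ₐ[k] B).toRingHom (X l) :=
    AdjoinRoot.lift_of (RR.eval_rel p f x t h)
  rw [this]
  exact aeval_X _ _

lemma RR.lift_t {B : Type*} [CommRing B] [Algebra k B] (x : Fin (m + 1) → B) (t : B)
    (h : t ^ p = aeval x f) : RR.lift p f x t h (RR.t p f) = t :=
  AdjoinRoot.lift_root (RR.eval_rel p f x t h)

/-- The quotient map. -/
noncomputable def RR.mk : Polynomial (Pol k m) →+* RR p f := AdjoinRoot.mk (relPoly p f)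

/-- `RR` is generated by the `x_l` and `t`. -/
lemma RR.adjoin_eq_top :
    Algebra.adjoin k (Set.range (RR.x p f) ∪ {RR.t p f}) = ⊤ := by
  rw [eq_top_iff]
  intro r _
  have key : ∀ q : Polynomial (Pol k m), RR.mk p f q ∈
      Algebra.adjoin k (Set.range (RR.x p f) ∪ {RR.t p f}) := by
    intro q
    induction q using Polynomial.induction_on' with
    | add a b ha hb => rw [map_add]; exact Subalgebra.add_mem _ ha hb
    | monomial n a =>
      rw [← Polynomial.C_mul_X_pow_eq_monomial, map_mul, map_pow]
      refine Subalgebra.mul_mem _ ?_ (Subalgebra.pow_mem _ ?_ n)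
      · have h1 : RR.mk p f (Polynomial.C a) = RR.of p f a := rfl
        rw [h1, RR.of_eq_aeval]
        have h2 : aeval (RR.x p f) a ∈ Algebra.adjoin k (Set.range (RR.x p f)) := by
          rw [Algebra.adjoin_range_eq_range_aeval]
          exact ⟨a, rfl⟩
        exact Algebra.adjoin_mono Set.subset_union_left h2
      · exact Algebra.subset_adjoin (Or.inr rfl)
  obtain ⟨q, hq⟩ := AdjoinRoot.mk_surjective (g := relPoly p f) r
  have := key q
  have h2 : RR.mk p f q = r := hq
  rwa [h2] at this

/-- Induction principle. -/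
lemma RR.induction {P : RR p f → Prop} (hC : ∀ c : k, P (algebraMap k _ c))
    (hx : ∀ l, P (RR.x p f l)) (ht : P (RR.t p f)) (hadd : ∀ a b, P a → P b → P (a + b))
    (hmul : ∀ a b, P a → P b → P (a * b)) (r : RR p f) : P r := by
  have hr : r ∈ Algebra.adjoin k (Set.range (RR.x p f) ∪ {RR.t p f}) := by
    rw [RR.adjoin_eq_top]; trivial
  induction hr using Algebra.adjoin_induction with
  | mem x hx' =>
    rcases hx' with ⟨l, rfl⟩ | h
    · exact hx l
    · rw [Set.mem_singleton_iff] at h
      rw [h]
      exact ht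
  | algebraMap c => exact hC c
  | add a b _ _ ha hb => exact hadd a b ha hb
  | mul a b _ _ ha hb => exact hmul a b ha hb

lemma RR.hom_ext {B : Type*} [Semiring B] (φ ψ : RR p f →+* B)
    (hC : ∀ c : k, φ (algebraMap k _ c) = ψ (algebraMap k _ c))
    (hx : ∀ l, φ (RR.x p f l) = ψ (RR.x p f l)) (ht : φ (RR.t p f) = ψ (RR.t p f)) : φ = ψ := by
  ext r
  induction r using RR.induction with
  | hC c => exact hC c
  | hx l => exact hx l
  | ht => exact ht
  | hadd a b ha hb => rw [map_add, map_add, ha, hb]
  | hmul a b ha hb => rw [map_mul, map_mul, ha, hb]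

instance : Algebra.FiniteType k (RR p f) := by
  classical
  refine ⟨⟨Finset.image (RR.x p f) Finset.univ ∪ {RR.t p f}, ?_⟩⟩
  rw [Finset.coe_union, Finset.coe_image, Finset.coe_singleton, Finset.coe_univ, Set.image_univ]
  exact RR.adjoin_eq_top p f

end Pool.Agent.Y178.LF
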